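import Pool.Agent.Q161.ESN.All

/-! # Project ESN: the final theorems -/

set_option autoImplicit false

namespace Pool.Agent.Q161.ESN

open Finset NumberField

open scoped Classical

theorem t_goal (J : Type) [Fintype J] (F : Type) [Field F] [NumberField F] (a b : J → 𝓞 F)
    (h : ∀ j, ∀ x : F, x ^ 3 + (a j : F) * x + (b j : F) ≠ 0) :
    ∃ C0 : ℝ, 0 < C0 ∧ ∀ X : ℝ, 1 ≤ X → ∀ 𝒟 : Finset F, (∀ D ∈ 𝒟, D ≠ 0 ∧ (oddNorm D : ℝ) ≤ X) →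
      (∀ D ∈ 𝒟, ∀ D' ∈ 𝒟, D ≠ D' → ¬ IsSquare (D * D')) →
      ((∑ D ∈ 𝒟, ∏ j, Nat.card (Pool.Agent.Q161.ESF.Sel2 (Pool.Agent.Q161.ESG.shF
        ((a j : F) * D ^ 2) ((b j : F) * D ^ 3))) : ℕ) : ℝ) ≤ C0 * X :=
  goalS t_cntg t_vg t_sem3 t_lcg t_emb3 t_kxf t_rep t_shaf J F a b h

theorem t_fin (F : Type) [Field F] [NumberField F] (a b : 𝓞 F)
    (h : ∀ x : F, x ^ 3 + (a : F) * x + (b : F) ≠ 0) (D : F) (hD : D ≠ 0) :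
    Finite (Pool.Agent.Q161.ESF.Sel2 (Pool.Agent.Q161.ESG.shF
      ((a : F) * D ^ 2) ((b : F) * D ^ 3))) :=
  fin_sel t_cntg t_vg t_sem3 t_lcg t_emb3 t_kxf t_rep t_shaf F a b h D hD

/-- the number of the twists -/
theorem t_family (F : Type) [Field F] [NumberField F] :
    ∃ C : ℝ, 0 < C ∧ ∀ X : ℝ, 1 ≤ X → (∃ 𝒟 : Finset F, AllTwists X 𝒟) ∧
      ∀ 𝒟 : Finset F, AllTwists X 𝒟 → X / C ≤ 𝒟.card ∧ (𝒟.card : ℝ) ≤ C * X := by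
  refine family t_dens (fun F _ _ => ?_) F
  obtain ⟨C, hC, h⟩ := goal' t_goal (Fin 0) F (fun _ => 0) (fun _ => 0)
    (fun j => Fin.elim0 j)
  refine ⟨C, hC, fun X hX 𝒟 h𝒟 => ?_⟩
  have h1 := h X hX 𝒟 h𝒟
  simpa using h1

/-- the conclusions for a nonnegative function `s` of the twists whose `k`-th moments are bounded: the moments (sums over
sets of representatives of different twists), the tails, the geometric means; for complete sets the mean values -/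
def Bounded {F : Type} [Field F] [NumberField F] (s : F → ℝ) (k : ℕ) : Prop :=
  ∃ C : ℝ, 0 < C ∧ ∀ X : ℝ, 1 ≤ X → ∀ 𝒟 : Finset F,
    (Twists X 𝒟 → (∑ D ∈ 𝒟, s D ^ k ≤ C * X) ∧
      (∀ T : ℝ, 0 < T → ((𝒟.filter (fun D => T ≤ s D)).card : ℝ) ≤ C * X / T ^ k) ∧
      (𝒟.Nonempty → ∏ D ∈ 𝒟, s D ^ k ≤ (C * X / 𝒟.card) ^ 𝒟.card)) ∧
    (AllTwists X 𝒟 → (∑ D ∈ 𝒟, s D ^ k ≤ C * 𝒟.card) ∧
      ∀ T : ℝ, 0 < T → ((𝒟.filter (fun D => T ≤ s D)).card : ℝ) ≤ C * 𝒟.card / T ^ k)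

theorem bounded {F : Type} [Field F] [NumberField F] {s t : F → ℝ} {k : ℕ}
    (h0 : ∀ D, D ≠ 0 → 0 ≤ s D ∧ s D ≤ t D)
    (h : ∃ C : ℝ, 0 < C ∧ ∀ X : ℝ, 1 ≤ X → ∀ 𝒟 : Finset F, Twists X 𝒟 → ∑ D ∈ 𝒟, t D ^ k ≤ C * X) :
    Bounded s k := by
  obtain ⟨C1, hC1, h1⟩ := h
  obtain ⟨C2, hC2, h2⟩ := t_family F
  have hC : C1 ≤ C1 * max 1 C2 := le_mul_of_one_le_right hC1.le (le_max_left _ _)
  refine ⟨C1 * max 1 C2, by positivity, fun X hX 𝒟 => ⟨fun h𝒟 => ?_, fun h𝒟 => ?_⟩⟩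
  · exact bounds (fun D hD => h0 D (h𝒟.ne D hD)) ((h1 X hX 𝒟 h𝒟).trans
      (mul_le_mul_of_nonneg_right hC (zero_le_one.trans hX)))
  · have h3 : X ≤ max 1 C2 * 𝒟.card := by
      have h4 := ((h2 X hX).2 𝒟 h𝒟).1
      rw [div_le_iff₀ hC2] at h4
      have h5 : (0 : ℝ) ≤ 𝒟.card := Nat.cast_nonneg _
      calc X ≤ 𝒟.card * C2 := h4
        _ = C2 * 𝒟.card := mul_comm _ _
        _ ≤ max 1 C2 * 𝒟.card := mul_le_mul_of_nonneg_right (le_max_right _ _) h5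
    have h6 : ∑ D ∈ 𝒟, t D ^ k ≤ C1 * max 1 C2 * 𝒟.card := by
      refine (h1 X hX 𝒟 h𝒟.toTwists).trans ?_
      rw [mul_assoc]
      exact mul_le_mul_of_nonneg_left h3 hC1.le
    obtain ⟨h7, h8, -⟩ := bounds (fun D hD => h0 D (h𝒟.ne D hD)) h6
    exact ⟨h7, h8⟩

/-- the conclusions for a function with bounded exponential moments -/
theorem rankBounded {F : Type} [Field F] [NumberField F] (R : F → ℕ) (k : ℕ)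
    (h : ∃ C : ℝ, 0 < C ∧ ∀ X : ℝ, 1 ≤ X → ∀ 𝒟 : Finset F, Twists X 𝒟 →
      ∑ D ∈ 𝒟, ((2 : ℝ) ^ R D) ^ k ≤ C * X) :
    ∃ C : ℝ, 0 < C ∧ ∀ X : ℝ, 1 ≤ X → ∀ 𝒟 : Finset F,
      (Twists X 𝒟 → (∑ D ∈ 𝒟, (2 : ℝ) ^ (k * R D) ≤ C * X) ∧
        (∑ D ∈ 𝒟, (R D : ℝ) ^ k ≤ C * X) ∧
        (∀ n : ℕ, ((𝒟.filter (fun D => n ≤ R D)).card : ℝ) ≤ C * X / 2 ^ (k * n)) ∧
        (𝒟.Nonempty → k * ∑ D ∈ 𝒟, (R D : ℝ) ≤ 𝒟.card * Real.logb 2 (C * X / 𝒟.card))) ∧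
      (AllTwists X 𝒟 → (∑ D ∈ 𝒟, (2 : ℝ) ^ (k * R D) ≤ C * 𝒟.card) ∧
        (∑ D ∈ 𝒟, (R D : ℝ) ^ k ≤ C * 𝒟.card) ∧
        ∀ n : ℕ, ((𝒟.filter (fun D => n ≤ R D)).card : ℝ) ≤ C * 𝒟.card / 2 ^ (k * n)) := by
  obtain ⟨C, hC, hmain⟩ := bounded (s := fun D => (2 : ℝ) ^ R D) (t := fun D => (2 : ℝ) ^ R D)
    (fun D _ => ⟨by positivity, le_rfl⟩) h
  have e1 : ∀ 𝒟 : Finset F, ∑ D ∈ 𝒟, ((2 : ℝ) ^ R D) ^ k = ∑ D ∈ 𝒟, (2 : ℝ) ^ (k * R D) :=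
    fun 𝒟 => sum_congr rfl fun D _ => by rw [← pow_mul, mul_comm]
  have e2 : ∀ 𝒟 : Finset F, ∑ D ∈ 𝒟, (R D : ℝ) ^ k ≤ ∑ D ∈ 𝒟, ((2 : ℝ) ^ R D) ^ k :=
    fun 𝒟 => sum_le_sum fun D _ => pow_le_pow_left₀ (Nat.cast_nonneg _)
      (by exact_mod_cast (Nat.lt_two_pow_self (n := R D)).le) k
  have e3 : ∀ (𝒟 : Finset F) (n : ℕ), 𝒟.filter (fun D => n ≤ R D) =
      𝒟.filter (fun D => (2 : ℝ) ^ n ≤ (2 : ℝ) ^ R D) := fun 𝒟 n =>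
    filter_congr fun D _ => (pow_le_pow_iff_right₀ one_lt_two).symm
  refine ⟨C, hC, fun X hX 𝒟 => ⟨fun h𝒟 => ?_, fun h𝒟 => ?_⟩⟩
  · obtain ⟨h1, h2, h3⟩ := (hmain X hX 𝒟).1 h𝒟
    refine ⟨(e1 𝒟) ▸ h1, (e2 𝒟).trans h1, fun n => ?_, fun hne => ?_⟩
    · have h4 := h2 (2 ^ n) (by positivity)
      rw [← e3, ← pow_mul, mul_comm n k] at h4
      exact h4
    · have h4 := h3 hne
      have hc : (0 : ℝ) < 𝒟.card := by exact_mod_cast card_pos.2 hne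
      have h5 : ∏ D ∈ 𝒟, ((2 : ℝ) ^ R D) ^ k = (2 : ℝ) ^ ((k : ℝ) * ∑ D ∈ 𝒟, (R D : ℝ)) := by
        rw [prod_pow, prod_pow_eq_pow_sum, ← pow_mul, ← Real.rpow_natCast]
        congr 1
        push_cast
        ring
      rw [h5] at h4
      have h6 := Real.logb_le_logb_of_le one_lt_two (Real.rpow_pos_of_pos two_pos _) h4
      rw [Real.logb_rpow two_pos (by norm_num), Real.logb_pow] at h6
      exact h6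
  · obtain ⟨h1, h2⟩ := (hmain X hX 𝒟).2 h𝒟
    refine ⟨(e1 𝒟) ▸ h1, (e2 𝒟).trans h1, fun n => ?_⟩
    have h4 := h2 (2 ^ n) (by positivity)
    rw [← e3, ← pow_mul, mul_comm n k] at h4
    exact h4

end Pool.Agent.Q161.ESN
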