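import Pool.Agent.Q161.ESN.Stm1
import Pool.Agent.Q161.ESM.Stm2

/-!
# Project ESN (helper161), part 2: the variables attached to a Galois module over a number field `F`

`F ⊆ K` number fields, `K` Galois over `ℚ`; `V` a finite elementary abelian 2-group on which `Gal(K/F)` acts,
semisimple, without invariants.  The vectors of the sieve are the equivariant functions `z : V → 𝓞 K`
(`z (g t) = g (z t)`, `g ∈ Gal(K/F)`); `z t` lies in the field of the stabilizer of `t`, of degree `[F : ℚ] * #(orbit of t)`.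
Local conditions (`Loc`) at the primes `w` of `K` above `l` for which there is a Frobenius element `φ ∈ Gal(K/F)`
with `φ x ≡ x^l modulo w` (these are the `w` which lie above a prime of `F` of degree one; `l` is unramified).

THEOREM (`S_MN`).  If all `z t` are nice, `T` has at most `C X` elements with `|N_(F/ℚ)(∏ z t)| ≤ X`.

The definitions and statements are those of `Pool/Agent/Q161/ESM/Stm2.lean` with `Gal(K/F)` instead of `Gal(K/ℚ)`; so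
most proofs of project ESM can be adapted.  `S_KEY`, `S_LCU`, `S_LCT`, `S_LSF2` are proved there
(`Pool/Agent/Q161/ESM/All.lean`).  For the primes of `K` above those of `F` see `Pool/Agent/Q149/ESM/ZEXa.lean`
(`Blw em v w`, here `em = algebraMap F K`: `exists_blw`, `blw_unique`, `val_blw`, `trans_over`, `val_mv`, `fb_mv` ..).
Useful instances: `IsGalois F K` from `IsGalois.tower_top_of_isGalois ℚ F K`; `Finite (K ≃ₐ[F] K)`,
`Fintype (L →ₐ[F] K)`, `FiniteDimensional F L` are found.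
-/

set_option autoImplicit false

namespace Pool.Agent.Q161.ESN

open NumberField IsDedekindDomain Finset
open Pool.Agent.Q51.EL (pr Abv N1)
open Pool.Agent.Q161.EA (Un Om)

export Pool.Agent.Q161.ESM (ChP S_LSF2 GSt Semi IsSub NS S_KEY EqF S_LCU S_LCT)

/-! ## Part A: exceptional values of one variable -/

section L

variable {L : Type} [Field L] [NumberField L]

/-- `α ≠ 0`, all conjugates of `α` have about the same size, and the number of the prime ideals which divide `α` (with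
multiplicity) is at most a constant times `1 +` the number of the primes dividing the norm; this is weaker than
`EA.Nice` -/
structure Nice (K : ℝ) (α : 𝓞 L) : Prop where
  ne : α ≠ 0
  bal : ∀ σ : L →+* ℂ, ‖σ (α : L)‖ ^ Module.finrank ℚ L ≤ K * (Ideal.absNorm (Ideal.span {α}) : ℕ)
  om : (Om α : ℝ) ≤ K * (1 + ((Ideal.absNorm (Ideal.span {α})).primeFactors.card : ℕ))

end L

/-- JOB MOM2. High moments.
Proof (from `S_LSF2`).  Copy `Pool/Agent/Q195/EA/Fac.lean` and `Omg.lean` (statements `S_FAC`, `S_OMG` in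
`Pool/Agent/Q161/EA/Stm.lean`) for the new `Nice` (in `S_OMG`: `Om α ≤ K (1 + ω(N))`, `ω(N) ≤ C log Y / log log Y`), then
copy `Pool/Agent/Q237/ESM/Mom2.lean`. -/
def S_MOM2 : Prop := ∀ (L : Type) [Field L] [NumberField L] (B : ℕ) (P0 : Set ℕ) (ψ : ℕ → 𝓞 L → ℝ)
  (K a : ℝ), ChP L B P0 ψ → ∃ b Y0 : ℝ, 0 < b ∧ 16 ≤ Y0 ∧
  ∀ (Y R : ℝ) (A : Finset (𝓞 L)) (P : Finset ℕ), Y0 ≤ Y →
    Real.sqrt Y ≤ R → Real.log R ≤ Real.log Y ^ (1 + b) →
    (∀ α ∈ A, Nice K α ∧ ∀ σ : L →+* ℂ, ‖σ (α : L)‖ ≤ Y) →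
    Y ^ Module.finrank ℚ L ≤ A.card * Real.log Y ^ a →
    (∀ l ∈ P, l.Prime ∧ ¬ l ∣ B ∧ l ∈ P0 ∧ (l : ℝ) ≤ 2 * R ∧
      (A.card : ℝ) / 4 < |∑ α ∈ A, ψ l α|) →
    (P.card : ℝ) ≤ R ^ (9 / 10 : ℝ)

open Classical in
/-- JOB EXC2. The exceptional values.
Proof (from `S_MOM2`): copy `Pool/Agent/Q237/ESM/Exc2.lean`. -/
def S_EXC2 : Prop := ∀ (L : Type) [Field L] [NumberField L] (B : ℕ) (P0 : Set ℕ)
  (ψ : ℕ → 𝓞 L → ℝ) (K A c A0 : ℝ), B ≠ 0 → 0 < c →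
  (∀ Y : ℝ, 3 ≤ Y →
    |∑ l ∈ (pr Y).filter (fun l => l ∈ P0), (1 : ℝ) / l - c * Real.log (Real.log Y)| ≤ A) →
  ChP L B P0 ψ → ∃ b C Y0 : ℝ, 0 < b ∧ 16 ≤ Y0 ∧
  ∀ (Y : ℝ) (ε : ℕ → ℝ) (E : Finset (𝓞 L)), Y0 ≤ Y → (∀ l, ε l = 1 ∨ ε l = -1) →
    (∀ α ∈ E, Nice K α ∧ (∀ σ : L →+* ℂ, ‖σ (α : L)‖ ≤ Y) ∧
      ∃ Z : ℝ, Real.sqrt Y ≤ Z ∧ Real.log Z ≤ Real.log Y ^ (1 + b) ∧
        ∑ l ∈ (pr Z).filter (fun l : ℕ => Real.sqrt Y < (l : ℝ) ∧ ¬ l ∣ B ∧ l ∈ P0 ∧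
          ψ l α = - ε l), (1 : ℝ) / l < b * Real.log (Real.log Z / Real.log Y) - C) →
    (E.card : ℝ) * Real.log Y ^ A0 ≤ Y ^ Module.finrank ℚ L

/-! ## Part B: equivariant functions -/

section K

variable (F : Type) [Field F] [NumberField F] {K : Type} [Field K] [NumberField K] [Algebra F K]

variable (K) in
/-- the inclusion `𝓞 F → 𝓞 K` -/
noncomputable def iO : 𝓞 F →+* 𝓞 K := RingOfIntegers.mapRingHom (algebraMap F K)

variable {F} in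
/-- the prime `w` of `K` lies above the prime `v` of `F` -/
def Ov (w : HeightOneSpectrum (𝓞 K)) (v : HeightOneSpectrum (𝓞 F)) : Prop :=
  ∀ x : 𝓞 F, x ∈ v.asIdeal ↔ iO F K x ∈ w.asIdeal

variable {F} in
/-- `φ ∈ Gal(K/F)` satisfies `φ x ≡ x^q` modulo `w` -/
def Fb (w : HeightOneSpectrum (𝓞 K)) (q : ℕ) (φ : K ≃ₐ[F] K) : Prop :=
  ∀ x y : 𝓞 K, (y : K) = φ (x : K) → y - x ^ q ∈ w.asIdeal

variable {F} in
/-- `w' = g w` -/
def Mv (g : K ≃ₐ[F] K) (w w' : HeightOneSpectrum (𝓞 K)) : Prop :=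
  ∀ x y : 𝓞 K, (y : K) = g (x : K) → (x ∈ w.asIdeal ↔ y ∈ w'.asIdeal)

variable {V : Type} [AddCommGroup V] [DistribMulAction (K ≃ₐ[F] K) V]

/-- `z` is equivariant -/
def Eqv (z : V → 𝓞 K) : Prop := ∀ (g : K ≃ₐ[F] K) (t : V), ((z (g • t) : 𝓞 K) : K) = g (z t : K)

variable {F} in
/-- the local conditions at `w` -/
structure Loc (w : HeightOneSpectrum (𝓞 K)) (l : ℕ) (φ : K ≃ₐ[F] K) [Fintype V]
    (T : Set (V → 𝓞 K)) : Prop where
  one : ∀ z ∈ T, ∀ t, z t ∈ w.asIdeal → φ • t = t ∧ ∀ s, s ≠ t → z s ∉ w.asIdeal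
  two : ∀ z ∈ T, ∀ z' ∈ T, ∀ t, z t ∈ w.asIdeal → z' t ∈ w.asIdeal →
    ∀ χ : V →+ ZMod 2, (∀ s, χ (φ • s) = χ s) →
      (∏ s ∈ univ.filter (fun s => χ (s - t) ≠ 0), z s * z' s) ^ ((l - 1) / 2) - 1 ∈ w.asIdeal

/-- representatives `rp i` of the orbits of `V`, and the fields `Lf i` of their stabilizers in `Gal(K/F)` -/
structure Rp {ι : Type} (Lf : ι → Type) [∀ i, Field (Lf i)] (em : (i : ι) → Lf i →+* K) (rp : ι → V) :
    Prop where
  fix : ∀ (i : ι) (x : K), (∀ g : K ≃ₐ[F] K, g • rp i = rp i → g x = x) ↔ ∃ y : Lf i, em i y = x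
  orb : ∀ t : V, ∃! i : ι, ∃ g : K ≃ₐ[F] K, g • rp i = t

/-- `ev` is the isomorphism of `∏ 𝓞 (Lf i)` with the ring of the equivariant functions -/
structure IsEv {ι : Type} {Lf : ι → Type} [∀ i, Field (Lf i)] [∀ i, NumberField (Lf i)]
    (em : (i : ι) → Lf i →+* K) (rp : ι → V) (ev : ((i : ι) → 𝓞 (Lf i)) →+* (V → 𝓞 K)) : Prop where
  eqv : ∀ x, Eqv F (ev x)
  val : ∀ x i, ((ev x (rp i) : 𝓞 K) : K) = em i (x i : Lf i)
  sur : ∀ z : V → 𝓞 K, Eqv F z → ∃ x, ev x = z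

end K

/-- JOB RPX. Existence of representatives (adapt `Pool/Agent/Q299/ESM/Rpx.lean`). -/
def S_RPX : Prop := ∀ (F K : Type) [Field F] [NumberField F] [Field K] [NumberField K] [Algebra F K]
  [IsGalois ℚ K] (V : Type) [AddCommGroup V] [Finite V] [DistribMulAction (K ≃ₐ[F] K) V],
  ∃ (ι : Type) (_ : Fintype ι) (_ : DecidableEq ι) (Lf : ι → Type) (_ : ∀ i, Field (Lf i))
    (_ : ∀ i, NumberField (Lf i)) (em : (i : ι) → Lf i →+* K) (rp : ι → V), Rp F Lf em rp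

/-- JOB EVX. The isomorphism `ev` (adapt `Pool/Agent/Q224/ESM/EVX.lean`), and the degrees. -/
def S_EVX : Prop := ∀ (F K : Type) [Field F] [NumberField F] [Field K] [NumberField K] [Algebra F K]
  [IsGalois ℚ K] (V : Type) [AddCommGroup V] [Finite V] [DistribMulAction (K ≃ₐ[F] K) V] (ι : Type)
  (Lf : ι → Type) [∀ i, Field (Lf i)] [∀ i, NumberField (Lf i)] (em : (i : ι) → Lf i →+* K)
  (rp : ι → V), Rp F Lf em rp →
  (∃ ev : ((i : ι) → 𝓞 (Lf i)) →+* (V → 𝓞 K), IsEv F em rp ev) ∧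
  ∀ i, Module.finrank ℚ (Lf i) =
    Module.finrank ℚ F * {t : V | ∃ g : K ≃ₐ[F] K, g • rp i = t}.ncard

/-- the primes `v p`, `p ∈ P`, of `F` above `l`, of norm `q p`, primes `w p` of `K` above them and Frobenius elements
`φ p ∈ Gal(K/F)` -/
structure Frm {F K : Type} [Field F] [NumberField F] [Field K] [NumberField K] [Algebra F K] (l : ℕ)
    {P : Type} [Fintype P] (v : P → HeightOneSpectrum (𝓞 F)) (w : P → HeightOneSpectrum (𝓞 K))
    (q : P → ℕ) (φ : P → (K ≃ₐ[F] K)) : Prop where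
  inj : Function.Injective v
  abv : ∀ u : HeightOneSpectrum (𝓞 F), Abv u l ↔ ∃ p, v p = u
  ov : ∀ p, Ov (w p) (v p)
  nq : ∀ p, q p = Ideal.absNorm (v p).asIdeal
  dich : ∀ p, q p = l ∨ l ^ 2 ≤ q p
  prod : ∏ p, q p = l ^ Module.finrank ℚ F
  fb : ∀ p, Fb (w p) (q p) (φ p)
  ord : ∀ p, ∃ f : ℕ, 0 < f ∧ Nat.card (𝓞 K ⧸ (w p).asIdeal) = q p ^ f ∧ φ p ^ f = 1
  n1 : N1 F l = (univ.filter (fun p => q p = l)).card
  spl : N1 K l = Module.finrank ℚ K →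
    ∀ p, q p = l ∧ φ p = 1 ∧ Nat.card (𝓞 K ⧸ (w p).asIdeal) = l

/-- JOB FRX. Frobenius elements and unramified primes.
Proof.  As `S_FRX` of project ESM (proof in `Pool/Agent/Q224/ESM/FRX.lean`), for the extension `𝓞 K / 𝓞 F` instead of
`𝓞 K / ℤ`: every prime `w` of `K` above `l` lies above a prime `v` of `F` (`exists_blw`); a Frobenius element `φ ∈ Gal(K/F)` at
`w`, `φ x ≡ x^(N v)`, exists by Mathlib (`IsArithFrobAt`, `exists_arithFrob..`); the inertia group is trivial, as `l` is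
unramified in `K`, and `φ^f`, `#(𝓞 K/w) = (N v)^f`, is in the inertia group.  `P` = the type of the `v` with `Abv v l`
(`finite_abv` in `Pool/Agent/Q149/ESM/ZEXa.lean`), `∏ N v = l^[F : ℚ]` since `l` is unramified in `F` (as it is in `K`).  If
`N1 K l = [K : ℚ]` all residue fields of `K` at the primes above `l` are `F_l`; then `φ x ≡ x modulo w`, `φ = 1`. -/
def S_FRX : Prop := ∀ (F K : Type) [Field F] [NumberField F] [Field K] [NumberField K] [Algebra F K]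
  [IsGalois ℚ K], ∃ B : ℕ, B ≠ 0 ∧ ∀ l : ℕ, l.Prime → ¬ l ∣ B →
    Squarefree (Ideal.span {(l : 𝓞 K)}) ∧ (N1 K l ≠ Module.finrank ℚ K → N1 K l = 0) ∧
    (∃ (P : Type) (_ : Fintype P) (v : P → HeightOneSpectrum (𝓞 F))
      (w : P → HeightOneSpectrum (𝓞 K)) (q : P → ℕ) (φ : P → (K ≃ₐ[F] K)), Frm l v w q φ) ∧
    ∀ w : HeightOneSpectrum (𝓞 K), Abv w l → ∃ v : HeightOneSpectrum (𝓞 F), Ov w v ∧ Abv v l ∧
      ∃ φ : K ≃ₐ[F] K, Fb w (Ideal.absNorm v.asIdeal) φ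

/-- JOB RES. The classes modulo `l` (compare `S_RES` of project ESM, `Pool/Agent/Q299/ESM/{Res, Cnt}.lean`).
Proof (from `S_EVX`).  Let `c p s` be the class of `ev x s` modulo `w p`; `c p (φ p s) = c p s ^ q p` (`Fb`).  If all
`c p s` are zero then `g (ev x s) ∈ w p` for all `g ∈ Gal(K/F)`, so `ev x s` lies in all primes `g⁻¹ (w p)`, i.e. in all primes
above `l` (`Gal(K/F)` is transitive on the primes of `K` above `v p`, `trans_over`), so (unramified) it is `l` times an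
element of `𝓞 K`, and then `x i ∈ l 𝓞 (Lf i)`; so the map `∏ 𝓞 (Lf i)/l → {c}` is injective.  The first set has
`l^(∑ n i) = l^([F : ℚ] #V)` elements, the second one at most `∏_p (q p)^#V = l^([F : ℚ] #V)` (orbits of `φ p` on `V`, see
`Pool/Agent/Q299/ESM/Cnt.lean`).  So it is bijective. -/
def S_RES : Prop := ∀ (F K : Type) [Field F] [NumberField F] [Field K] [NumberField K] [Algebra F K]
  [IsGalois ℚ K] (V : Type) [AddCommGroup V] [Finite V] [DistribMulAction (K ≃ₐ[F] K) V] (ι : Type)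
  [Fintype ι] (Lf : ι → Type) [∀ i, Field (Lf i)] [∀ i, NumberField (Lf i)]
  (em : (i : ι) → Lf i →+* K) (rp : ι → V), Rp F Lf em rp →
  ∀ (ev : ((i : ι) → 𝓞 (Lf i)) →+* (V → 𝓞 K)), IsEv F em rp ev →
  ∀ (n : ι → ℕ) (bs : (i : ι) → Module.Basis (Fin (n i)) ℤ (𝓞 (Lf i))) (l : ℕ), l.Prime →
    Squarefree (Ideal.span {(l : 𝓞 K)}) → ∀ (P : Type) [Fintype P]
    (v : P → HeightOneSpectrum (𝓞 F)) (w : P → HeightOneSpectrum (𝓞 K)) (q : P → ℕ)
    (φ : P → (K ≃ₐ[F] K)), Frm l v w q φ →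
    ∃ R : Vm n l → (p : P) → V → 𝓞 K ⧸ (w p).asIdeal, Function.Injective R ∧
      (∀ c : (p : P) → V → 𝓞 K ⧸ (w p).asIdeal,
        (∃ y, R y = c) ↔ ∀ p s, c p (φ p • s) = c p s ^ q p) ∧
      (∀ x : Vc n, R (rd n l x) = fun p s =>
        Ideal.Quotient.mk (w p).asIdeal (ev (fun i => ∑ j, x i j • bs i j) s)) ∧
      ∀ (y y' : Vm n l) (i : ι), y i = y' i ↔
        ∀ (p : P) (g : K ≃ₐ[F] K), R y p (g • rp i) = R y' p (g • rp i)

/-- JOB N1F. The primes of degree one of `Lf i` above `l` (compare `S_N1F` of project ESM,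
`Pool/Agent/Q299/ESM/{Gal, N1f}.lean`).
Proof.  Such a prime lies above a prime `v p` of `F` of degree one (`F ⊆ em i (Lf i)`), `q p = l`; the primes of `Lf i` above
`v p` are the sets `{x | g (em x) ∈ w p}`, `g ∈ Gal(K/F)`; two of them, for `g`, `g'`, are equal iff
`g' rp i = (φ p)^m g rp i` for some `m`, and the norm is `l` iff `φ p (g rp i) = g rp i`.  Or by counting (Chinese
remainder theorem, `S_RES` for the block `i`): the number of the ring homomorphisms `𝓞 (Lf i) → F_l`. -/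
def S_N1F : Prop := ∀ (F K : Type) [Field F] [NumberField F] [Field K] [NumberField K] [Algebra F K]
  [IsGalois ℚ K] (V : Type) [AddCommGroup V] [Finite V] [DistribMulAction (K ≃ₐ[F] K) V] (ι : Type)
  (Lf : ι → Type) [∀ i, Field (Lf i)] [∀ i, NumberField (Lf i)] (em : (i : ι) → Lf i →+* K)
  (rp : ι → V), Rp F Lf em rp → ∀ (l : ℕ), l.Prime → Squarefree (Ideal.span {(l : 𝓞 K)}) →
  ∀ (P : Type) [Fintype P] (v : P → HeightOneSpectrum (𝓞 F)) (w : P → HeightOneSpectrum (𝓞 K))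
    (q : P → ℕ) (φ : P → (K ≃ₐ[F] K)), Frm l v w q φ → ∀ i : ι,
    N1 (Lf i) l = ∑ p ∈ univ.filter (fun p => q p = l),
      {s : V | (∃ g : K ≃ₐ[F] K, g • rp i = s) ∧ φ p • s = s}.ncard

/-! ## Part C: the system -/

open Classical in
/-- abstract data at a prime `l`: `P` the primes of `F` above `l`, `q p` their norms, `k p` the residue field of a prime
of `K` above `p`, `φ p` a Frobenius element, `orb s` the orbit of `s ∈ V`, `R` the reduction, `Om` the allowed classes,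
`d = [F : ℚ]` (compare `Ab` in `Pool/Agent/Q38/ESM/Cnt.lean`) -/
structure AbF {P : Type} [Fintype P] {k : P → Type} [∀ p, Field (k p)] {V G ι : Type}
    [AddCommGroup V] [Fintype V] [Group G] [DistribMulAction G V] (n : ι → ℕ)
    (l d : ℕ) (q : P → ℕ) (φ : P → G) (orb : V → ι) (R : Vm n l → (p : P) → V → k p)
    (Om : Set (Vm n l)) : Prop where
  lp : l.Prime
  l2 : l ≠ 2
  d0 : 0 < d
  inj : Function.Injective R
  eqf : ∀ y p s, R y p (φ p • s) = R y p s ^ q p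
  cmp : ∀ (y z : Vm n l) (s : V), y (orb s) = z (orb s) → ∀ p, R y p s = R z p s
  nn : ∀ i, d * (univ.filter (fun s => orb s = i)).card = n i
  sur : ∀ i, ∃ s, orb s = i
  orbG : ∀ s s' : V, orb s = orb s' ↔ ∃ g : G, g • s = s'
  prod : ∏ p, q p = l ^ d
  dich : ∀ p, q p = l ∨ l ^ 2 ≤ q p
  fin : ∀ p, ∃ f : ℕ, 0 < f ∧ Nat.card (k p) = q p ^ f ∧ φ p ^ f = 1
  om : ∀ y ∈ Om, ∀ p, q p = l → ∀ t, R y p t = 0 → φ p • t = t ∧ ∀ s, s ≠ t → R y p s ≠ 0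
  xi : ∀ p, q p = l → ∀ t, ∃ ξ : (V →+ ZMod 2) → k p, ∀ y ∈ Om, R y p t = 0 →
    ∀ χ : V →+ ZMod 2, (∀ s, χ (φ p • s) = χ s) →
      (∏ s ∈ univ.filter (fun s => χ (s - t) ≠ 0), R y p s) ^ ((l - 1) / 2) = ξ χ

open Classical in
/-- JOB CNF. The number of the allowed classes (compare `Pool/Agent/Q38/ESM/Cnt.lean`, where `P` has one element).
Proof (from `S_KEY`, `S_LCU`, `S_LCT`).  `V_S = {s | orb s ∈ S}`, stable under `G`, `∑_{i ∈ S} n i = d #V_S`.  By injectivity of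
`R` the number of the `y ∈ Om` which agree with `z` outside `S` is at most `∏_p #A_p`, where `A_p` is the set of the functions
`c : V → k p`, `c (φ p s) = c(s)^(q p)`, equal to `R z p` outside `V_S`, and, if `q p = l`, which have no zeros or exactly
one, `t ∈ V_S`, `φ p t = t`, and then given characters `ξ`.  If `q p = l`: `#A_p ≤ l^#V_S (1 - N_p/l + #V²/l²) +
∑_{t ∈ V_S, φ p t = t} l^(#V_S - 1)/NS` (`S_LCU`, `S_LCT`), `N_p` = the number of the `t ∈ V_S` with `φ p t = t`, `NS ≥ N_p`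
(`S_KEY`).  If `q p ≥ l²` then `#A_p ≤ (q p)^#V_S` (orbits of `φ p`; `Pool/Agent/Q299/ESM/Cnt.lean`).  The product of the
`q p` is `l^d`, so the quotient is at most `∏_{q p = l} (1 - (N_p - 1)/l + #V²/l²)`, at most `d` factors;
`∏ (1 - x_p/l + ..) ≤ 1 - ∑ x_p/l + A/l²`.  Second part: all `q p = l`, `φ p = 1`, `NS ≥ #V_S + 1` at every `p`
(`S_KEY`; there is at least one `p` as `d > 0`).  Third part: the same for `p ≠ p0` as in the first part, and at `p0` the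
type `0` does not occur: at most `#V_S - 1` types, each `≤ l^(#V_S - 1)/#V_S`.  `κ = 1/(#V + 1)`. -/
def S_CNF : Prop := ∀ (V G : Type) [AddCommGroup V] [Fintype V] [Group G] [DistribMulAction G V],
  (∀ v : V, v + v = 0) → Semi G V → (∀ v : V, (∀ g : G, g • v = v) → v = 0) → ∀ d : ℕ,
  ∃ A κ : ℝ, 0 < κ ∧ ∀ (P ι : Type) [Fintype P] [Fintype ι] (k : P → Type) [∀ p, Field (k p)]
    (n : ι → ℕ) (l : ℕ) (q : P → ℕ) (φ : P → G) (orb : V → ι) (R : Vm n l → (p : P) → V → k p)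
    (Om : Set (Vm n l)), AbF n l d q φ orb R Om →
  ∀ (S : Finset ι) (z : Vm n l), S.Nonempty → (∀ s, orb s ∉ S → ∀ p, R z p s ≠ 0) →
    ((({y | y ∈ Om ∧ ∀ i, i ∉ S → y i = z i}.ncard : ℕ) : ℝ) / (l : ℝ) ^ (∑ i ∈ S, n i) ≤
      1 - (∑ p ∈ univ.filter (fun p => q p = l),
        (((univ.filter (fun s : V => orb s ∈ S ∧ φ p • s = s)).card : ℝ) - 1)) / l +
          A / (l : ℝ) ^ 2) ∧
    ((∀ p, q p = l ∧ φ p = 1) → ¬ IsSub {s : V | orb s ∈ S} →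
      (({y | y ∈ Om ∧ ∀ i, i ∉ S → y i = z i}.ncard : ℕ) : ℝ) / (l : ℝ) ^ (∑ i ∈ S, n i) ≤
      1 - ((∑ p ∈ univ.filter (fun p => q p = l),
        (((univ.filter (fun s : V => orb s ∈ S ∧ φ p • s = s)).card : ℝ) - 1)) + κ) / l +
          A / (l : ℝ) ^ 2) ∧
    ((∀ p, q p = l ∧ φ p = 1) → IsSub {s : V | orb s ∈ S} → ∀ p0 : P,
      (∀ y ∈ Om, (∀ i, i ∉ S → y i = z i) → R y p0 0 ≠ 0) →
      (({y | y ∈ Om ∧ ∀ i, i ∉ S → y i = z i}.ncard : ℕ) : ℝ) / (l : ℝ) ^ (∑ i ∈ S, n i) ≤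
      1 - ((∑ p ∈ univ.filter (fun p => q p = l),
        (((univ.filter (fun s : V => orb s ∈ S ∧ φ p • s = s)).card : ℝ) - 1)) + κ) / l +
          A / (l : ℝ) ^ 2)

/-- JOB SYS. The data of the sieve, and their properties (adapt `Pool/Agent/Q38/ESM/{Loc, Loc2, Loc3, Glob, Sys0, Sys1,
Sys}.lean`; statement and proof: `S_SYS` in `Pool/Agent/Q161/ESM/Stm2.lean`).
Proof (from `S_CNF`, `S_EVX`, `S_FRX`, `S_RES`, `S_N1F`, `EA.S_MER`, `S_EXC2`).  `B'` = a multiple of `2 B` and of the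
number of `S_FRX`.  For each prime `l ∤ B'` choose `P, v, w, q, φ` (`S_FRX`) and `R` (`S_RES`).  `Om l` = the set of the `y` such
that for every `p` with `q p = l` the function `c = R y p` has no zeros, or `c t = 0` for exactly one `t`, `φ p t = t`, and
there is a `z' ∈ T` with `z' t ∈ w p` and `(∏_{χ(s-t) ≠ 0} c s * z' s)^((l-1)/2) = 1` for all invariant `χ`.  `U l i` = the `y i`
such that the `R y p`, all `p`, have no zeros on the orbit of `rp i`.  `Nm i x` = the absolute norm of `∑ x_j bs i j`, `Nc i` = the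
coordinates of the nice elements, `N1 i l = N1 (Lf i) l`, `N0 l = N1 F l`, `sp` = the primes with `N1 K l = [K : ℚ]`;
`Bad S`: `V_S` is a subgroup; `Inc S l x`: for a fixed `p0 ∈ P_l`, all `y ∈ Om l` which agree with `rd n l x` outside `S`
satisfy `R y p0 0 ≠ 0`.  `Ok`: `dens, good, bad` by `S_CNF` (`AbF`: `d = [F : ℚ]`, `n i = d #orbit` by `S_EVX`; `xi`: as
`LD.toAb` in `Pool/Agent/Q38/ESM/Loc2.lean`) and `S_N1F`, `Frm.n1`; `mer`, `mer0`: `EA.S_MER` for `Lf i` and `F`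
(proved: `Pool.Agent.Q182.EA.mer`); `mes`: `EA.S_MER` for `K`, `c = 1/[K : ℚ]`.  `Ex`: the characters
`ψ_l(α) = (∏_{s ∈ orbit i0, χ s ≠ 0} ev(α) s)^((l-1)/2)` modulo `w p0` (`Loc3.lean`). -/
def S_SYS : Prop := ∀ (F K : Type) [Field F] [NumberField F] [Field K] [NumberField K] [Algebra F K]
  [IsGalois ℚ K] (V : Type) [AddCommGroup V]
  [Fintype V] [DistribMulAction (K ≃ₐ[F] K) V], (∀ v : V, v + v = 0) → Semi (K ≃ₐ[F] K) V →
  (∀ v : V, (∀ g : K ≃ₐ[F] K, g • v = v) → v = 0) →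
  ∀ (ι : Type) [Fintype ι] [DecidableEq ι] (Lf : ι → Type) [∀ i, Field (Lf i)]
  [∀ i, NumberField (Lf i)] (em : (i : ι) → Lf i →+* K) (rp : ι → V), Rp F Lf em rp →
  ∀ (ev : ((i : ι) → 𝓞 (Lf i)) →+* (V → 𝓞 K)), IsEv F em rp ev →
  ∀ (B : ℕ) (K0 : ℝ) (T : Set (V → 𝓞 K)), B ≠ 0 →
  (∀ z ∈ T, Eqv F z ∧ ∀ i, ∃ α : 𝓞 (Lf i), em i (α : Lf i) = (z (rp i) : K) ∧ Nice K0 α) →
  (∀ l : ℕ, l.Prime → ¬ l ∣ B → ∀ (w : HeightOneSpectrum (𝓞 K)) (φ : K ≃ₐ[F] K), Abv w l →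
    Fb w l φ → Loc w l φ T) →
  ∃ (n : ι → ℕ) (bs : (i : ι) → Module.Basis (Fin (n i)) ℤ (𝓞 (Lf i))) (s : Sy n) (A c κ C1 : ℝ),
    Ok s A c κ ∧ Ex s ∧ 0 < C1 ∧
    (∀ (i : ι) (x : Fin (n i) → ℤ) (Y : ℝ),
      (∀ σ : Lf i →+* ℂ, ‖σ ((∑ j, x j • bs i j : 𝓞 (Lf i)) : Lf i)‖ ≤ Y) → ∀ j, |(x j : ℝ)| ≤ C1 * Y) ∧
    (∀ x : Vc n, ev (fun i => ∑ j, x i j • bs i j) ∈ T → (∀ l : ℕ, l.Prime → ¬ l ∣ s.B →
      rd n l x ∈ s.Om l) ∧ ∀ i, x i ∈ s.Nc i)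

/-- JOB MN. The number of the elements of `T` (adapt `Pool/Agent/Q241/ESM/Mn.lean`).
Proof (from `S_SYS`, `S_AN`, `S_EVX`).  As `S_MN` of project ESM; new: `|N_(F/ℚ)(N)| = ∏_i |N(α_i)|`, `α_i` the value at `rp i`:
for `t` in the orbit of `rp i` `|N_(K/ℚ)(z t)| = |N(α_i)|^[K : Lf i]`, and `[K : Lf i] #(orbit) = [K : F]` (`S_EVX`), so
`|N_(F/ℚ)(N)|^[K : F] = |N_(K/ℚ)(∏_t z t)| = (∏_i |N(α_i)|)^[K : F]`. -/
def S_MN : Prop := ∀ (F K : Type) [Field F] [NumberField F] [Field K] [NumberField K] [Algebra F K]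
  [IsGalois ℚ K] (V : Type) [AddCommGroup V]
  [Fintype V] [DistribMulAction (K ≃ₐ[F] K) V], (∀ v : V, v + v = 0) → Semi (K ≃ₐ[F] K) V →
  (∀ v : V, (∀ g : K ≃ₐ[F] K, g • v = v) → v = 0) →
  ∀ (ι : Type) [Fintype ι] [DecidableEq ι] (Lf : ι → Type) [∀ i, Field (Lf i)]
  [∀ i, NumberField (Lf i)] (em : (i : ι) → Lf i →+* K) (rp : ι → V), Rp F Lf em rp →
  ∀ (B : ℕ) (K0 : ℝ) (T : Set (V → 𝓞 K)), B ≠ 0 →
  (∀ z ∈ T, Eqv F z ∧ ∀ i, ∃ α : 𝓞 (Lf i), em i (α : Lf i) = (z (rp i) : K) ∧ Nice K0 α) →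
  (∀ l : ℕ, l.Prime → ¬ l ∣ B → ∀ (w : HeightOneSpectrum (𝓞 K)) (φ : K ≃ₐ[F] K), Abv w l →
    Fb w l φ → Loc w l φ T) →
  ∃ C : ℝ, 0 < C ∧ ∀ X : ℝ, 1 ≤ X →
    {z ∈ T | ∃ N : 𝓞 F, ∏ t, z t = iO F K N ∧
      ((Ideal.absNorm (Ideal.span {N}) : ℕ) : ℝ) ≤ X}.Finite ∧
    (({z ∈ T | ∃ N : 𝓞 F, ∏ t, z t = iO F K N ∧
      ((Ideal.absNorm (Ideal.span {N}) : ℕ) : ℝ) ≤ X}.ncard : ℕ) : ℝ) ≤ C * X

end Pool.Agent.Q161.ESN
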