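import Pool.Agent.Q161.ESN.QuadB

/-! # The family of all quadratic extensions of a number field -/

set_option autoImplicit false

namespace Pool.Agent.Q161.ESN.Quad

open NumberField IsDedekindDomain Finset Polynomial

open scoped Classical

/-- `K 0, .., K (n - 1)` are quadratic extensions of `F`, no two of which are isomorphic over `F`, and the absolute values
of their discriminants are at most `X` -/
structure Quadratic (F : Type) [Field F] (X : ℝ) {n : ℕ} (K : Fin n → Type) [∀ i, Field (K i)]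
    [∀ i, NumberField (K i)] [∀ i, Algebra F (K i)] : Prop where
  deg : ∀ i, Module.finrank F (K i) = 2
  disc : ∀ i, |(discr (K i) : ℝ)| ≤ X
  dist : ∀ i j, i ≠ j → IsEmpty (K i ≃ₐ[F] K j)

/-- `K 0, .., K (n - 1)` are all quadratic extensions of `F` (each isomorphism class over `F` once) for which the absolute
value of the discriminant is at most `X` -/
structure AllQuadratic (F : Type) [Field F] (X : ℝ) {n : ℕ} (K : Fin n → Type) [∀ i, Field (K i)]
    [∀ i, NumberField (K i)] [∀ i, Algebra F (K i)] : Prop extends Quadratic F X K where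
  all : ∀ (L : Type) [Field L] [NumberField L] [Algebra F L], Module.finrank F L = 2 →
    |(discr L : ℝ)| ≤ X → ∃ i, Nonempty (L ≃ₐ[F] K i)

/-- the sum of the ranks over `K` of the elliptic curves `y² = x³ + a_i x + b_i` -/
noncomputable def rankOver {F : Type} [Field F] {r : ℕ} (a b : Fin r → F) (K : Type) [Field K]
    [Algebra F K] : ℕ :=
  ∑ i, Module.finrank ℤ (⟨0, 0, 0, algebraMap F K (a i), algebraMap F K (b i)⟩ :
    WeierstrassCurve K).toAffine.Point

theorem abs_natAbs (z : ℤ) : |(z : ℝ)| = (z.natAbs : ℝ) := by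
  rw [← Int.cast_abs, Int.abs_eq_natAbs]
  simp

section fam

variable {F : Type} [Field F] [NumberField F]

/-- the classes of the discriminants -/
theorem Quadratic.twists {X : ℝ} {n : ℕ} {K : Fin n → Type} [∀ i, Field (K i)]
    [∀ i, NumberField (K i)] [∀ i, Algebra F (K i)] (h : Quadratic F X K) {D : Fin n → F}
    {s : (i : Fin n) → K i} (hs : ∀ i, Root (D i) (s i)) :
    Function.Injective D ∧ Twists X (univ.image D) := by
  have hdist : ∀ i j, i ≠ j → ¬ IsSquare (D i * D j) := by
    intro i j hij hsq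
    obtain ⟨e⟩ := (hs i).equiv (hs j) hsq
    exact (h.dist i j hij).false e
  refine ⟨fun i j hij => ?_, fun E hE => ?_, fun E hE => ?_, fun E hE E' hE' hne => ?_⟩
  · by_contra hne
    exact hdist i j hne ⟨D i, by rw [hij]⟩
  · obtain ⟨i, -, rfl⟩ := mem_image.1 hE
    exact (hs i).D0
  · obtain ⟨i, -, rfl⟩ := mem_image.1 hE
    have h1 := oddNorm_le (hs i)
    have h2 := h.disc i
    rw [abs_natAbs] at h2
    exact le_trans (by exact_mod_cast h1) h2
  · obtain ⟨i, -, rfl⟩ := mem_image.1 hE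
    obtain ⟨j, -, rfl⟩ := mem_image.1 hE'
    exact hdist i j fun hij => hne (by rw [hij])

/-- the quadratic extension of the nonsquare `D` -/
abbrev QF (D : F) : Type := (X ^ 2 - C D : F[X]).SplittingField

instance (D : F) : NumberField (QF D) := NumberField.of_module_finite F (QF D)

/-- existence of complete families -/
theorem exists_allQuadratic {X : ℝ} {𝒟 : Finset F} (h𝒟 : AllTwists X 𝒟) :
    ∃ (n : ℕ) (K : Fin n → Type) (_ : ∀ i, Field (K i)) (_ : ∀ i, NumberField (K i))
      (_ : ∀ i, Algebra F (K i)), AllQuadratic F X K := by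
  set S := 𝒟.filter (fun D => ¬ IsSquare D ∧ |(discr (QF D) : ℝ)| ≤ X) with hS
  let e : Fin S.card ≃ S := S.equivFin.symm
  have hmem : ∀ i, (e i : F) ∈ 𝒟 ∧ ¬ IsSquare (e i : F) ∧ |(discr (QF (e i : F)) : ℝ)| ≤ X :=
    fun i => mem_filter.1 (e i).2
  choose s hs using fun i => root_splittingField (hmem i).2.1
  refine ⟨S.card, fun i => QF (e i : F), fun i => inferInstance, fun i => inferInstance,
    fun i => inferInstance, ⟨⟨fun i => (hs i).finrank, fun i => (hmem i).2.2, fun i j hij => ?_⟩,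
      fun L _ _ _ hL hX => ?_⟩⟩
  · refine ⟨fun f => ?_⟩
    have h1 := (hs i).sq_of_equiv (hs j) f.symm
    refine h𝒟.dist _ (hmem i).1 _ (hmem j).1 (fun hE => hij ?_) h1
    exact e.injective (Subtype.ext hE)
  · obtain ⟨D, t, ht⟩ := exists_root hL
    have h1 : (oddNorm D : ℝ) ≤ X := by
      have h2 := oddNorm_le ht
      rw [abs_natAbs] at hX
      exact le_trans (by exact_mod_cast h2) hX
    obtain ⟨D', hD', hsq⟩ := h𝒟.all D ht.D0 h1
    have hns : ¬ IsSquare D' := by
      rintro ⟨q, rfl⟩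
      obtain ⟨p, hp⟩ := hsq
      have hq : q ≠ 0 := by
        rintro rfl
        exact h𝒟.ne _ hD' (by simp)
      refine ht.nsq ⟨p / q, ?_⟩
      field_simp
      linear_combination hp
    obtain ⟨s', hs'⟩ := root_splittingField hns
    obtain ⟨f⟩ := ht.equiv hs' hsq
    have hd : discr (QF D') = discr L := (discr_eq_discr_of_ringEquiv _ f.toRingEquiv).symm
    have hS' : D' ∈ S := mem_filter.2 ⟨hD', hns, by rw [hd]; exact hX⟩
    have he : ((e (e.symm ⟨D', hS'⟩) : S) : F) = D' := by rw [Equiv.apply_symm_apply]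
    exact ⟨e.symm ⟨D', hS'⟩, ht.equiv (hs _) (by rw [he]; exact hsq)⟩

/-- a complete family has many members -/
theorem AllQuadratic.card_ge {X C : ℝ} (hC : 0 < C)
    (hdisc : ∀ (K : Type) [Field K] [NumberField K] [Algebra F K] (D : F) (s : K), Root D s →
      ((discr K).natAbs : ℝ) ≤ C * (oddNorm D : ℝ)) {n : ℕ} {K : Fin n → Type} [∀ i, Field (K i)]
    [∀ i, NumberField (K i)] [∀ i, Algebra F (K i)] (h : AllQuadratic F X K) {𝒟 : Finset F}
    (h𝒟 : Twists (X / C) 𝒟) : 𝒟.card ≤ n + 1 := by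
  have h1 : (𝒟.filter (fun D => IsSquare D)).card ≤ 1 := by
    rw [card_le_one]
    intro D hD D' hD'
    by_contra hne
    rw [mem_filter] at hD hD'
    exact h𝒟.dist D hD.1 D' hD'.1 hne (hD.2.mul hD'.2)
  have h2 : (𝒟.filter (fun D => ¬ IsSquare D)).card ≤ n := by
    have h3 : ∀ D : F, ∃ i : Option (Fin n), D ∈ 𝒟.filter (fun D => ¬ IsSquare D) →
        ∃ j, i = some j ∧ Nonempty (QF D ≃ₐ[F] K j) := by
      intro D
      by_cases hD : D ∈ 𝒟.filter (fun D => ¬ IsSquare D)
      · rw [mem_filter] at hD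
        obtain ⟨s, hs⟩ := root_splittingField hD.2
        have h4 : |(discr (QF D) : ℝ)| ≤ X := by
          rw [abs_natAbs]
          refine (hdisc (QF D) D s hs).trans ?_
          have h5 := h𝒟.norm D hD.1
          rw [le_div_iff₀ hC] at h5
          linarith
        obtain ⟨j, hj⟩ := h.all (QF D) hs.finrank h4
        exact ⟨some j, fun _ => ⟨j, rfl, hj⟩⟩
      · exact ⟨none, fun hD' => absurd hD' hD⟩
    choose f hf using h3
    have h4 : (𝒟.filter (fun D => ¬ IsSquare D)).card ≤
        ((univ : Finset (Fin n)).image some).card := by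
      refine card_le_card_of_injOn f (fun D hD => ?_) fun D hD D' hD' hff => ?_
      · obtain ⟨j, hj, -⟩ := hf D hD
        exact mem_coe.2 (mem_image.2 ⟨j, mem_univ _, hj.symm⟩)
      · obtain ⟨j, hj, ⟨g⟩⟩ := hf D hD
        obtain ⟨j', hj', ⟨g'⟩⟩ := hf D' hD'
        have hjj : j = j' := by
          rw [hj, hj'] at hff
          exact Option.some_injective _ hff
        subst hjj
        have hD1 := mem_filter.1 (mem_coe.1 hD)
        have hD2 := mem_filter.1 (mem_coe.1 hD')
        obtain ⟨s, hs⟩ := root_splittingField hD1.2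
        obtain ⟨s', hs'⟩ := root_splittingField hD2.2
        by_contra hne
        exact h𝒟.dist D hD1.1 D' hD2.1 hne (hs.sq_of_equiv hs' (g'.trans g.symm))
    rw [card_image_of_injective _ (Option.some_injective _), card_univ, Fintype.card_fin] at h4
    exact h4
  have h3 := card_filter_add_card_filter_not (s := 𝒟) (fun D => IsSquare D)
  omega

end fam

/-- the number of the quadratic extensions -/
theorem number (F : Type) [Field F] [NumberField F] : ∃ C : ℝ, 0 < C ∧ ∀ X : ℝ, C ≤ X →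
    (∃ (n : ℕ) (K : Fin n → Type) (_ : ∀ i, Field (K i)) (_ : ∀ i, NumberField (K i))
      (_ : ∀ i, Algebra F (K i)), AllQuadratic F X K) ∧
    ∀ (n : ℕ) (K : Fin n → Type) [∀ i, Field (K i)] [∀ i, NumberField (K i)]
      [∀ i, Algebra F (K i)], AllQuadratic F X K → X / C ≤ n ∧ (n : ℝ) ≤ C * X := by
  obtain ⟨C1, hC1, h1⟩ := t_family F
  obtain ⟨C2, hC2, h2⟩ := discr_le F
  refine ⟨max (max 1 C1) (max C2 (2 * C1 * C2)), by positivity, fun X hX => ?_⟩
  have hX1 : 1 ≤ X := (le_max_left _ _).trans ((le_max_left _ _).trans hX)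
  have hX2 : C2 ≤ X := (le_max_left _ _).trans ((le_max_right _ _).trans hX)
  have hX3 : 2 * C1 * C2 ≤ X := (le_max_right _ _).trans ((le_max_right _ _).trans hX)
  refine ⟨?_, fun n K _ _ _ hK => ⟨?_, ?_⟩⟩
  · obtain ⟨𝒟, h𝒟⟩ := (h1 X hX1).1
    exact exists_allQuadratic h𝒟
  · have hX4 : 1 ≤ X / C2 := by rwa [le_div_iff₀ hC2, one_mul]
    obtain ⟨𝒟, h𝒟⟩ := (h1 _ hX4).1
    have h3 := ((h1 _ hX4).2 𝒟 h𝒟).1
    have h4 : (𝒟.card : ℝ) ≤ n + 1 := by exact_mod_cast hK.card_ge hC2 h2 h𝒟.toTwists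
    have h5 : X / max (max 1 C1) (max C2 (2 * C1 * C2)) ≤ X / (2 * C1 * C2) :=
      div_le_div_of_nonneg_left (by linarith) (by positivity)
        ((le_max_right _ _).trans (le_max_right _ _))
    refine h5.trans ?_
    have h6 : X / C2 / C1 = 2 * (X / (2 * C1 * C2)) := by
      field_simp
    have h7 : 1 ≤ X / (2 * C1 * C2) := by
      rwa [le_div_iff₀ (by positivity), one_mul]
    linarith
  · choose D s hs using fun i => exists_root (hK.deg i)
    obtain ⟨hinj, htw⟩ := hK.toQuadratic.twists hs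
    obtain ⟨𝒟, h𝒟⟩ := (h1 X hX1).1
    have h3 := card_le h𝒟 htw
    rw [card_image_of_injective _ hinj, card_univ, Fintype.card_fin] at h3
    have h4 := ((h1 X hX1).2 𝒟 h𝒟).2
    have h5 : (n : ℝ) ≤ 𝒟.card := by exact_mod_cast h3
    refine h5.trans (h4.trans ?_)
    have : C1 ≤ max (max 1 C1) (max C2 (2 * C1 * C2)) :=
      (le_max_right _ _).trans (le_max_left _ _)
    gcongr

/-- the rank over a quadratic extension -/
theorem rankOver_le {F : Type} [Field F] [NumberField F] {K : Type} [Field K] [NumberField K]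
    [Algebra F K] {r : ℕ} {a b : Fin r → F} (h : ∀ i, ∀ x : F, x ^ 3 + a i * x + b i ≠ 0) {D : F}
    {s : K} (hs : Root D s) :
    rankOver a b K ≤ ∑ i, rank (a i) (b i) 1 + ∑ i, rank (a i) (b i) D := by
  rw [← sum_add_distrib]
  refine sum_le_sum fun i _ => ?_
  haveI : Algebra.IsQuadraticExtension F K := ⟨hs.finrank⟩
  have hG : IsGalois F K := inferInstance
  have h5 : 4 * a i ^ 3 + 27 * b i ^ 2 ≠ 0 :=
    Pool.Agent.Q193.ESG.disc_ne (Pool.Agent.Q161.ESG.irrF (h i))
  have h6 := Pool.Agent.Q161.ESG.t_mqr F K hG hs.invol 2 ![1, D] (fun j => by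
    fin_cases j
    · exact one_ne_zero
    · exact hs.D0) (fun t c _ htc => by
      rcases hs.cases htc with ⟨q, hq⟩ | ⟨q, hq⟩
      · exact ⟨0, q, by simpa using hq⟩
      · exact ⟨1, q, by simpa using hq⟩) (a i) (b i) h5
  rw [Fin.sum_univ_two] at h6
  exact h6

/-- the moments -/
theorem main (F : Type) [Field F] [NumberField F] (r : ℕ) (a b : Fin r → F)
    (h : ∀ i, ∀ x : F, x ^ 3 + a i * x + b i ≠ 0) (k : ℕ) :
    ∃ C : ℝ, 0 < C ∧ ∀ (X : ℝ) (n : ℕ) (K : Fin n → Type) [∀ i, Field (K i)]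
      [∀ i, NumberField (K i)] [∀ i, Algebra F (K i)], 1 ≤ X →
      (Quadratic F X K → (∑ i, (2 : ℝ) ^ (k * rankOver a b (K i)) ≤ C * X) ∧
        (∑ i, (rankOver a b (K i) : ℝ) ^ k ≤ C * X) ∧
        (∀ m : ℕ, ((univ.filter (fun i => m ≤ rankOver a b (K i))).card : ℝ) ≤ C * X / 2 ^ (k * m)) ∧
        (0 < n → k * ∑ i, (rankOver a b (K i) : ℝ) ≤ n * Real.logb 2 (C * X / n))) ∧
      (AllQuadratic F X K → (∑ i, (2 : ℝ) ^ (k * rankOver a b (K i)) ≤ C * n) ∧
        (∑ i, (rankOver a b (K i) : ℝ) ^ k ≤ C * n) ∧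
        ∀ m : ℕ, ((univ.filter (fun i => m ≤ rankOver a b (K i))).card : ℝ) ≤ C * n / 2 ^ (k * m)) := by
  set R : F → ℕ := fun D => ∑ i, rank (a i) (b i) 1 + ∑ i, rank (a i) (b i) D with hR
  obtain ⟨C, hC, hmain⟩ := rankBounded R k (by
    obtain ⟨C, hC, hmain⟩ := moments t_goal (Fin r) F a b h k
    refine ⟨((2 : ℝ) ^ ∑ i, rank (a i) (b i) 1) ^ k * C, by positivity, fun X hX 𝒟 h𝒟 => ?_⟩
    have h1 := hmain X hX 𝒟 h𝒟
    rw [mul_assoc]
    refine le_trans ?_ (mul_le_mul_of_nonneg_left h1 (by positivity))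
    rw [mul_sum]
    refine sum_le_sum fun D hD => ?_
    rw [hR, pow_add, mul_pow]
    refine mul_le_mul_of_nonneg_left (pow_le_pow_left₀ (by positivity) ?_ k) (by positivity)
    rw [← prod_pow_eq_pow_sum]
    exact prod_le_prod (fun _ _ => by positivity) fun i _ => by
      exact_mod_cast rank_le t_fin (h i) (h𝒟.ne D hD))
  obtain ⟨C0, hC0, hnum⟩ := number F
  refine ⟨C * max 1 C0, by positivity, fun X n K _ _ _ hX => ?_⟩
  have key : Quadratic F X K → (∑ i, (2 : ℝ) ^ (k * rankOver a b (K i)) ≤ C * X) ∧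
        (∑ i, (rankOver a b (K i) : ℝ) ^ k ≤ C * X) ∧
        (∀ m : ℕ, ((univ.filter (fun i => m ≤ rankOver a b (K i))).card : ℝ) ≤ C * X / 2 ^ (k * m)) ∧
        (0 < n → k * ∑ i, (rankOver a b (K i) : ℝ) ≤ n * Real.logb 2 (C * X / n)) := by
    intro hK
    choose D s hs using fun i => exists_root (hK.deg i)
    obtain ⟨hinj, htw⟩ := hK.twists hs
    have hle : ∀ i, rankOver a b (K i) ≤ R (D i) := fun i => rankOver_le h (hs i)
    obtain ⟨m1, m2, m3, m4⟩ := (hmain X hX (univ.image D)).1 htw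
    have hsum : ∀ f : F → ℝ, ∑ E ∈ univ.image D, f E = ∑ i, f (D i) := fun f =>
      sum_image fun i _ j _ hij => hinj hij
    have hcard : (univ.image D).card = n := by
      rw [card_image_of_injective _ hinj, card_univ, Fintype.card_fin]
    refine ⟨?_, ?_, fun m => ?_, fun hn => ?_⟩
    · rw [hsum] at m1
      refine (sum_le_sum fun i _ => ?_).trans m1
      exact pow_le_pow_right₀ one_le_two (Nat.mul_le_mul_left k (hle i))
    · rw [hsum] at m2
      refine (sum_le_sum fun i _ => ?_).trans m2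
      exact pow_le_pow_left₀ (Nat.cast_nonneg _) (by exact_mod_cast hle i) k
    · refine le_trans ?_ (m3 m)
      have h1 : (univ.filter (fun i => m ≤ rankOver a b (K i))).card ≤
          ((univ.image D).filter (fun E => m ≤ R E)).card := by
        rw [← card_image_of_injective (univ.filter (fun i => m ≤ rankOver a b (K i))) hinj]
        refine card_le_card fun E hE => ?_
        obtain ⟨i, hi, rfl⟩ := mem_image.1 hE
        exact mem_filter.2 ⟨mem_image_of_mem _ (mem_univ _), (mem_filter.1 hi).2.trans (hle i)⟩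
      exact_mod_cast h1
    · have hne : (univ.image D).Nonempty := card_pos.1 (by rw [hcard]; exact hn)
      have h1 := m4 hne
      rw [hsum, hcard] at h1
      refine le_trans ?_ h1
      refine mul_le_mul_of_nonneg_left (sum_le_sum fun i _ => ?_) (Nat.cast_nonneg _)
      exact_mod_cast hle i
  have hCC : C ≤ C * max 1 C0 := le_mul_of_one_le_right hC.le (le_max_left _ _)
  have hCX : C * X ≤ C * max 1 C0 * X := mul_le_mul_of_nonneg_right hCC (by linarith)
  refine ⟨fun hK => ?_, fun hK => ?_⟩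
  · obtain ⟨m1, m2, m3, m4⟩ := key hK
    refine ⟨m1.trans hCX, m2.trans hCX, fun m => (m3 m).trans (by gcongr), fun hn => (m4 hn).trans ?_⟩
    have hn' : (0 : ℝ) < n := by exact_mod_cast hn
    have h1 : 0 < C * X / n := div_pos (mul_pos hC (by linarith)) hn'
    refine mul_le_mul_of_nonneg_left (Real.logb_le_logb_of_le one_lt_two h1 (by gcongr)) hn'.le
  · obtain ⟨m1, m2, m3, -⟩ := key hK.toQuadratic
    rcases Nat.eq_zero_or_pos n with hn | hn
    · subst hn
      refine ⟨?_, ?_, fun m => ?_⟩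
      · simp
      · simp
      · simp
    · have hn' : (1 : ℝ) ≤ n := by exact_mod_cast hn
      have hXn : C * X ≤ C * max 1 C0 * n := by
        rw [mul_assoc]
        refine mul_le_mul_of_nonneg_left ?_ hC.le
        rcases le_total C0 X with h1 | h1
        · have h2 := ((hnum X h1).2 n K hK).1
          rw [div_le_iff₀ hC0] at h2
          calc X ≤ n * C0 := h2
            _ = C0 * n := mul_comm _ _
            _ ≤ max 1 C0 * n := mul_le_mul_of_nonneg_right (le_max_right _ _) (by linarith)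
        · calc X ≤ C0 := h1
            _ ≤ max 1 C0 := le_max_right _ _
            _ ≤ max 1 C0 * n := le_mul_of_one_le_right (by positivity) hn'
      exact ⟨m1.trans hXn, m2.trans hXn, fun m => (m3 m).trans (by gcongr)⟩

end Pool.Agent.Q161.ESN.Quad
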