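import Pool.Agent.Q161.ESN.Stm2
import Pool.Agent.Q161.ESM.Stm4

/-!
# Project ESN (helper161), part 3: the descent for twists by elements of a number field `F`

`C` is a finite set (the curves `y² = f_c(x)` over `F`, `f_c` of odd degree, irreducible), `L c = F(θ_c)`; `K ⊇ F` a number field,
Galois over `ℚ`, containing all conjugates of the `L c` over `F`.  `V` = the functions `e : (c, ι) ↦ F_2` on the embeddings
`ι : L c → K` over `F`, with sum zero for every `c`; it is the product of the modules `J_c[2]`, on which `Gal(K/F)` acts.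

The elements of the 2-Selmer group over `F` of the twist by `D ∈ 𝓞 F` are represented by `δ ∈ L c`, modulo squares, which
satisfy the local conditions `Gd1`: for a prime `w` of `K` with `D ∈ w` there is a `t ∈ V` (the type) such that `ι δ` has odd
valuation iff `t ι = 1`, and if `w` lies above a prime of `F` of degree one, with Frobenius element `φ ∈ Gal(K/F)`, then
`ι δ * D^(t ι) * uu ι` is a local square (for products over `φ`-stable sets of embeddings).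
As in project ESG (`Pool/Agent/Q161/ESM/Stm4.lean`; there `Gal(K/ℚ)`, `D ∈ ℤ`) there are integral `z t`, `t ∈ V`, with
`δ_c ~ ∏_{t ι = 1} z t` (at the embedding `ι`) and `D ~ ∏_t z t`, and `S_MN` gives `S_CNTG`.

Everything is parallel to `Pool/Agent/Q161/ESM/Stm4.lean` (proofs: helpers 14, 96, 124, 149, 151, 182, 237, 241 ..,
`Pool/Agent/Q161/ESG/AllG.lean`); `S_ADD`, `S_SUF` are proved in `Pool/Agent/Q161/ESM/All.lean`, `QR` is the same.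
-/

set_option autoImplicit false

namespace Pool.Agent.Q161.ESN

open Polynomial NumberField IsDedekindDomain Finset
open Pool.Agent.Q51.EL (Abv Par)

export Pool.Agent.Q161.ESM (QR S_ADD S_SUF)

/-! ## Part A: general number fields -/

/-- JOB GEN. Generators of products of primes (adapt `Pool/Agent/Q14/ESM/GEN.lean`, statement `S_GEN` in
`Pool/Agent/Q161/ESM/Stm3.lean`; here the primes `v ∈ S` are arbitrary).
Proof.  As there; `Nice`: the number of the prime factors of `β` is `#S` + the number of those of `𝔠_i`, and `#S ≤ n` times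
the number of the rational primes below the `v ∈ S`, which divide the norm (at most `n = [L : ℚ]` primes above each). -/
def S_GEN : Prop := ∀ (L : Type) [Field L] [NumberField L], ∃ (B0 : ℕ) (C K0 : ℝ), B0 ≠ 0 ∧ 0 < C ∧
  ∀ S : Finset (HeightOneSpectrum (𝓞 L)), (∀ v ∈ S, (B0 : 𝓞 L) ∉ v.asIdeal) →
    ∃ β : 𝓞 L, β ≠ 0 ∧ (∀ v : HeightOneSpectrum (𝓞 L), (B0 : 𝓞 L) ∉ v.asIdeal →
        (v ∈ S → v.valuation L (β : L) = WithZero.exp (-1 : ℤ)) ∧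
        (v ∉ S → v.valuation L (β : L) = 1)) ∧
      ((Ideal.absNorm (Ideal.span {β}) : ℕ) : ℝ) ≤ C * ∏ v ∈ S, ((Ideal.absNorm v.asIdeal : ℕ) : ℝ) ∧
      Nice K0 β

/-- JOB ZEX. Existence of `z` for given types `τ w` (adapt `Pool/Agent/Q149/ESM/{ZEXa, ZEX}.lean`; statement and proof
`S_ZEX` in `Pool/Agent/Q161/ESM/Stm3.lean`).
Proof (from `S_GEN`, `S_EVX`, `S_FRX`).  `S_i` = the set of the primes `u` of `Lf i` which lie below (via `em i`) a prime `w` of `K`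
above some `v ∈ R` with `τ w = rp i`.  Let `φ` be a Frobenius element at `w` over `F` (`S_FRX`); `φ w = w`, so `φ τ w = τ w`, `φ` fixes
`rp i`, so it is trivial on `Lf i`, `x ≡ x^(N v) mod u` for all `x ∈ 𝓞 (Lf i)`, and `N u = N v`.  If `u, u' ∈ S_i` lie above the
same `v`, `w' = g w` for some `g ∈ Gal(K/F)`, `rp i = τ w' = g rp i`, so `g` is trivial on `Lf i`, `u' = u`.  The rest as there:
`z = ev (β_i)`, `∏_t z t` is fixed by `Gal(K/F)`, so in `𝓞 F`, of norm `∏_i |N β_i|` (see `S_MN`), and for `v ∈ R` all `τ w`, `w` above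
`v`, lie in one orbit, so exactly one of the `S_i` has an element above `v`. -/
def S_ZEX : Prop := ∀ (F K : Type) [Field F] [NumberField F] [Field K] [NumberField K] [Algebra F K]
  [IsGalois ℚ K] (V : Type) [AddCommGroup V] [Fintype V] [DistribMulAction (K ≃ₐ[F] K) V] (ι : Type)
  [Fintype ι] (Lf : ι → Type) [∀ i, Field (Lf i)] [∀ i, NumberField (Lf i)]
  (em : (i : ι) → Lf i →+* K) (rp : ι → V), Rp F Lf em rp → ∃ (B1 : ℕ) (C K0 : ℝ), B1 ≠ 0 ∧ 0 < C ∧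
  ∀ (R : Finset (HeightOneSpectrum (𝓞 F))) (τ : HeightOneSpectrum (𝓞 K) → V),
    (∀ v ∈ R, (B1 : 𝓞 F) ∉ v.asIdeal) →
    (∀ v ∈ R, ∀ (w w' : HeightOneSpectrum (𝓞 K)) (g : K ≃ₐ[F] K), Ov w v → Mv g w w' →
      τ w' = g • τ w) →
    ∃ z : V → 𝓞 K, Eqv F z ∧ (∀ t, z t ≠ 0) ∧
      (∀ i, ∃ β : 𝓞 (Lf i), em i (β : Lf i) = (z (rp i) : K) ∧ Nice K0 β) ∧
      (∀ l : ℕ, l.Prime → ¬ l ∣ B1 → ∀ w : HeightOneSpectrum (𝓞 K), Abv w l → ∀ t : V,
        ((∃ v ∈ R, Ov w v) ∧ τ w = t → w.valuation K (z t : K) = WithZero.exp (-1 : ℤ)) ∧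
        (¬ ((∃ v ∈ R, Ov w v) ∧ τ w = t) → w.valuation K (z t : K) = 1)) ∧
      ∃ N : 𝓞 F, ∏ t, z t = iO F K N ∧
        ((Ideal.absNorm (Ideal.span {N}) : ℕ) : ℝ) ≤ C * ∏ v ∈ R, ((Ideal.absNorm v.asIdeal : ℕ) : ℝ)

/-! ## Part B: the interface -/

section one

variable {F K L : Type} [Field F] [NumberField F] [Field K] [NumberField K] [Algebra F K] [Field L]
  [NumberField L] [Algebra F L]

/-- the embedding `g ∘ ι` -/
def cp (g : K ≃ₐ[F] K) (ι : L →ₐ[F] K) : L →ₐ[F] K := (g : K →ₐ[F] K).comp ι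

open Classical in
/-- the units of the points of order two -/
noncomputable def uu (th : 𝓞 L) (e : (L →ₐ[F] K) → ZMod 2) (ι : L →ₐ[F] K) : K :=
  if e ι = 0 then ∏ ι' ∈ univ.filter (fun ι' : L →ₐ[F] K => e ι' = 1), (ι (th : L) - ι' (th : L))
  else - ∏ ι' ∈ univ.filter (fun ι' : L →ₐ[F] K => e ι' = 0), (ι (th : L) - ι' (th : L))

open Classical in
variable (F K) in
/-- the local conditions for `δ` at the primes not dividing `B` -/
structure Gd1 (th : 𝓞 L) (B : ℕ) (D : 𝓞 F) (δ : L) : Prop where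
  even : ∀ l : ℕ, l.Prime → ¬ l ∣ B → ∀ w : HeightOneSpectrum (𝓞 K), Abv w l → iO F K D ∉ w.asIdeal →
    ∀ ι : L →ₐ[F] K, Par w (ι δ) 0
  odd : ∀ l : ℕ, l.Prime → ¬ l ∣ B → ∀ w : HeightOneSpectrum (𝓞 K), Abv w l → iO F K D ∈ w.asIdeal →
    ∃ e : (L →ₐ[F] K) → ZMod 2, ∑ ι, e ι = 0 ∧
      (∀ ι, (e ι = 0 → Par w (ι δ) 0) ∧ (e ι = 1 → Par w (ι δ) 1)) ∧
      ∀ φ : K ≃ₐ[F] K, Fb w l φ → (∀ ι, e (cp φ ι) = e ι) ∧
        ∀ A : Finset (L →ₐ[F] K), (∀ ι, ι ∈ A ↔ cp φ ι ∈ A) →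
          QR w l (∏ ι ∈ A, ι δ * (if e ι = 1 then algebraMap F K (D : F) else 1) * uu th e ι)

variable (F K) in
/-- the degree is odd, `θ` generates `L` -/
structure Dat (th : 𝓞 L) : Prop where
  odd : Odd (Fintype.card (L →ₐ[F] K))
  sep : ∀ ι ι' : L →ₐ[F] K, ι (th : L) = ι' (th : L) → ι = ι'

/-- `D ≠ 0`, and the valuations at the primes not dividing `B` are zero or one -/
def SqF (B : ℕ) (D : 𝓞 F) : Prop := D ≠ 0 ∧ ∀ l : ℕ, l.Prime → ¬ l ∣ B →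
  ∀ v : HeightOneSpectrum (𝓞 F), Abv v l →
    v.valuation F (D : F) = 1 ∨ v.valuation F (D : F) = WithZero.exp (-1 : ℤ)

end one

section C

variable {C F K : Type} [Field F] [NumberField F] [Field K] [NumberField K] [Algebra F K]
  {L : C → Type} [∀ c, Field (L c)] [∀ c, NumberField (L c)] [∀ c, Algebra F (L c)]
  {V : Type} [AddCommGroup V] [DistribMulAction (K ≃ₐ[F] K) V]

/-- `V` with the coordinates `cd t c ι` -/
structure VB (cd : V →+ ((c : C) → (L c →ₐ[F] K) → ZMod 2)) : Prop where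
  inj : Function.Injective cd
  im : ∀ e : (c : C) → (L c →ₐ[F] K) → ZMod 2, (∃ t : V, cd t = e) ↔ ∀ c : C, ∑ ι, e c ι = 0
  eqv : ∀ (g : K ≃ₐ[F] K) (t : V) (c : C) (ι : L c →ₐ[F] K), cd (g • t) c (cp g ι) = cd t c ι

/-- the prime `w` has the type `t` -/
def TpG (cd : V →+ ((c : C) → (L c →ₐ[F] K) → ZMod 2)) (α : (c : C) → 𝓞 (L c))
    (w : HeightOneSpectrum (𝓞 K)) (t : V) : Prop :=
  ∀ (c : C) (ι : L c →ₐ[F] K), (cd t c ι = 0 → w.valuation K (ι (α c : L c)) = 1) ∧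
    (cd t c ι = 1 → w.valuation K (ι (α c : L c)) = WithZero.exp (-1 : ℤ))

/-- `z` belongs to the Selmer elements `α c` of the twists by `D`: divisibility -/
structure RG0 (th : (c : C) → 𝓞 (L c)) (cd : V →+ ((c : C) → (L c →ₐ[F] K) → ZMod 2)) (B : ℕ)
    (D : 𝓞 F) (α : (c : C) → 𝓞 (L c)) (z : V → 𝓞 K) : Prop where
  sq : SqF B D
  gd : ∀ c, Gd1 F K (th c) B D (α c : L c)
  a0 : ∀ c, α c ≠ 0
  nrm : ∀ l : ℕ, l.Prime → ¬ l ∣ B → ∀ w : HeightOneSpectrum (𝓞 K), Abv w l →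
    ∀ (c : C) (ι : L c →ₐ[F] K),
    w.valuation K (ι (α c : L c)) = 1 ∨ w.valuation K (ι (α c : L c)) = WithZero.exp (-1 : ℤ)
  eqv : Eqv F z
  ne : ∀ t, z t ≠ 0
  typ : ∀ l : ℕ, l.Prime → ¬ l ∣ B → ∀ w : HeightOneSpectrum (𝓞 K), Abv w l → ∀ t : V,
    (iO F K D ∈ w.asIdeal ∧ TpG cd α w t → w.valuation K (z t : K) = WithZero.exp (-1 : ℤ)) ∧
    (¬ (iO F K D ∈ w.asIdeal ∧ TpG cd α w t) → w.valuation K (z t : K) = 1)

open Classical in
/-- `z` belongs to the Selmer elements `α c` of the twists by `D`; `μ, a` are from finite sets -/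
structure RG [Fintype V] (th : (c : C) → 𝓞 (L c)) (cd : V →+ ((c : C) → (L c →ₐ[F] K) → ZMod 2))
    (B : ℕ) (μ : F) (a : (c : C) → L c) (D : 𝓞 F) (α : (c : C) → 𝓞 (L c)) (z : V → 𝓞 K) : Prop where
  rel : RG0 th cd B D α z
  qa : ∀ c, ∃ q : L c, q ≠ 0 ∧ ∀ ι : L c →ₐ[F] K, ι (α c : L c) *
    (∏ t ∈ univ.filter (fun t => cd t c ι = 1), (z t : K)) = ι (a c) * ι q ^ 2
  qd : ∃ s : F, s ≠ 0 ∧ algebraMap F K (D : F) * (∏ t, (z t : K)) = algebraMap F K (μ * s ^ 2)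

end C

/-- JOB VG. The module `V` (adapt the proof of `S_VG` of `Pool/Agent/Q161/ESM/Stm4.lean`): `V` = the additive group of the
functions with sum zero for each `c`, `(g e) c (g ∘ ι) = e c ι`. -/
def S_VG : Prop := ∀ (C F K : Type) [Fintype C] [Field F] [NumberField F] [Field K] [NumberField K]
  [Algebra F K] (L : C → Type) [∀ c, Field (L c)] [∀ c, NumberField (L c)] [∀ c, Algebra F (L c)],
  ∃ (V : Type) (_ : AddCommGroup V) (_ : Fintype V) (_ : DistribMulAction (K ≃ₐ[F] K) V)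
    (cd : V →+ ((c : C) → (L c →ₐ[F] K) → ZMod 2)), VB cd

/-- JOB NIG. `V` is killed by 2 and has no invariants (`Gal(K/F)` is transitive on the embeddings of `L c` over `F`, as `K/F`
is normal). -/
def S_NIG : Prop := ∀ (C F K : Type) [Fintype C] [Field F] [NumberField F] [Field K] [NumberField K]
  [Algebra F K] [IsGalois ℚ K] (L : C → Type) [∀ c, Field (L c)] [∀ c, NumberField (L c)]
  [∀ c, Algebra F (L c)] (th : (c : C) → 𝓞 (L c)), (∀ c, Dat F K (th c)) →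
  ∀ (V : Type) [AddCommGroup V] [DistribMulAction (K ≃ₐ[F] K) V]
  (cd : V →+ ((c : C) → (L c →ₐ[F] K) → ZMod 2)), VB cd →
  (∀ v : V, v + v = 0) ∧ ∀ v : V, (∀ g : K ≃ₐ[F] K, g • v = v) → v = 0

/-- JOB SEM3. Semisimplicity for cubic extensions (`S_SUMG` of `Pool/Agent/Q161/ESG/Stm6.lean` is proved:
`Pool.Agent.Q166.ESG.sumg`; compare `simple3` in `Pool/Agent/Q121/ESG/SEMF.lean`).
Proof.  `V` is the sum of the `V_c` = the elements with coordinates zero outside `c`; `V_c` has three nonzero elements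
(three embeddings), which are permuted transitively by `Gal(K/F)`, so it has no nontrivial stable subgroups. -/
def S_SEM3 : Prop := ∀ (C F K : Type) [Fintype C] [Field F] [NumberField F] [Field K] [NumberField K]
  [Algebra F K] [IsGalois ℚ K] (L : C → Type) [∀ c, Field (L c)] [∀ c, NumberField (L c)]
  [∀ c, Algebra F (L c)], (∀ c, Fintype.card (L c →ₐ[F] K) = 3) →
  ∀ (V : Type) [AddCommGroup V] [Finite V] [DistribMulAction (K ≃ₐ[F] K) V]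
  (cd : V →+ ((c : C) → (L c →ₐ[F] K) → ZMod 2)), VB cd → Semi (K ≃ₐ[F] K) V

/-- JOB NRM. Normalisation of `δ` (adapt the proof of `S_NRM` of `Pool/Agent/Q161/ESM/Stm4.lean`). -/
def S_NRM : Prop := ∀ (F K L : Type) [Field F] [NumberField F] [Field K] [NumberField K] [Algebra F K]
  [IsGalois ℚ K] [Field L] [NumberField L] [Algebra F L] (th : 𝓞 L), ∃ B1 : ℕ, B1 ≠ 0 ∧
  ∀ B : ℕ, B1 ∣ B → ∀ (D : 𝓞 F) (δ : L), δ ≠ 0 → Gd1 F K th B D δ →
  ∃ (α : 𝓞 L) (η : L), α ≠ 0 ∧ η ≠ 0 ∧ (α : L) = δ * η ^ 2 ∧ Gd1 F K th B D (α : L) ∧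
    ∀ l : ℕ, l.Prime → ¬ l ∣ B → ∀ w : HeightOneSpectrum (𝓞 K), Abv w l → ∀ ι : L →ₐ[F] K,
      w.valuation K (ι (α : L)) = 1 ∨ w.valuation K (ι (α : L)) = WithZero.exp (-1 : ℤ)

open Classical in
/-- JOB QAG. The class of `α_c` (adapt the proof of `S_QAG` of `Pool/Agent/Q161/ESM/Stm4.lean`). -/
def S_QAG : Prop := ∀ (C F K : Type) [Fintype C] [Field F] [NumberField F] [Field K] [NumberField K]
  [Algebra F K] [IsGalois ℚ K] (L : C → Type) [∀ c, Field (L c)] [∀ c, NumberField (L c)]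
  [∀ c, Algebra F (L c)] (th : (c : C) → 𝓞 (L c)), (∀ c, Dat F K (th c)) →
  ∀ (V : Type) [AddCommGroup V] [Fintype V] [DistribMulAction (K ≃ₐ[F] K) V]
  (cd : V →+ ((c : C) → (L c →ₐ[F] K) → ZMod 2)), VB cd →
  ∃ B1 : ℕ, B1 ≠ 0 ∧ ∀ B : ℕ, B1 ∣ B → B ≠ 0 → ∃ Q : (c : C) → Finset (L c),
    ∀ (D : 𝓞 F) (α : (c : C) → 𝓞 (L c)) (z : V → 𝓞 K), RG0 th cd B D α z → ∀ c, ∃ a ∈ Q c,
      ∃ q : L c, q ≠ 0 ∧ ∀ ι : L c →ₐ[F] K, ι (α c : L c) *
        (∏ t ∈ univ.filter (fun t => cd t c ι = 1), (z t : K)) = ι a * ι q ^ 2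

/-- JOB QDG. `D` and the product of the `z t`.
Proof (from `S_SUF`).  `M = D ∏_t z t` is invariant under `Gal(K/F)`, so in `F`, nonzero.  Let `v` be a prime of `F` above `l ∤ B`
(unramified), `w` above `v`; the valuation of `M` at `v` is the one at `w` (`val_blw`).  If `D ∉ w` it is `1`; if `D ∈ w`
exactly one `z t` has valuation `exp(-1)` (the type of `w`, which exists by `Gd1.odd`, `nrm`, `VB.im`), and `D` has valuation
`exp(-1)` (`SqF`).  So `Par v M 0`, and `S_SUF` for `F`. -/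
def S_QDG : Prop := ∀ (C F K : Type) [Fintype C] [Field F] [NumberField F] [Field K] [NumberField K]
  [Algebra F K] [IsGalois ℚ K] (L : C → Type) [∀ c, Field (L c)] [∀ c, NumberField (L c)]
  [∀ c, Algebra F (L c)] (th : (c : C) → 𝓞 (L c)), (∀ c, Dat F K (th c)) →
  ∀ (V : Type) [AddCommGroup V] [Fintype V] [DistribMulAction (K ≃ₐ[F] K) V]
  (cd : V →+ ((c : C) → (L c →ₐ[F] K) → ZMod 2)), VB cd →
  ∃ B1 : ℕ, B1 ≠ 0 ∧ ∀ B : ℕ, B1 ∣ B → B ≠ 0 → ∃ Q : Finset F,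
    ∀ (D : 𝓞 F) (α : (c : C) → 𝓞 (L c)) (z : V → 𝓞 K), RG0 th cd B D α z →
      ∃ μ ∈ Q, ∃ s : F, s ≠ 0 ∧
        algebraMap F K (D : F) * (∏ t, (z t : K)) = algebraMap F K (μ * s ^ 2)

/-- JOB RELG. From the `δ_c` to `z` (adapt the proof of `S_RELG` of `Pool/Agent/Q161/ESM/Stm4.lean`).
Proof (from `S_NRM`, `S_ZEX`, `S_QAG`, `S_QDG`, `S_FRX`).  `R` = the set of the primes `v` of `F` with `D ∈ v`, `v ∤ B`;
`∏_{v ∈ R} N v ≤ |N D|`. -/
def S_RELG : Prop := ∀ (C F K : Type) [Fintype C] [Field F] [NumberField F] [Field K] [NumberField K]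
  [Algebra F K] [IsGalois ℚ K] (L : C → Type) [∀ c, Field (L c)] [∀ c, NumberField (L c)]
  [∀ c, Algebra F (L c)] (th : (c : C) → 𝓞 (L c)), (∀ c, Dat F K (th c)) →
  ∀ (V : Type) [AddCommGroup V] [Fintype V] [DistribMulAction (K ≃ₐ[F] K) V]
  (cd : V →+ ((c : C) → (L c →ₐ[F] K) → ZMod 2)), VB cd →
  ∀ (ι : Type) [Fintype ι] (Lf : ι → Type)
  [∀ i, Field (Lf i)] [∀ i, NumberField (Lf i)] (em : (i : ι) → Lf i →+* K) (rp : ι → V),
  Rp F Lf em rp → ∀ B1 : ℕ, B1 ≠ 0 →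
  ∃ (B : ℕ) (C0 K0 : ℝ) (Qm : Finset F) (Qa : Finset ((c : C) → L c)),
    B1 ∣ B ∧ B ≠ 0 ∧ 0 < C0 ∧ ∀ (D : 𝓞 F) (δ : (c : C) → L c), SqF B1 D → (∀ c, δ c ≠ 0) →
    (∀ c, Gd1 F K (th c) B1 D (δ c)) →
    ∃ μ ∈ Qm, ∃ a ∈ Qa, ∃ (α : (c : C) → 𝓞 (L c)) (z : V → 𝓞 K),
      RG th cd B μ a D α z ∧
      (∀ i, ∃ β : 𝓞 (Lf i), em i (β : Lf i) = (z (rp i) : K) ∧ Nice K0 β) ∧
      (∃ N : 𝓞 F, ∏ t, z t = iO F K N ∧ ((Ideal.absNorm (Ideal.span {N}) : ℕ) : ℝ) ≤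
        C0 * ((Ideal.absNorm (Ideal.span {D}) : ℕ) : ℝ)) ∧
      ∀ c, ∃ η : L c, η ≠ 0 ∧ (α c : L c) = δ c * η ^ 2

open Classical in
/-- JOB DUALG. The linear forms on `V` (adapt the proof of `S_DUALG` of `Pool/Agent/Q161/ESM/Stm4.lean`; one block). -/
def S_DUALG : Prop := ∀ (C F K : Type) [Fintype C] [Field F] [NumberField F] [Field K] [NumberField K]
  [Algebra F K] (L : C → Type) [∀ c, Field (L c)] [∀ c, NumberField (L c)]
  [∀ c, Algebra F (L c)] (th : (c : C) → 𝓞 (L c)), (∀ c, Dat F K (th c)) →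
  ∀ (V : Type) [AddCommGroup V] [DistribMulAction (K ≃ₐ[F] K) V]
  (cd : V →+ ((c : C) → (L c →ₐ[F] K) → ZMod 2)), VB cd →
  ∀ (φ : K ≃ₐ[F] K) (χ : V →+ ZMod 2), (∀ s, χ (φ • s) = χ s) →
    ∃ A : (c : C) → Finset (L c →ₐ[F] K), (∀ s, χ s = ∑ c, ∑ ι ∈ A c, cd s c ι) ∧
      ∀ (c : C) (ι : L c →ₐ[F] K), ι ∈ A c ↔ cp φ ι ∈ A c

/-- JOB LJG. The local condition for one curve (adapt the proof of `S_LJG` of `Pool/Agent/Q161/ESM/Stm4.lean`; `μ`, `D`, `s`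
are now in `F`, so fixed by `φ ∈ Gal(K/F)`). -/
def S_LJG : Prop := ∀ (C F K : Type) [Fintype C] [Field F] [NumberField F] [Field K] [NumberField K]
  [Algebra F K] [IsGalois ℚ K] (L : C → Type) [∀ c, Field (L c)] [∀ c, NumberField (L c)]
  [∀ c, Algebra F (L c)] (th : (c : C) → 𝓞 (L c)), (∀ c, Dat F K (th c)) →
  ∀ (V : Type) [AddCommGroup V] [Fintype V] [DistribMulAction (K ≃ₐ[F] K) V]
  (cd : V →+ ((c : C) → (L c →ₐ[F] K) → ZMod 2)), VB cd →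
  ∃ B1 : ℕ, B1 ≠ 0 ∧ ∀ B : ℕ, B1 ∣ B → B ≠ 0 →
    ∀ (μ : F) (a : (c : C) → L c) (D D' : 𝓞 F) (α α' : (c : C) → 𝓞 (L c)) (z z' : V → 𝓞 K),
    RG th cd B μ a D α z → RG th cd B μ a D' α' z' →
    ∀ l : ℕ, l.Prime → ¬ l ∣ B → ∀ (w : HeightOneSpectrum (𝓞 K)) (φ : K ≃ₐ[F] K), Abv w l →
      Fb w l φ → ∀ t : V, z t ∈ w.asIdeal → z' t ∈ w.asIdeal →
      ∀ (c : C) (A : Finset (L c →ₐ[F] K)), (∀ ι, ι ∈ A ↔ cp φ ι ∈ A) →
      (∏ s ∈ univ.filter (fun s => ∑ ι ∈ A, cd (s - t) c ι ≠ 0), z s * z' s) ^ ((l - 1) / 2) - 1 ∈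
        w.asIdeal

/-- JOB LOCG. The local conditions (adapt the proof of `S_LOCG` of `Pool/Agent/Q161/ESM/Stm4.lean`; from `S_DUALG`, `S_ADD`,
`S_LJG`). -/
def S_LOCG : Prop := ∀ (C F K : Type) [Fintype C] [Field F] [NumberField F] [Field K] [NumberField K]
  [Algebra F K] [IsGalois ℚ K] (L : C → Type) [∀ c, Field (L c)] [∀ c, NumberField (L c)]
  [∀ c, Algebra F (L c)] (th : (c : C) → 𝓞 (L c)), (∀ c, Dat F K (th c)) →
  ∀ (V : Type) [AddCommGroup V] [Fintype V] [DistribMulAction (K ≃ₐ[F] K) V]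
  (cd : V →+ ((c : C) → (L c →ₐ[F] K) → ZMod 2)), VB cd →
  ∃ B1 : ℕ, B1 ≠ 0 ∧ ∀ B : ℕ, B1 ∣ B → B ≠ 0 → ∀ (μ : F) (a : (c : C) → L c),
    ∀ l : ℕ, l.Prime → ¬ l ∣ B → ∀ (w : HeightOneSpectrum (𝓞 K)) (φ : K ≃ₐ[F] K), Abv w l →
      Fb w l φ → Loc w l φ {z : V → 𝓞 K | ∃ (D : 𝓞 F) (α : (c : C) → 𝓞 (L c)),
        RG th cd B μ a D α z}

open Classical in
/-- JOB CNTG. The count (adapt the proof of `S_CNTG` of `Pool/Agent/Q161/ESM/Stm4.lean`).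
Proof (from `S_NIG`, `S_RPX`, `S_RELG`, `S_LOCG`, `S_MN`).  The map `(D, (δ_c)) ↦ (μ, a, z)` is injective: `D ∏_t z t = μ s²`
determines the class of `D` modulo squares of `F`, so `D ∈ 𝒟`; for given `D` the classes of the `δ_c` modulo squares are
determined as there. -/
def S_CNTG : Prop := ∀ (C F K : Type) [Fintype C] [Field F] [NumberField F] [Field K] [NumberField K]
  [Algebra F K] [IsGalois ℚ K] (L : C → Type) [∀ c, Field (L c)] [∀ c, NumberField (L c)]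
  [∀ c, Algebra F (L c)] (th : (c : C) → 𝓞 (L c)), (∀ c, Dat F K (th c)) →
  ∀ (V : Type) [AddCommGroup V] [Fintype V] [DistribMulAction (K ≃ₐ[F] K) V]
  (cd : V →+ ((c : C) → (L c →ₐ[F] K) → ZMod 2)), VB cd → Semi (K ≃ₐ[F] K) V →
  ∀ B : ℕ, B ≠ 0 → ∃ C0 : ℝ, 0 < C0 ∧ ∀ Fs : (c : C) → 𝓞 F → Finset (L c),
    (∀ (c : C) (D : 𝓞 F), ∀ δ ∈ Fs c D, δ ≠ 0 ∧ Gd1 F K (th c) B D δ) →
    (∀ (c : C) (D : 𝓞 F), ∀ δ ∈ Fs c D, ∀ δ' ∈ Fs c D, δ ≠ δ' → ¬ IsSquare (δ * δ')) →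
    ∀ (X : ℝ) (𝒟 : Finset (𝓞 F)), 1 ≤ X →
      (∀ D ∈ 𝒟, SqF B D ∧ ((Ideal.absNorm (Ideal.span {D}) : ℕ) : ℝ) ≤ X) →
      (∀ D ∈ 𝒟, ∀ D' ∈ 𝒟, D ≠ D' → ¬ IsSquare ((D : F) * (D' : F))) →
      ((∑ D ∈ 𝒟, ∏ c, (Fs c D).card : ℕ) : ℝ) ≤ C0 * X

end Pool.Agent.Q161.ESN
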