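import Pool.Agent.Q161.ESN.Stm3
import Pool.Agent.Q161.ESF.Stm7

/-!
# Project ESN (helper161), part 4: the 2-Selmer groups of the twists by `D ∈ F^*`, and the number of the twists

`F` a number field, `E : y² = x³ + a x + b`, `a, b ∈ 𝓞 F`, the cubic irreducible over `F`, `L = F(θ)`, `θ` a zero of it; the
twists `E_D : y² = x³ + a D² x + b D³` by all `D ∈ F^*`.  The definitions of `Sel2`, `CubF`, .. are those of project ESF
(`Pool/Agent/Q161/ESF/Def.lean`, `Stm7.lean`); `S_KDF, S_KIF, S_KLF, S_INF, S_GRPF` are proved there for all number fields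
(see `Pool/Agent/Q161/ESF/{Goal, All}.lean`).  New: `D ∈ F` instead of `D ∈ ℤ`.
-/

set_option autoImplicit false

namespace Pool.Agent.Q161.ESN

open WeierstrassCurve Polynomial NumberField IsDedekindDomain Finset

open scoped Classical

open Pool.Agent.Q51.EL (Abv Par)
open Pool.Agent.Q161.ESG (shF)
open Pool.Agent.Q161.ESF (CubF Sel2 S_KDF S_KIF S_KLF S_INF)

/-- the class of `δ` comes, up to elements near to `1` at the primes above `v`, from an element `x` of `F` which is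
near to the abscissa of a point of the twist by `D` over the completion at `v` (compare `LV` in
`Pool/Agent/Q161/ESF/Stm7.lean`) -/
def LV {F L : Type} [Field F] [NumberField F] [Field L] [NumberField L] [Algebra F L] (a b : 𝓞 F)
    (th : 𝓞 L) (D : F) (v : HeightOneSpectrum (𝓞 F)) (δ : L) : Prop :=
  ∃ (x y : F) (η : L), y ≠ 0 ∧ η ≠ 0 ∧
    v.valuation F ((x ^ 3 + ((a : F) * D ^ 2) * x + (b : F) * D ^ 3) / y ^ 2 - 1) < 1 ∧
    ∀ V : HeightOneSpectrum (𝓞 L), V.asIdeal.comap (algebraMap (𝓞 F) (𝓞 L)) = v.asIdeal →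
      V.valuation L (δ / ((algebraMap F L x - algebraMap F L D * (th : L)) * η ^ 2) - 1) < 1

/-- JOB APX. Approximation (adapt `Pool/Agent/Q182/ESF/*` : `S_APX` of `Pool/Agent/Q161/ESF/Stm7.lean`, with `D ∈ F^*`
instead of `D ∈ ℤ`).  `ϑ = D θ` need not be integral, but it has a bounded valuation at the primes above `v`; or choose an
integer `m ≠ 0` with `D m² ∈ 𝓞 F` and reduce to this case (`(x, y, η) ↦ (m² x, m³ y, η/m)`, `d(X)` replaced by `d(X/m²)`). -/
def S_APX : Prop := ∀ (F L : Type) [Field F] [NumberField F] [Field L] [NumberField L] [Algebra F L]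
  (a b : 𝓞 F) (th : 𝓞 L), CubF (a : F) (b : F) L (th : L) → ∀ D : F, D ≠ 0 →
  ∀ (v : HeightOneSpectrum (𝓞 F)) (δ : L), δ ≠ 0 → ∀ (d : F[X]) (x y : v.adicCompletion F)
    (g : (v.adicCompletion F)[X]), aeval (algebraMap F L D * (th : L)) d = δ → y ≠ 0 →
  y ^ 2 = x ^ 3 + algebraMap F (v.adicCompletion F) ((a : F) * D ^ 2) * x +
    algebraMap F (v.adicCompletion F) ((b : F) * D ^ 3) →
  (X ^ 3 + C ((a : F) * D ^ 2) * X + C ((b : F) * D ^ 3) : F[X]).map
    (algebraMap F (v.adicCompletion F)) ∣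
      C x - X - d.map (algebraMap F (v.adicCompletion F)) * g ^ 2 → LV a b th D v δ

/-- JOB SHAF. The classes of the elements of the Selmer group (from `S_KDF`, `S_KIF`, `S_KLF`, `S_INF`, `S_APX`; adapt the
proof of `S_SHAF` of project ESF, see `t_shaf` in `Pool/Agent/Q161/ESF/Goal.lean`; `D ∈ F^*` instead of `D ∈ ℤ`). -/
def S_SHAF : Prop := ∀ (F L : Type) [Field F] [NumberField F] [Field L] [NumberField L] [Algebra F L]
  (a b : 𝓞 F) (th : 𝓞 L), CubF (a : F) (b : F) L (th : L) → ∀ D : F, D ≠ 0 →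
  ∃ Φ : Sel2 (shF ((a : F) * D ^ 2) ((b : F) * D ^ 3)) → L,
    (∀ x, Φ x ≠ 0 ∧ ∀ v : HeightOneSpectrum (𝓞 F), (2 : 𝓞 F) ∉ v.asIdeal → LV a b th D v (Φ x)) ∧
    ∀ x y, IsSquare (Φ x * Φ y) → x = y

/-- JOB LCG. The local conditions for the elements of the Selmer group (adapt the proof of `S_LCG` of project ESF, see
`t_lcg` in `Pool/Agent/Q161/ESF/Goal.lean`, and `Pool/Agent/Q193/ESG/{LcfA, LcfB, LCF}.lean`).
Proof.  `B1` is divisible by 2, the ramified primes of `K` and a multiple of the discriminant `4 a³ + 27 b²`.  Let `w` be a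
prime of `K` above `l ∤ B`, `v` the prime of `F` below `w` (via `algebraMap F K`).  By `LV` (`ι` over `F`, so the prime of `L` below
`w` via `ι` lies above `v`): `y² = (1 + m) ∏_ι (x - D ι θ)`, `ι δ = (x - D ι θ) (ι η)² (1 + m')`, `m, m'` of positive valuation at `w`.
The valuation of `D` at `w` is the one at `v`: `1` if `D ∉ w` and `exp(-1)` if `D ∈ w` (`SqF`; `val_blw` in
`Pool/Agent/Q149/ESM/ZEXa.lean`).  The rest as in `S_LCF`, `S_LCG`: the `e` of `Gd1.odd`: zero if `v(x) < 1`, and otherwise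
`e ι = 1` iff `v(x - D ι θ) = 1`.  If `φ ∈ Gal(K/F)` is a Frobenius element at `w` with `φ x ≡ x^l` then `e` is invariant
and the square roots `r_ι` satisfy `φ r_ι = r_(φ ι)`. -/
def S_LCG : Prop := ∀ (F L : Type) [Field F] [NumberField F] [Field L] [NumberField L] [Algebra F L]
  (a b : 𝓞 F) (th : 𝓞 L), CubF (a : F) (b : F) L (th : L) →
  ∀ (K : Type) [Field K] [NumberField K] [Algebra F K] [IsGalois ℚ K], Nonempty (L →ₐ[F] K) →
  ∃ B1 : ℕ, B1 ≠ 0 ∧ ∀ B : ℕ, B1 ∣ B → B ≠ 0 → ∀ D : 𝓞 F, SqF B D → ∀ δ : L, δ ≠ 0 →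
    (∀ v : HeightOneSpectrum (𝓞 F), (2 : 𝓞 F) ∉ v.asIdeal → LV a b th (D : F) v δ) →
      Gd1 F K th B D δ

/-- JOB EMB3. The embeddings of a cubic extension.
Proof.  `K/F` is normal (`IsGalois.tower_top_of_isGalois ℚ F K`) and contains a zero of the irreducible polynomial, so
`[L : F] = 3` embeddings, and an embedding is determined by the image of `θ` (`L = F(θ)`); compare
`Pool/Agent/Q166/ESG/DAT.lean`. -/
def S_EMB3 : Prop := ∀ (F L K : Type) [Field F] [NumberField F] [Field L] [NumberField L] [Algebra F L]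
  [Field K] [NumberField K] [Algebra F K] [IsGalois ℚ K] (a b : 𝓞 F) (th : 𝓞 L),
  CubF (a : F) (b : F) L (th : L) → Nonempty (L →ₐ[F] K) →
  Fintype.card (L →ₐ[F] K) = 3 ∧ Dat F K th

/-- JOB KXF. A Galois number field which contains given extensions of `F`.
Proof (from `S_KXN`, proved: `Pool.Agent.Q161.ESG.t_kxn` in `Pool/Agent/Q161/ESG/AllG.lean`; statement in
`Pool/Agent/Q161/ESG/Stm6.lean`).  Let `K` be Galois over `ℚ` with `j_c : L c → K`, and `j : F → K` (apply it to `Option C`);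
`Algebra F K` by `j`.  `j_c` restricted to `F` and `j` are conjugate by an element `g` of `Gal(K/ℚ)`, `K` is normal over `ℚ`;
`g ∘ j_c` is an `F`-algebra homomorphism. -/
def S_KXF : Prop := ∀ (C F : Type) [Fintype C] [Field F] [NumberField F] (L : C → Type)
  [∀ c, Field (L c)] [∀ c, NumberField (L c)] [∀ c, Algebra F (L c)],
  ∃ (K : Type) (_ : Field K) (_ : NumberField K) (_ : Algebra F K), IsGalois ℚ K ∧
    ∀ c, Nonempty (L c →ₐ[F] K)

/-! ## The number of the classes -/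

section cls

variable {F : Type} [Field F] [NumberField F]

/-- the valuation of `D` at `v` is odd -/
def OddAt (v : HeightOneSpectrum (𝓞 F)) (D : F) : Prop :=
  ∃ k : ℤ, v.valuation F D = WithZero.exp (1 + 2 * k)

/-- the norm of the product of the prime ideals at which the valuation of `D` is odd -/
noncomputable def oddNorm (D : F) : ℕ :=
  ∏ᶠ (v : HeightOneSpectrum (𝓞 F)) (_ : OddAt v D), Ideal.absNorm v.asIdeal

end cls

/-- JOB REP. Representatives of the classes modulo squares.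
Proof.  `EL.S_CL` (`Pool/Agent/Q51/EL/Stm.lean`, proved: `Pool.Agent.Q239.EL.cl`) for `L = F`, `δ = D`, `S` = the finite set of
all `v` with `OddAt v D` (finite: `v.valuation F D = 1` for almost all `v`; for the others the valuation is `exp (2 k)`, `D ≠ 0`). -/
def S_REP : Prop := ∀ (F : Type) [Field F] [NumberField F], ∃ (B0 : ℕ) (C : ℝ), B0 ≠ 0 ∧ 0 < C ∧
  ∀ D : F, D ≠ 0 → ∃ (D0 : 𝓞 F) (s : F), s ≠ 0 ∧ (D0 : F) = D * s ^ 2 ∧ SqF B0 D0 ∧
    ((Ideal.absNorm (Ideal.span {D0}) : ℕ) : ℝ) ≤ C * (oddNorm D : ℝ)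

/-- JOB DENS. The number of the classes modulo squares is at least `c X`.
Proof.  `(D) = 𝔡 𝔟²`, `𝔡 = ∏_{OddAt v D} v`.  (1) The number `M(t)` of the classes `D ∈ F^*/F^*²` with `N 𝔡 ≤ t` is at most `C t`: the
number of the ideals `𝔡` of norm `≤ t` is `O(t)` (Mathlib: `NumberField.Ideal.tendsto_norm_le_div_atTop` or similar), and for
given `𝔡` two such `D, D'` satisfy `(D/D') = 𝔠²`, so there are at most `#Cl(F) * #(U/U²)` classes (`U` the units, finitely
generated).  (2) The number of the principal ideals `(α)` of norm `≤ X` is `≥ c1 X` for large `X` (Mathlib: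
`tendsto_norm_le_and_mk_eq_div_atTop` for the trivial class, the limit is positive).  (3) Choose a generator `α` for each;
the number of those in a given class `D` (with `N 𝔡 ≤ X`) is at most the number of the ideals `𝔟` with
`N 𝔟² N 𝔡 ≤ X` (`(α) = 𝔡 𝔟²` is determined by `𝔟`), `≤ C2 (X/N 𝔡)^(1/2)`.  By (1), summing over `2^(-j-1) ε X < N 𝔡 ≤ 2^(-j) ε X`,
the number of the `(α)` with `N 𝔡 ≤ ε X` is at most `C3 ε^(1/2) X ≤ c1 X/2` for a suitable `ε`; the others, at least `c1 X/2`, are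
in classes with `ε X < N 𝔡 ≤ X`, each of which contains at most `C2 ε^(-1/2)` of them.  So `M(X) ≥ c X`.  For small `X ≥ 1`:
`𝒟 = {1}`. -/
def S_DENS : Prop := ∀ (F : Type) [Field F] [NumberField F], ∃ c : ℝ, 0 < c ∧ ∀ X : ℝ, 1 ≤ X →
  ∃ 𝒟 : Finset F, (∀ D ∈ 𝒟, D ≠ 0 ∧ (oddNorm D : ℝ) ≤ X) ∧
    (∀ D ∈ 𝒟, ∀ D' ∈ 𝒟, D ≠ D' → ¬ IsSquare (D * D')) ∧ c * X ≤ 𝒟.card

end Pool.Agent.Q161.ESN
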