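import Pool.Agent.Q161.ESN.Goal
import Pool.Agent.Q161.ESF.Pow
import Pool.Agent.Q161.ESM.Cor

/-! # Project ESN: corollaries -/

set_option autoImplicit false

namespace Pool.Agent.Q161.ESN

open Polynomial NumberField IsDedekindDomain Finset

open scoped Classical

open Pool.Agent.Q161.ESG (shF twF t_mqr t_mqd)
open Pool.Agent.Q161.ESF (Sel2 Sha T2 mem_T2_one card_T2 t_grpf)

section defs

variable {F : Type} [Field F] [NumberField F]

/-- the quadratic twist `y² = x³ + a D² x + b D³` by `D` of the elliptic curve `y² = x³ + a x + b` over `F` -/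
noncomputable def tw (a b D : F) : WeierstrassCurve F := ⟨0, 0, 0, a * D ^ 2, b * D ^ 3⟩

/-- the order of the 2-Selmer group over `F` of the twist by `D` -/
noncomputable def selOrder (a b D : F) : ℕ := Nat.card (Sel2 (tw a b D))

/-- the elements `x` with `2^n x = 0` of the Tate-Shafarevich group over `F` of the twist by `D` -/
abbrev ShaPow (a b D : F) (n : ℕ) : Type := {x : Sha (tw a b D) // 2 ^ n • x = 0}

/-- the rank of the group of the points over `F` of the twist by `D` -/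
noncomputable def rank (a b D : F) : ℕ := Module.finrank ℤ (tw a b D).toAffine.Point

/-- `𝒟` consists of nonzero elements of `F` in different classes modulo squares, so of representatives of different
quadratic twists, and for all `D ∈ 𝒟` the norm of the product of the prime ideals at which the valuation of `D` is odd is
at most `X` -/
structure Twists (X : ℝ) (𝒟 : Finset F) : Prop where
  ne : ∀ D ∈ 𝒟, D ≠ 0
  norm : ∀ D ∈ 𝒟, (oddNorm D : ℝ) ≤ X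
  dist : ∀ D ∈ 𝒟, ∀ D' ∈ 𝒟, D ≠ D' → ¬ IsSquare (D * D')

theorem Twists.subset {X : ℝ} {𝒟 S : Finset F} (h : Twists X 𝒟) (hS : S ⊆ 𝒟) : Twists X S :=
  ⟨fun D hD => h.ne D (hS hD), fun D hD => h.norm D (hS hD),
    fun D hD D' hD' => h.dist D (hS hD) D' (hS hD')⟩

theorem oddAt_mul_sq {v : HeightOneSpectrum (𝓞 F)} {D s : F} (hs : s ≠ 0) :
    OddAt v (D * s ^ 2) ↔ OddAt v D := by
  have key : ∀ (D s : F), s ≠ 0 → OddAt v D → OddAt v (D * s ^ 2) := by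
    rintro D s hs ⟨k, hk⟩
    have h0 : v.valuation F s ≠ 0 := (Valuation.ne_zero_iff _).2 hs
    obtain ⟨m, hm⟩ : ∃ m : ℤ, v.valuation F s = WithZero.exp m :=
      ⟨WithZero.log (v.valuation F s), (WithZero.exp_log h0).symm⟩
    refine ⟨k + m, ?_⟩
    rw [map_mul, map_pow, hk, hm, ← WithZero.exp_nsmul, ← WithZero.exp_add]
    congr 1
    simp only [nsmul_eq_mul]
    push_cast
    ring
  refine ⟨fun h => ?_, key D s hs⟩
  have h1 := key (D * s ^ 2) s⁻¹ (inv_ne_zero hs) h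
  rwa [mul_assoc, ← mul_pow, mul_inv_cancel₀ hs, one_pow, mul_one] at h1

theorem oddNorm_mul_sq {D s : F} (hs : s ≠ 0) : oddNorm (D * s ^ 2) = oddNorm D := by
  unfold oddNorm
  simp only [oddAt_mul_sq hs]

theorem Twists.mul_sq {X : ℝ} {𝒟 : Finset F} (h : Twists X 𝒟) {s : F} (hs : s ≠ 0) :
    Twists X (𝒟.image (fun D => D * s ^ 2)) := by
  refine ⟨fun E hE => ?_, fun E hE => ?_, fun E hE E' hE' hne hsq => ?_⟩
  · obtain ⟨D, hD, rfl⟩ := mem_image.1 hE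
    exact mul_ne_zero (h.ne D hD) (pow_ne_zero _ hs)
  · obtain ⟨D, hD, rfl⟩ := mem_image.1 hE
    rw [oddNorm_mul_sq hs]
    exact h.norm D hD
  · obtain ⟨D, hD, rfl⟩ := mem_image.1 hE
    obtain ⟨D', hD', rfl⟩ := mem_image.1 hE'
    obtain ⟨q, hq⟩ := hsq
    refine h.dist D hD D' hD' (fun e => hne (by rw [e])) ⟨q / s ^ 2, ?_⟩
    field_simp
    linear_combination hq

/-- an integer which is a multiple of the denominators -/
theorem exists_den (J : Type) [Fintype J] (x : J → F) :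
    ∃ u : F, u ≠ 0 ∧ IsIntegral ℤ u ∧ ∀ j, IsIntegral ℤ (u * x j) := by
  have h1 : ∀ j, ∃ m : ℤ, m ≠ 0 ∧ IsIntegral ℤ ((m : F) * x j) := fun j => by
    obtain ⟨m, hm, h⟩ := exists_integral_multiples ℤ ℚ ({x j} : Finset F)
    refine ⟨m, hm, ?_⟩
    have := h (x j) (mem_singleton_self _)
    rwa [zsmul_eq_mul] at this
  choose m hm h2 using h1
  refine ⟨((∏ j, m j : ℤ) : F), ?_, isIntegral_algebraMap (R := ℤ) (A := F), fun j => ?_⟩
  · exact_mod_cast prod_ne_zero_iff.2 fun j _ => hm j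
  · obtain ⟨c, hc⟩ := dvd_prod_of_mem m (mem_univ j)
    rw [hc]
    have e : ((m j * c : ℤ) : F) * x j = (c : F) * ((m j : F) * x j) := by
      push_cast
      ring
    rw [e]
    exact (isIntegral_algebraMap (R := ℤ) (A := F)).mul (h2 j)

end defs

section main

variable (hG : ∀ (J : Type) [Fintype J] (F : Type) [Field F] [NumberField F] (a b : J → 𝓞 F)
    (_ : ∀ j, ∀ x : F, x ^ 3 + (a j : F) * x + (b j : F) ≠ 0),
    ∃ C0 : ℝ, 0 < C0 ∧ ∀ X : ℝ, 1 ≤ X → ∀ 𝒟 : Finset F, (∀ D ∈ 𝒟, D ≠ 0 ∧ (oddNorm D : ℝ) ≤ X) →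
      (∀ D ∈ 𝒟, ∀ D' ∈ 𝒟, D ≠ D' → ¬ IsSquare (D * D')) →
      ((∑ D ∈ 𝒟, ∏ j, Nat.card (Sel2 (shF ((a j : F) * D ^ 2) ((b j : F) * D ^ 3))) : ℕ) : ℝ) ≤
        C0 * X)
  (hFin : ∀ (F : Type) [Field F] [NumberField F] (a b : 𝓞 F)
    (_ : ∀ x : F, x ^ 3 + (a : F) * x + (b : F) ≠ 0) (D : F) (_ : D ≠ 0),
    Finite (Sel2 (shF ((a : F) * D ^ 2) ((b : F) * D ^ 3))))

theorem noroot_scale {F : Type} [Field F] [NumberField F] {a b u : F} (hu : u ≠ 0)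
    (h : ∀ x : F, x ^ 3 + a * x + b ≠ 0) (x : F) : x ^ 3 + (u ^ 4 * a) * x + (u ^ 6 * b) ≠ 0 := by
  intro h0
  apply h (x / u ^ 2)
  field_simp
  linear_combination h0

theorem tw_scale {F : Type} [Field F] [NumberField F] {a b u : F} (hu : u ≠ 0) (D : F) :
    shF ((u ^ 4 * a) * (D * (u⁻¹) ^ 2) ^ 2) ((u ^ 6 * b) * (D * (u⁻¹) ^ 2) ^ 3) = tw a b D := by
  unfold shF tw
  congr 1
  · field_simp
  · field_simp

include hG in
/-- the joint moments, coefficients in `F` -/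
theorem goal' (J : Type) [Fintype J] (F : Type) [Field F] [NumberField F] (a b : J → F)
    (h : ∀ j, ∀ x : F, x ^ 3 + a j * x + b j ≠ 0) :
    ∃ C0 : ℝ, 0 < C0 ∧ ∀ X : ℝ, 1 ≤ X → ∀ 𝒟 : Finset F, Twists X 𝒟 →
      ((∑ D ∈ 𝒟, ∏ j, selOrder (a j) (b j) D : ℕ) : ℝ) ≤ C0 * X := by
  obtain ⟨u, hu, huI, hu2⟩ := exists_den (J ⊕ J) (Sum.elim a b)
  have ha : ∀ j, IsIntegral ℤ (u ^ 4 * a j) := fun j => by
    have e : u ^ 4 * a j = u ^ 3 * (u * a j) := by ring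
    rw [e]
    exact (huI.pow 3).mul (hu2 (Sum.inl j))
  have hb : ∀ j, IsIntegral ℤ (u ^ 6 * b j) := fun j => by
    have e : u ^ 6 * b j = u ^ 5 * (u * b j) := by ring
    rw [e]
    exact (huI.pow 5).mul (hu2 (Sum.inr j))
  obtain ⟨C0, hC0, hmain⟩ := hG J F (fun j => ⟨u ^ 4 * a j, ha j⟩) (fun j => ⟨u ^ 6 * b j, hb j⟩)
    (fun j x => noroot_scale hu (h j) x)
  refine ⟨C0, hC0, fun X hX 𝒟 h𝒟 => ?_⟩
  have h𝒟' := h𝒟.mul_sq (inv_ne_zero hu)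
  have key : ∀ (D : F) (j : J), selOrder (a j) (b j) D =
      Nat.card (Sel2 (shF ((u ^ 4 * a j) * (D * (u⁻¹) ^ 2) ^ 2)
        ((u ^ 6 * b j) * (D * (u⁻¹) ^ 2) ^ 3))) := fun D j => by
    rw [tw_scale hu, selOrder]
  have h1 := hmain X hX (𝒟.image (fun D => D * (u⁻¹) ^ 2))
    (fun E hE => ⟨h𝒟'.ne E hE, h𝒟'.norm E hE⟩) h𝒟'.dist
  rw [sum_image (fun D _ D' _ e => by
    have hs : (u⁻¹) ^ 2 ≠ 0 := pow_ne_zero _ (inv_ne_zero hu)
    exact mul_right_cancel₀ hs e)] at h1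
  have h2 : ∑ D ∈ 𝒟, ∏ j, selOrder (a j) (b j) D = ∑ D ∈ 𝒟, ∏ j,
      Nat.card (Sel2 (shF ((u ^ 4 * a j) * (D * (u⁻¹) ^ 2) ^ 2)
        ((u ^ 6 * b j) * (D * (u⁻¹) ^ 2) ^ 3))) :=
    sum_congr rfl fun D _ => prod_congr rfl fun j _ => key D j
  rw [h2]
  exact h1

include hFin in
theorem fin' {F : Type} [Field F] [NumberField F] {a b : F} (h : ∀ x : F, x ^ 3 + a * x + b ≠ 0)
    {D : F} (hD : D ≠ 0) : Finite (Sel2 (tw a b D)) := by
  obtain ⟨u, hu, huI, hu2⟩ := exists_den (Unit ⊕ Unit) (Sum.elim (fun _ => a) (fun _ => b))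
  have ha : IsIntegral ℤ (u ^ 4 * a) := by
    have e : u ^ 4 * a = u ^ 3 * (u * a) := by ring
    rw [e]
    exact (huI.pow 3).mul (hu2 (Sum.inl ()))
  have hb : IsIntegral ℤ (u ^ 6 * b) := by
    have e : u ^ 6 * b = u ^ 5 * (u * b) := by ring
    rw [e]
    exact (huI.pow 5).mul (hu2 (Sum.inr ()))
  have h1 := hFin F ⟨u ^ 4 * a, ha⟩ ⟨u ^ 6 * b, hb⟩ (fun x => noroot_scale hu h x)
    (D * (u⁻¹) ^ 2) (mul_ne_zero hD (pow_ne_zero _ (inv_ne_zero hu)))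
  change Finite (Sel2 (shF ((u ^ 4 * a) * (D * (u⁻¹) ^ 2) ^ 2)
    ((u ^ 6 * b) * (D * (u⁻¹) ^ 2) ^ 3))) at h1
  rwa [tw_scale hu] at h1

include hFin

theorem sha_le {F : Type} [Field F] [NumberField F] {a b : F} (h : ∀ x : F, x ^ 3 + a * x + b ≠ 0)
    {D : F} (hD : D ≠ 0) : Finite {x : Sha (tw a b D) // x + x = 0} ∧
      2 ^ rank a b D * Nat.card {x : Sha (tw a b D) // x + x = 0} ≤ selOrder a b D :=
  t_grpf F (a * D ^ 2) (b * D ^ 3)
    (Pool.Agent.Q193.ESG.disc_ne (Pool.Agent.Q161.ESG.irrF (twF hD h))) (fin' hFin h hD)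

theorem shaPow_le {F : Type} [Field F] [NumberField F] {a b : F} (h : ∀ x : F, x ^ 3 + a * x + b ≠ 0)
    {D : F} (hD : D ≠ 0) (n : ℕ) : Finite (ShaPow a b D n) ∧
      2 ^ rank a b D * Nat.card (ShaPow a b D n) ≤ selOrder a b D ^ (n + 1) := by
  obtain ⟨h1, h2⟩ := sha_le hFin h hD
  have e : (fun x : Sha (tw a b D) => x ∈ T2 (Sha (tw a b D)) 1) = fun x => x + x = 0 := by
    funext x
    exact propext mem_T2_one
  have h3 : Finite (T2 (Sha (tw a b D)) 1) := by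
    rw [e]
    exact h1
  have h4 : Nat.card (T2 (Sha (tw a b D)) 1) = Nat.card {x : Sha (tw a b D) // x + x = 0} := by
    rw [e]
  obtain ⟨h5, h6⟩ := card_T2 h3 n
  rw [h4] at h6
  refine ⟨h5, ?_⟩
  have hne : Nonempty {x : Sha (tw a b D) // x + x = 0} := ⟨⟨0, add_zero 0⟩⟩
  have hpos : 1 ≤ Nat.card {x : Sha (tw a b D) // x + x = 0} := Nat.card_pos
  have h7 : 2 ^ rank a b D ≤ (2 ^ rank a b D) ^ (n + 1) := Nat.le_self_pow (Nat.succ_ne_zero n) _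
  calc 2 ^ rank a b D * Nat.card (ShaPow a b D n) ≤
        (2 ^ rank a b D) ^ (n + 1) * Nat.card {x : Sha (tw a b D) // x + x = 0} ^ (n + 1) :=
        Nat.mul_le_mul h7 (h6.trans (Nat.pow_le_pow_right hpos (Nat.le_succ n)))
    _ = (2 ^ rank a b D * Nat.card {x : Sha (tw a b D) // x + x = 0}) ^ (n + 1) :=
        (mul_pow _ _ _).symm
    _ ≤ _ := Nat.pow_le_pow_left h2 (n + 1)

theorem rank_le {F : Type} [Field F] [NumberField F] {a b : F} (h : ∀ x : F, x ^ 3 + a * x + b ≠ 0)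
    {D : F} (hD : D ≠ 0) : 2 ^ rank a b D ≤ selOrder a b D := by
  obtain ⟨h1, h2⟩ := sha_le hFin h hD
  have hne : Nonempty {x : Sha (tw a b D) // x + x = 0} := ⟨⟨0, add_zero 0⟩⟩
  have hpos : 1 ≤ Nat.card {x : Sha (tw a b D) // x + x = 0} := Nat.card_pos
  exact le_trans (Nat.le_mul_of_pos_right _ hpos) h2

theorem selOrder_pos {F : Type} [Field F] [NumberField F] {a b : F}
    (h : ∀ x : F, x ^ 3 + a * x + b ≠ 0) {D : F} (hD : D ≠ 0) : 1 ≤ selOrder a b D :=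
  le_trans Nat.one_le_two_pow (rank_le hFin h hD)

omit hFin

include hG in
/-- the joint moments -/
theorem moments (J : Type) [Fintype J] (F : Type) [Field F] [NumberField F]
    (a b : J → F) (h : ∀ j, ∀ x : F, x ^ 3 + a j * x + b j ≠ 0) (k : ℕ) :
    ∃ C : ℝ, 0 < C ∧ ∀ X : ℝ, 1 ≤ X → ∀ 𝒟 : Finset F, Twists X 𝒟 →
      ∑ D ∈ 𝒟, (∏ j, (selOrder (a j) (b j) D : ℝ)) ^ k ≤ C * X := by
  obtain ⟨C, hC, h2⟩ := goal' hG (J × Fin k) F (fun i => a i.1) (fun i => b i.1) (fun i => h i.1)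
  refine ⟨C, hC, fun X hX 𝒟 h𝒟 => ?_⟩
  have h3 := h2 X hX 𝒟 h𝒟
  rw [Nat.cast_sum] at h3
  refine le_trans (sum_le_sum fun D hD => le_of_eq ?_) h3
  rw [Fintype.prod_prod_type, Nat.cast_prod, ← prod_pow]
  refine prod_congr rfl fun j _ => ?_
  have e : ∀ n : ℕ, (∏ _x : Fin k, n) = n ^ k := fun n => by simp
  rw [← Nat.cast_pow]
  exact congrArg Nat.cast (e (selOrder (a j) (b j) D)).symm

include hG hFin in
/-- the ranks over elementary abelian extensions `N j` of `F` -/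
theorem rankMoments (J : Type) [Fintype J] (F : Type) [Field F] [NumberField F] (N : J → Type)
    [∀ j, Field (N j)] [∀ j, NumberField (N j)] [∀ j, Algebra F (N j)]
    (hN : ∀ j, IsGalois F (N j)) (h2 : ∀ j, ∀ σ : N j ≃ₐ[F] N j, σ * σ = 1)
    (a b : J → F) (h : ∀ j, ∀ x : F, x ^ 3 + a j * x + b j ≠ 0) (k : ℕ) :
    ∃ C : ℝ, 0 < C ∧ ∀ X : ℝ, 1 ≤ X → ∀ 𝒟 : Finset F, Twists X 𝒟 →
      ∑ D ∈ 𝒟, (∏ j, (2 : ℝ) ^ Module.finrank ℤ (shF (algebraMap F (N j) (a j * D ^ 2))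
          (algebraMap F (N j) (b j * D ^ 3))).toAffine.Point) ^ k ≤ C * X := by
  choose m d hd0 hd using fun j => t_mqd F (N j) (hN j)
  have hdF : ∀ j i, (d j i : F) ≠ 0 := fun j i => by exact_mod_cast hd0 j i
  have hnr : ∀ i : (j : J) × Fin (m j), ∀ x : F,
      x ^ 3 + (a i.1 * (d i.1 i.2 : F) ^ 2) * x + (b i.1 * (d i.1 i.2 : F) ^ 3) ≠ 0 := by
    rintro ⟨j, i⟩
    exact twF (hdF j i) (h j)
  obtain ⟨C, hC, hmain⟩ := moments hG ((j : J) × Fin (m j)) F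
    (fun i => a i.1 * (d i.1 i.2 : F) ^ 2) (fun i => b i.1 * (d i.1 i.2 : F) ^ 3) hnr k
  refine ⟨C, hC, fun X hX 𝒟 h𝒟 => ?_⟩
  refine le_trans (sum_le_sum fun D hD => ?_) (hmain X hX 𝒟 h𝒟)
  have hD0 : D ≠ 0 := h𝒟.ne D hD
  refine pow_le_pow_left₀ (by positivity) ?_ k
  rw [Fintype.prod_sigma]
  refine prod_le_prod (fun j _ => by positivity) fun j _ => ?_
  have h5 : 4 * (a j * D ^ 2) ^ 3 + 27 * (b j * D ^ 3) ^ 2 ≠ 0 :=
    Pool.Agent.Q193.ESG.disc_ne (Pool.Agent.Q161.ESG.irrF (twF hD0 (h j)))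
  have h4 := t_mqr F (N j) (hN j) (h2 j) (m j) (fun i => (d j i : F)) (hdF j) (hd j) _ _ h5
  refine le_trans (pow_le_pow_right₀ one_le_two h4) ?_
  rw [← prod_pow_eq_pow_sum]
  refine prod_le_prod (fun i _ => by positivity) fun i _ => ?_
  have h6 := rank_le hFin (hnr ⟨j, i⟩) hD0
  have e1 : a j * D ^ 2 * (d j i : F) ^ 2 = (a j * (d j i : F) ^ 2) * D ^ 2 := by ring
  have e2 : b j * D ^ 3 * (d j i : F) ^ 3 = (b j * (d j i : F) ^ 3) * D ^ 3 := by ring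
  rw [e1, e2]
  exact_mod_cast h6

end main

/-- a function with a bounded moment -/
theorem bounds {F : Type} {s t : F → ℝ} {k : ℕ} {𝒟 : Finset F} (h0 : ∀ D ∈ 𝒟, 0 ≤ s D ∧ s D ≤ t D)
    {C X : ℝ} (h : ∑ D ∈ 𝒟, t D ^ k ≤ C * X) :
    (∑ D ∈ 𝒟, s D ^ k ≤ C * X) ∧
      (∀ T : ℝ, 0 < T → ((𝒟.filter (fun D => T ≤ s D)).card : ℝ) ≤ C * X / T ^ k) ∧
      (𝒟.Nonempty → ∏ D ∈ 𝒟, s D ^ k ≤ (C * X / 𝒟.card) ^ 𝒟.card) := by
  have h1 : ∑ D ∈ 𝒟, s D ^ k ≤ C * X := le_trans (sum_le_sum fun D hD =>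
    pow_le_pow_left₀ (h0 D hD).1 (h0 D hD).2 k) h
  refine ⟨h1, fun T hT => ?_, fun hne => ?_⟩
  · rw [le_div_iff₀ (by positivity)]
    have h2 : ∑ D ∈ 𝒟.filter (fun D => T ≤ s D), T ^ k ≤ C * X := by
      refine le_trans (sum_le_sum fun D hD => pow_le_pow_left₀ hT.le (mem_filter.1 hD).2 k) ?_
      refine le_trans (sum_le_sum_of_subset_of_nonneg (filter_subset _ _) fun D hD _ =>
        pow_nonneg (h0 D hD).1 k) h1
    rw [sum_const, nsmul_eq_mul] at h2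
    exact h2
  · exact Pool.Agent.Q161.ESM.geom 𝒟 hne _ (fun D hD => pow_nonneg (h0 D hD).1 k) h1

end Pool.Agent.Q161.ESN
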