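import Pool.Agent.Q161.ESN.Fam
import Pool.Agent.Q161.ESM.All
import Pool.Agent.Q161.ESF.All
import Pool.Agent.Q121.ESN.RB
import Pool.Agent.Q182.ESN.RBX
import Pool.Agent.Q195.ESN.ST
import Pool.Agent.Q150.ESN.Ch
import Pool.Agent.Q150.ESN.Bx
import Pool.Agent.Q241.ESN.AN
import Pool.Agent.Q123.ESN.Mom2
import Pool.Agent.Q190.ESN.Exc2
import Pool.Agent.Q190.ESN.Rpx
import Pool.Agent.Q190.ESN.Evx
import Pool.Agent.Q190.ESN.Sem3
import Pool.Agent.Q190.ESN.Base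
import Pool.Agent.Q153.ESN.FRX
import Pool.Agent.Q68.ESN.Mn
import Pool.Agent.Q79.ESN.GEN
import Pool.Agent.Q184.ESN.ZEX
import Pool.Agent.Q65.ESN.VgNig
import Pool.Agent.Q65.ESN.Dualg
import Pool.Agent.Q65.ESN.Locg
import Pool.Agent.Q238.ESN.LJG
import Pool.Agent.Q124.ESN.RELG
import Pool.Agent.Q124.ESN.CNTG
import Pool.Agent.Q193.ESN.Apx
import Pool.Agent.Q193.ESN.LCG
import Pool.Agent.Q241.ESN.SHAF
import Pool.Agent.Q237.ESN.EMB3
import Pool.Agent.Q237.ESN.REP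
import Pool.Agent.Q237.ESN.DENS
import Pool.Agent.Q285.ESN.Cnf
import Pool.Agent.Q68.ESN.N1f
import Pool.Agent.Q147.ESN.KXF
import Pool.Agent.Q79.ESN.RES
import Pool.Agent.Q208.ESN.Sys

/-! # Project ESN: assembly

Written by helper161 with helpers 65, 68, 79, 121, 123, 124, 147, 150, 153, 182, 184, 190, 193, 195, 208, 237, 238, 241,
285, on top of the earlier projects EA, ESM, ESG, ESF. -/

set_option autoImplicit false

namespace Pool.Agent.Q161.ESN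

open Pool.Agent.Q161.ESM (t_gs t_fr t_sm t_suf)

theorem t_rb : S_RB := Pool.Agent.Q121.ESN.rb
theorem t_rbx : S_RBX := Pool.Agent.Q182.ESN.RBX.rbx t_rb
theorem t_st : S_ST := Pool.Agent.Q195.ESN.ST.st t_fr t_rb t_rbx
theorem t_ch : S_CH := Pool.Agent.Q150.ESN.ch t_st t_rb
theorem t_bx : S_BX := Pool.Agent.Q150.ESN.BX.bx t_ch t_gs
theorem t_an : S_AN := Pool.Agent.Q241.ESN.an t_bx t_sm
theorem t_mom2 : S_MOM2 := Pool.Agent.Q123.ESN.mom2 Pool.Agent.Q184.ESM.lsf2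
theorem t_exc2 : S_EXC2 := Pool.Agent.Q190.ESN.exc2 t_mom2
theorem t_rpx : S_RPX := Pool.Agent.Q190.ESN.rpx
theorem t_evx : S_EVX := Pool.Agent.Q190.ESN.evx
theorem t_sem3 : S_SEM3 := Pool.Agent.Q190.ESN.sem3
theorem t_nrm : S_NRM := Pool.Agent.Q190.ESN.nrm
theorem t_qag : S_QAG := Pool.Agent.Q190.ESN.qag t_suf
theorem t_qdg : S_QDG := Pool.Agent.Q190.ESN.qdg t_suf
theorem t_frx : S_FRX := Pool.Agent.Q153.ESN.frx
theorem t_gen : S_GEN := Pool.Agent.Q79.ESN.gen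
theorem t_zex : S_ZEX := Pool.Agent.Q184.ESN.zex t_gen t_evx t_frx
theorem t_vg : S_VG := Pool.Agent.Q65.ESN.vg
theorem t_nig : S_NIG := Pool.Agent.Q65.ESN.nig
theorem t_dualg : S_DUALG := Pool.Agent.Q65.ESN.dualg
theorem t_ljg : S_LJG := Pool.Agent.Q238.ESN.ljg
theorem t_locg : S_LOCG := Pool.Agent.Q65.ESN.locg t_dualg Pool.Agent.Q24.ESM.add t_ljg
theorem t_relg : S_RELG := Pool.Agent.Q124.ESN.relg t_nrm t_zex t_qag t_qdg t_frx
theorem t_apx : S_APX := Pool.Agent.Q193.ESN.apx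
theorem t_lcg : S_LCG := Pool.Agent.Q193.ESN.lcg
theorem t_shaf : S_SHAF := Pool.Agent.Q241.ESN.shaf (Pool.Agent.Q124.ESF.kdf Pool.Agent.Q153.ESF.k90f)
  Pool.Agent.Q124.ESF.kif
  Pool.Agent.Q129.ESF.klf Pool.Agent.Q161.ESF.t_inf t_apx
theorem t_emb3 : S_EMB3 := Pool.Agent.Q237.ESN.emb3
theorem t_rep : S_REP := Pool.Agent.Q237.ESN.rep
theorem t_dens : S_DENS := Pool.Agent.Q237.ESN.dens
theorem t_cnf : S_CNF := Pool.Agent.Q285.ESN.cnf Pool.Agent.Q237.ESM.key Pool.Agent.Q129.ESM.lcu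
  Pool.Agent.Q299.ESM.lct
theorem t_kxf : S_KXF := Pool.Agent.Q147.ESN.kxf
theorem t_res : S_RES := Pool.Agent.Q79.ESN.res t_evx
theorem t_n1f : S_N1F := Pool.Agent.Q68.ESN.n1f t_evx t_res
theorem t_sys : S_SYS := Pool.Agent.Q208.ESN.sys t_cnf t_evx t_frx t_res t_n1f t_exc2
theorem t_mn : S_MN := Pool.Agent.Q68.ESN.mn t_sys t_an t_evx
theorem t_cntg : S_CNTG := Pool.Agent.Q124.ESN.cntg t_nig t_rpx t_relg t_locg t_mn

end Pool.Agent.Q161.ESN
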