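import Pool.Agent.Q161.ESN.Cor

/-! # Project ESN: the family of all quadratic twists -/

set_option autoImplicit false

namespace Pool.Agent.Q161.ESN

open NumberField IsDedekindDomain Finset

open scoped Classical

section fam

variable {F : Type} [Field F] [NumberField F]

/-- `𝒟` is a complete set of representatives of the classes modulo squares of the `D ∈ F^*` for which the norm of the
product of the prime ideals at which the valuation of `D` is odd is at most `X`; so of all quadratic twists up to `X` -/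
structure AllTwists (X : ℝ) (𝒟 : Finset F) : Prop extends Twists X 𝒟 where
  all : ∀ D : F, D ≠ 0 → (oddNorm D : ℝ) ≤ X → ∃ D' ∈ 𝒟, IsSquare (D * D')

omit [NumberField F] in
theorem sq_trans {x y z : F} (hy : y ≠ 0) (h1 : IsSquare (x * y)) (h2 : IsSquare (y * z)) :
    IsSquare (x * z) := by
  obtain ⟨p, hp⟩ := h1
  obtain ⟨q, hq⟩ := h2
  refine ⟨p * q / y, ?_⟩
  field_simp
  linear_combination y * z * hp + p ^ 2 * hq

/-- every set of representatives has at most as many elements as a complete one -/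
theorem card_le {X : ℝ} {𝒟 S : Finset F} (h𝒟 : AllTwists X 𝒟) (hS : Twists X S) :
    S.card ≤ 𝒟.card := by
  have h1 : ∀ D : F, ∃ D' : F, D ∈ S → D' ∈ 𝒟 ∧ IsSquare (D * D') := fun D => by
    by_cases hD : D ∈ S
    · obtain ⟨D', hD', hsq⟩ := h𝒟.all D (hS.ne D hD) (hS.norm D hD)
      exact ⟨D', fun _ => ⟨hD', hsq⟩⟩
    · exact ⟨0, fun h => absurd h hD⟩
  choose f hf using h1
  refine card_le_card_of_injOn f (fun D hD => (hf D hD).1) fun D hD D' hD' hff => ?_
  by_contra hne
  apply hS.dist D hD D' hD' hne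
  have h2 := (hf D hD).2
  have h3 := (hf D' hD').2
  rw [hff] at h2
  refine sq_trans (h𝒟.ne _ (hf D' hD').1) h2 ?_
  rwa [mul_comm]

/-- existence of complete sets of representatives -/
theorem exists_all {X M : ℝ} (h : ∀ S : Finset F, Twists X S → (S.card : ℝ) ≤ M) :
    ∃ 𝒟 : Finset F, AllTwists X 𝒟 := by
  obtain ⟨m, hm⟩ : ∃ m : ℕ, ∀ S : Finset F, Twists X S → S.card ≤ m :=
    ⟨⌊M⌋₊, fun S hS => Nat.le_floor (h S hS)⟩
  have hP : ∃ n, ∃ S : Finset F, Twists X S ∧ S.card = n :=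
    ⟨0, ∅, ⟨fun D hD => absurd hD (notMem_empty _), fun D hD => absurd hD (notMem_empty _),
      fun D hD => absurd hD (notMem_empty _)⟩, rfl⟩
  let P : ℕ → Prop := fun n => ∃ S : Finset F, Twists X S ∧ S.card = n
  have hb : ∀ n, P n → n ≤ m := fun n ⟨S, hS, hn⟩ => hn ▸ hm S hS
  obtain ⟨n0, hn0⟩ := hP
  have hspec : P (Nat.findGreatest P m) := Nat.findGreatest_spec (hb n0 hn0) hn0
  obtain ⟨S, hS, hcard⟩ := hspec
  refine ⟨S, hS, fun D hD hX => ?_⟩
  by_contra hno
  push Not at hno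
  have hDS : D ∉ S := fun hDS => hno D hDS ⟨D, rfl⟩
  have h2 : Twists X (insert D S) := by
    refine ⟨fun E hE => ?_, fun E hE => ?_, fun E hE E' hE' hne => ?_⟩
    · rcases mem_insert.1 hE with h1 | h1
      · rw [h1]
        exact hD
      · exact hS.ne E h1
    · rcases mem_insert.1 hE with h1 | h1
      · rw [h1]
        exact hX
      · exact hS.norm E h1
    · rcases mem_insert.1 hE with h1 | h1
      · rcases mem_insert.1 hE' with h2 | h2
        · exact absurd (h1.trans h2.symm) hne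
        · rw [h1]
          exact hno E' h2
      · rcases mem_insert.1 hE' with h2 | h2
        · rw [h2, mul_comm]
          exact hno E h1
        · exact hS.dist E h1 E' h2 hne
  have h3 : P (S.card + 1) := ⟨insert D S, h2, card_insert_of_notMem hDS⟩
  have h4 := Nat.le_findGreatest (hb _ h3) h3
  omega

end fam

/-- the number of the twists -/
theorem family (hD : S_DENS)
    (hM : ∀ (F : Type) [Field F] [NumberField F], ∃ C : ℝ, 0 < C ∧ ∀ X : ℝ, 1 ≤ X →
      ∀ 𝒟 : Finset F, Twists X 𝒟 → (𝒟.card : ℝ) ≤ C * X)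
    (F : Type) [Field F] [NumberField F] :
    ∃ C : ℝ, 0 < C ∧ ∀ X : ℝ, 1 ≤ X → (∃ 𝒟 : Finset F, AllTwists X 𝒟) ∧
      ∀ 𝒟 : Finset F, AllTwists X 𝒟 → X / C ≤ 𝒟.card ∧ (𝒟.card : ℝ) ≤ C * X := by
  obtain ⟨c, hc, h1⟩ := hD F
  obtain ⟨C, hC, h2⟩ := hM F
  refine ⟨max C (1 / c), by positivity, fun X hX => ⟨exists_all (h2 X hX), fun 𝒟 h𝒟 => ⟨?_, ?_⟩⟩⟩
  · obtain ⟨S, hS1, hS2, hS3⟩ := h1 X hX
    have h3 : S.card ≤ 𝒟.card :=
      card_le h𝒟 ⟨fun D hD => (hS1 D hD).1, fun D hD => (hS1 D hD).2, hS2⟩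
    have h4 : (S.card : ℝ) ≤ 𝒟.card := by exact_mod_cast h3
    have h5 : X / max C (1 / c) ≤ c * X := by
      rw [div_le_iff₀ (by positivity)]
      have h6 : 1 / c ≤ max C (1 / c) := le_max_right _ _
      calc X = c * X * (1 / c) := by field_simp
        _ ≤ c * X * max C (1 / c) := by gcongr
    linarith
  · refine (h2 X hX 𝒟 h𝒟.toTwists).trans ?_
    gcongr
    exact le_max_left _ _

end Pool.Agent.Q161.ESN
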