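import Pool.Agent.Q161.ESN.Stm4
import Pool.Agent.Q161.ESF.Goal

/-! # Project ESN: 2-Selmer groups of all quadratic twists over a number field -/

set_option autoImplicit false

namespace Pool.Agent.Q161.ESN

open Polynomial NumberField IsDedekindDomain

open scoped Classical

open Pool.Agent.Q51.EL (Abv Par)
open Pool.Agent.Q161.ESG (shF)
open Pool.Agent.Q161.ESF (CubF Sel2 exists_LC)

/-- the condition `LV` depends only on the class of `D` modulo squares -/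
theorem LV.mul_sq {F L : Type} [Field F] [NumberField F] [Field L] [NumberField L] [Algebra F L]
    {a b : 𝓞 F} {th : 𝓞 L} {D : F} {v : HeightOneSpectrum (𝓞 F)} {δ : L}
    (h : LV a b th D v δ) {s : F} (hs : s ≠ 0) : LV a b th (D * s ^ 2) v δ := by
  obtain ⟨x, y, η, hy, hη, h1, h2⟩ := h
  have hs' : algebraMap F L s ≠ 0 := by
    rw [_root_.map_ne_zero]
    exact hs
  refine ⟨s ^ 2 * x, s ^ 3 * y, η / algebraMap F L s, mul_ne_zero (pow_ne_zero _ hs) hy,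
    div_ne_zero hη hs', ?_, fun V hV => ?_⟩
  · have e : ((s ^ 2 * x) ^ 3 + (a : F) * (D * s ^ 2) ^ 2 * (s ^ 2 * x) + (b : F) * (D * s ^ 2) ^ 3) /
        (s ^ 3 * y) ^ 2 = (x ^ 3 + (a : F) * D ^ 2 * x + (b : F) * D ^ 3) / y ^ 2 := by
      field_simp
    rw [e]
    exact h1
  · have e : (algebraMap F L (s ^ 2 * x) - algebraMap F L (D * s ^ 2) * (th : L)) *
        (η / algebraMap F L s) ^ 2 = (algebraMap F L x - algebraMap F L D * (th : L)) * η ^ 2 := by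
      simp only [map_mul, map_pow]
      field_simp
    rw [e]
    exact h2 V hV

theorem SqF.mono {F : Type} [Field F] [NumberField F] {B B' : ℕ} {D : 𝓞 F} (h : SqF B D)
    (hB : B ∣ B') : SqF B' D :=
  ⟨h.1, fun l hl hlB => h.2 l hl fun hd => hlB (hd.trans hB)⟩

theorem Gd1.mono {F K L : Type} [Field F] [NumberField F] [Field K] [NumberField K] [Algebra F K]
    [Field L] [NumberField L] [Algebra F L] {th : 𝓞 L} {B B' : ℕ} {D : 𝓞 F} {δ : L}
    (h : Gd1 F K th B D δ) (hB : B ∣ B') : Gd1 F K th B' D δ :=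
  ⟨fun l hl hlB => h.even l hl fun hd => hlB (hd.trans hB),
    fun l hl hlB => h.odd l hl fun hd => hlB (hd.trans hB)⟩

section main

variable (hCNT : S_CNTG) (hVG : S_VG) (hSEM : S_SEM3) (hLCG : S_LCG) (hEMB : S_EMB3) (hKX : S_KXF)
  (hREP : S_REP) (hSHA : S_SHAF)

include hCNT hVG hSEM hLCG hEMB hKX hREP hSHA

/-- the 2-Selmer groups of the twists are finite -/
theorem fin_sel (F : Type) [Field F] [NumberField F] (a b : 𝓞 F)
    (h : ∀ x : F, x ^ 3 + (a : F) * x + (b : F) ≠ 0) (D : F) (hD : D ≠ 0) :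
    Finite (Sel2 (shF ((a : F) * D ^ 2) ((b : F) * D ^ 3))) := by
  obtain ⟨L, i1, i2, i3, th, hc⟩ := exists_LC F a b h
  obtain ⟨K, k1, k2, k3, k4, hemb⟩ := hKX Unit F (fun _ => L)
  obtain ⟨hcard, hdat⟩ := hEMB F L K a b th hc (hemb ())
  obtain ⟨V, v1, v2, v3, cd, hcd⟩ := hVG Unit F K (fun _ => L)
  have hsemi : Semi (K ≃ₐ[F] K) V := hSEM Unit F K (fun _ => L) (fun _ => hcard) V cd hcd
  obtain ⟨B, hB0, hB⟩ := hLCG F L a b th hc K (hemb ())
  obtain ⟨B1, C1, hB1, hC1, hrep⟩ := hREP F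
  obtain ⟨D0, s, hs, hDs, hsq, -⟩ := hrep D hD
  obtain ⟨C0, hC0, hmain⟩ := hCNT Unit F K (fun _ => L) (fun _ => th) (fun _ => hdat) V cd hcd hsemi
    (B * B1) (mul_ne_zero hB0 hB1)
  obtain ⟨Φ, hΦ1, hΦ2⟩ := hSHA F L a b th hc D hD
  have hinj : Function.Injective Φ := fun x y hxy => hΦ2 x y (by
    rw [hxy]
    exact ⟨Φ y, rfl⟩)
  by_contra hinf
  rw [not_finite_iff_infinite] at hinf
  obtain ⟨X, hX⟩ : ∃ X : ℝ, X = 1 + ((Ideal.absNorm (Ideal.span {D0}) : ℕ) : ℝ) := ⟨_, rfl⟩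
  have hX1 : 1 ≤ X := by
    rw [hX]
    have : (0 : ℝ) ≤ ((Ideal.absNorm (Ideal.span {D0}) : ℕ) : ℝ) := Nat.cast_nonneg _
    linarith
  obtain ⟨T, hT⟩ := Infinite.exists_subset_card_eq
    (Sel2 (shF ((a : F) * D ^ 2) ((b : F) * D ^ 3))) (⌊C0 * X⌋₊ + 1)
  have hsq' : SqF (B * B1) D0 := hsq.mono (dvd_mul_left _ _)
  have h1 := hmain (fun _ E => if E = D0 then T.image Φ else ∅) (by
    intro _ E δ hδ
    by_cases hE : E = D0
    · simp only [hE, if_true] at hδ ⊢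
      obtain ⟨x, -, rfl⟩ := Finset.mem_image.1 hδ
      refine ⟨(hΦ1 x).1, hB (B * B1) (dvd_mul_right _ _) (mul_ne_zero hB0 hB1) D0 hsq' (Φ x)
        (hΦ1 x).1 fun v hv => ?_⟩
      rw [hDs]
      exact ((hΦ1 x).2 v hv).mul_sq hs
    · simp only [hE, if_false, Finset.notMem_empty] at hδ) (by
    intro _ E δ hδ δ' hδ' hne hsq
    by_cases hE : E = D0
    · simp only [hE, if_true] at hδ hδ'
      obtain ⟨x, -, rfl⟩ := Finset.mem_image.1 hδ
      obtain ⟨y, -, rfl⟩ := Finset.mem_image.1 hδ'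
      exact hne (congrArg Φ (hΦ2 x y hsq))
    · simp only [hE, if_false, Finset.notMem_empty] at hδ) X {D0} hX1 (by
    intro E hE
    rw [Finset.mem_singleton] at hE
    rw [hE]
    exact ⟨hsq', by rw [hX]; linarith⟩) (by
    intro E hE E' hE' hne
    rw [Finset.mem_singleton] at hE hE'
    exact absurd (hE.trans hE'.symm) hne)
  simp only [Finset.sum_singleton, if_true, Finset.prod_const, Finset.card_univ, Fintype.card_unit,
    pow_one, Finset.card_image_of_injective _ hinj, hT] at h1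
  have h2 := Nat.lt_floor_add_one (C0 * X)
  push_cast at h1
  linarith

/-- the joint moments of the 2-Selmer groups of all quadratic twists over a number field -/
theorem goalS (J : Type) [Fintype J] (F : Type) [Field F] [NumberField F] (a b : J → 𝓞 F)
    (h : ∀ j, ∀ x : F, x ^ 3 + (a j : F) * x + (b j : F) ≠ 0) :
    ∃ C0 : ℝ, 0 < C0 ∧ ∀ X : ℝ, 1 ≤ X → ∀ 𝒟 : Finset F, (∀ D ∈ 𝒟, D ≠ 0 ∧ (oddNorm D : ℝ) ≤ X) →
      (∀ D ∈ 𝒟, ∀ D' ∈ 𝒟, D ≠ D' → ¬ IsSquare (D * D')) →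
      ((∑ D ∈ 𝒟, ∏ j, Nat.card (Sel2 (shF ((a j : F) * D ^ 2) ((b j : F) * D ^ 3))) : ℕ) : ℝ) ≤
        C0 * X := by
  choose L i1 i2 i3 th hc using fun j => exists_LC F (a j) (b j) (h j)
  obtain ⟨K, k1, k2, k3, k4, hemb⟩ := hKX J F L
  have hE := fun j => hEMB F (L j) K (a j) (b j) (th j) (hc j) (hemb j)
  obtain ⟨V, v1, v2, v3, cd, hcd⟩ := hVG J F K L
  have hsemi : Semi (K ≃ₐ[F] K) V := hSEM J F K L (fun j => (hE j).1) V cd hcd
  choose B hB0 hB using fun j => hLCG F (L j) (a j) (b j) (th j) (hc j) K (hemb j)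
  obtain ⟨B1, C1, hB1, hC1, hrep⟩ := hREP F
  obtain ⟨BB, hBB⟩ : ∃ BB, BB = (∏ j, B j) * B1 := ⟨_, rfl⟩
  have hBB0 : BB ≠ 0 := by
    rw [hBB]
    exact mul_ne_zero (Finset.prod_ne_zero_iff.2 fun j _ => hB0 j) hB1
  have hBd : ∀ j, B j ∣ BB := fun j => by
    rw [hBB]
    exact (Finset.dvd_prod_of_mem B (Finset.mem_univ j)).mul_right _
  have hB1d : B1 ∣ BB := by
    rw [hBB]
    exact dvd_mul_left _ _
  obtain ⟨C0, hC0, hmain⟩ := hCNT J F K L th (fun j => (hE j).2) V cd hcd hsemi BB hBB0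
  have hfin : ∀ (j : J) (D : F), D ≠ 0 →
      Finite (Sel2 (shF ((a j : F) * D ^ 2) ((b j : F) * D ^ 3))) := fun j D hD =>
    fin_sel hCNT hVG hSEM hLCG hEMB hKX hREP hSHA F (a j) (b j) (h j) D hD
  have hΦ := fun (j : J) (D : F) (hD : D ≠ 0) => hSHA F (L j) (a j) (b j) (th j) (hc j) D hD
  let Φ : (j : J) → (D : F) → (hD : D ≠ 0) →
      Sel2 (shF ((a j : F) * D ^ 2) ((b j : F) * D ^ 3)) → L j := fun j D hD => (hΦ j D hD).choose
  have hΦs := fun (j : J) (D : F) (hD : D ≠ 0) => (hΦ j D hD).choose_spec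
  have hinj : ∀ (j : J) (D : F) (hD : D ≠ 0), Function.Injective (Φ j D hD) := by
    intro j D hD x y hxy
    apply (hΦs j D hD).2
    change IsSquare (Φ j D hD x * Φ j D hD y)
    rw [hxy]
    exact ⟨Φ j D hD y, rfl⟩
  let S : (j : J) → F → Finset (L j) := fun j D => if hD : D ≠ 0 then
    (@Finset.univ _ (@Fintype.ofFinite _ (hfin j D hD))).image (Φ j D hD) else ∅
  have hScard : ∀ (j : J) (D : F), D ≠ 0 →
      (S j D).card = Nat.card (Sel2 (shF ((a j : F) * D ^ 2) ((b j : F) * D ^ 3))) := by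
    intro j D hD
    simp only [S, dif_pos hD]
    rw [Finset.card_image_of_injective _ (hinj j D hD)]
    rw [@Nat.card_eq_fintype_card _ (@Fintype.ofFinite _ (hfin j D hD))]
    rfl
  -- the representatives
  let r : F → 𝓞 F := fun D => if hD : D ≠ 0 then (hrep D hD).choose else 0
  have hr : ∀ D : F, D ≠ 0 → ∃ s : F, s ≠ 0 ∧ (r D : F) = D * s ^ 2 ∧ SqF B1 (r D) ∧
      ((Ideal.absNorm (Ideal.span {r D}) : ℕ) : ℝ) ≤ C1 * (oddNorm D : ℝ) := by
    intro D hD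
    simp only [r, dif_pos hD]
    exact (hrep D hD).choose_spec
  refine ⟨C0 * max C1 1, by positivity, fun X hX 𝒟 h𝒟 hns => ?_⟩
  have hrsq : ∀ D ∈ 𝒟, ∀ D' ∈ 𝒟, D ≠ D' → ¬ IsSquare ((r D : F) * (r D' : F)) := by
    intro D hD D' hD' hne hsq
    obtain ⟨s, hs, hDs, -⟩ := hr D (h𝒟 D hD).1
    obtain ⟨s', hs', hDs', -⟩ := hr D' (h𝒟 D' hD').1
    obtain ⟨q, hq⟩ := hsq
    apply hns D hD D' hD' hne
    refine ⟨q / (s * s'), ?_⟩
    rw [hDs, hDs'] at hq
    field_simp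
    linear_combination hq
  have hrinj : Set.InjOn r (𝒟 : Set F) := by
    intro D hD D' hD' hrr
    by_contra hne
    apply hrsq D hD D' hD' hne
    rw [hrr]
    exact ⟨_, rfl⟩
  let Fs : (j : J) → 𝓞 F → Finset (L j) := fun j E =>
    if hE : ∃ D ∈ 𝒟, r D = E then S j hE.choose else ∅
  have hFs : ∀ (j : J), ∀ D ∈ 𝒟, Fs j (r D) = S j D := by
    intro j D hD
    have hE : ∃ D' ∈ 𝒟, r D' = r D := ⟨D, hD, rfl⟩
    have e : hE.choose = D := hrinj hE.choose_spec.1 hD hE.choose_spec.2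
    simp only [Fs, dif_pos hE]
    rw [e]
  have hF := hmain Fs (by
    intro j E δ hδ
    by_cases hE : ∃ D ∈ 𝒟, r D = E
    · obtain ⟨D, hD, rfl⟩ := hE
      rw [hFs j D hD] at hδ
      have hD0 := (h𝒟 D hD).1
      simp only [S, dif_pos hD0, Finset.mem_image] at hδ
      obtain ⟨x, -, rfl⟩ := hδ
      obtain ⟨s, hs, hDs, hsq, -⟩ := hr D hD0
      have h5 := (hΦs j D hD0).1 x
      refine ⟨h5.1, hB j BB (hBd j) hBB0 (r D) (hsq.mono hB1d) _ h5.1 fun v hv => ?_⟩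
      rw [hDs]
      exact (h5.2 v hv).mul_sq hs
    · simp only [Fs, dif_neg hE] at hδ
      exact absurd hδ (Finset.notMem_empty _)) (by
    intro j E δ hδ δ' hδ' hne hsq
    by_cases hE : ∃ D ∈ 𝒟, r D = E
    · obtain ⟨D, hD, rfl⟩ := hE
      rw [hFs j D hD] at hδ hδ'
      have hD0 := (h𝒟 D hD).1
      simp only [S, dif_pos hD0, Finset.mem_image] at hδ hδ'
      obtain ⟨x, -, rfl⟩ := hδ
      obtain ⟨y, -, rfl⟩ := hδ'
      exact hne (congrArg _ ((hΦs j D hD0).2 x y hsq))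
    · simp only [Fs, dif_neg hE] at hδ
      exact absurd hδ (Finset.notMem_empty _)) (max C1 1 * X) (𝒟.image r) (by
    calc (1 : ℝ) = 1 * 1 := (one_mul 1).symm
      _ ≤ max C1 1 * X := mul_le_mul (le_max_right _ _) hX zero_le_one (by positivity)) (by
    intro E hE
    obtain ⟨D, hD, rfl⟩ := Finset.mem_image.1 hE
    obtain ⟨s, hs, hDs, hsq, hle⟩ := hr D (h𝒟 D hD).1
    refine ⟨hsq.mono hB1d, hle.trans ?_⟩
    exact mul_le_mul (le_max_left _ _) (h𝒟 D hD).2 (Nat.cast_nonneg _) (by positivity)) (by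
    intro E hE E' hE' hne
    obtain ⟨D, hD, rfl⟩ := Finset.mem_image.1 hE
    obtain ⟨D', hD', rfl⟩ := Finset.mem_image.1 hE'
    exact hrsq D hD D' hD' fun h => hne (congrArg r h))
  rw [mul_assoc]
  refine le_trans (le_of_eq ?_) hF
  congr 1
  rw [Finset.sum_image hrinj]
  refine Finset.sum_congr rfl fun D hD => ?_
  refine Finset.prod_congr rfl fun j _ => ?_
  rw [hFs j D hD, hScard j D (h𝒟 D hD).1]

end main

end Pool.Agent.Q161.ESN
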