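import Mathlib

/-! # Quadratic extensions (algebra) -/

set_option autoImplicit false

namespace Pool.Agent.Q161.ESN.Quad

open Polynomial

section alg

variable {F K : Type} [Field F] [CharZero F] [Field K] [Algebra F K]

/-- `K = F + F s`, `s² = D`, not a square in `F` -/
structure Root (D : F) (s : K) : Prop where
  sq : s ^ 2 = algebraMap F K D
  nsq : ¬ IsSquare D
  gen : ∀ x : K, ∃ p q : F, x = algebraMap F K p + algebraMap F K q * s

omit [CharZero F] in
theorem Root.ne {D : F} {s : K} (h : Root D s) (c : F) : s ≠ algebraMap F K c := by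
  intro hs
  apply h.nsq
  refine ⟨c, ?_⟩
  apply FaithfulSMul.algebraMap_injective F K
  rw [map_mul, ← h.sq, hs, pow_two]

omit [CharZero F] in
theorem Root.D0 {D : F} {s : K} (h : Root D s) : D ≠ 0 := by
  rintro rfl
  exact h.nsq ⟨0, by simp⟩

omit [CharZero F] in
theorem Root.s0 {D : F} {s : K} (h : Root D s) : s ≠ 0 := by
  intro h0
  exact h.ne 0 (by rw [h0, map_zero])

omit [CharZero F] in
theorem Root.uniq {D : F} {s : K} (h : Root D s) {p q : F}
    (hpq : algebraMap F K p + algebraMap F K q * s = 0) : p = 0 ∧ q = 0 := by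
  by_cases hq : q = 0
  · subst hq
    rw [map_zero, zero_mul, add_zero] at hpq
    exact ⟨(FaithfulSMul.algebraMap_eq_zero_iff F K).1 hpq, rfl⟩
  · exfalso
    have hq' : algebraMap F K q ≠ 0 := fun h0 => hq ((FaithfulSMul.algebraMap_eq_zero_iff F K).1 h0)
    apply h.ne (-(p / q))
    rw [map_neg, map_div₀]
    field_simp
    linear_combination hpq

theorem Root.cases {D : F} {s : K} (h : Root D s) {t : K} {c : F} (ht : t ^ 2 = algebraMap F K c) :
    (∃ r : F, c = r ^ 2) ∨ ∃ r : F, c = D * r ^ 2 := by
  obtain ⟨p, q, rfl⟩ := h.gen t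
  have h1 : algebraMap F K (p ^ 2 + q ^ 2 * D - c) + algebraMap F K (2 * p * q) * s = 0 := by
    simp only [map_sub, map_add, map_mul, map_pow, map_ofNat]
    linear_combination ht - (algebraMap F K q) ^ 2 * h.sq
  obtain ⟨h2, h3⟩ := h.uniq h1
  have h4 : p = 0 ∨ q = 0 := by
    rcases mul_eq_zero.1 h3 with h5 | h5
    · left
      rcases mul_eq_zero.1 h5 with h6 | h6
      · exact absurd h6 two_ne_zero
      · exact h6
    · exact Or.inr h5
  rcases h4 with h5 | h5
  · right
    refine ⟨q, ?_⟩
    rw [h5] at h2
    linear_combination -h2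
  · left
    refine ⟨p, ?_⟩
    rw [h5] at h2
    linear_combination -h2

theorem exists_root (h : Module.finrank F K = 2) : ∃ (D : F) (s : K), Root D s := by
  haveI : FiniteDimensional F K := FiniteDimensional.of_finrank_pos (by rw [h]; norm_num)
  have hx : ∃ x : K, ∀ c : F, x ≠ algebraMap F K c := by
    by_contra hno
    push Not at hno
    have h1 : Module.finrank F K = 1 := by
      rw [← Subalgebra.bot_eq_top_iff_finrank_eq_one]
      refine eq_top_iff.2 fun x _ => ?_
      obtain ⟨c, hc⟩ := hno x
      rw [hc]
      exact Subalgebra.algebraMap_mem _ c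
    omega
  obtain ⟨x, hx⟩ := hx
  have hli : LinearIndependent F ![1, x] := by
    rw [LinearIndependent.pair_iff]
    intro p q hpq
    by_cases hq : q = 0
    · subst hq
      simp only [Algebra.smul_def, mul_one, map_zero, zero_mul, add_zero] at hpq
      exact ⟨(FaithfulSMul.algebraMap_eq_zero_iff F K).1 hpq, rfl⟩
    · exfalso
      have hq' : algebraMap F K q ≠ 0 := fun h0 => hq ((FaithfulSMul.algebraMap_eq_zero_iff F K).1 h0)
      apply hx (-(p / q))
      rw [map_neg, map_div₀]
      simp only [Algebra.smul_def, mul_one] at hpq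
      field_simp
      linear_combination hpq
  have hspan : Submodule.span F (Set.range ![1, x]) = ⊤ :=
    hli.span_eq_top_of_card_eq_finrank' (by rw [h]; simp)
  have hgen : ∀ y : K, ∃ p q : F, y = algebraMap F K p + algebraMap F K q * x := by
    intro y
    have hy : y ∈ Submodule.span F (Set.range ![1, x]) := by rw [hspan]; trivial
    rw [Matrix.range_cons, Matrix.range_cons, Matrix.range_empty, Set.union_empty,
      Set.singleton_union, Submodule.mem_span_pair] at hy
    obtain ⟨p, q, hy⟩ := hy
    refine ⟨p, q, ?_⟩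
    rw [← hy, Algebra.smul_def, Algebra.smul_def, mul_one]
  obtain ⟨u, v, huv⟩ := hgen (x ^ 2)
  have h2 : (2 : K) ≠ 0 := by
    have : (2 : F) ≠ 0 := two_ne_zero
    intro h0
    apply this
    apply FaithfulSMul.algebraMap_injective F K
    rw [map_ofNat, h0, map_zero]
  have hs : (x - algebraMap F K (v / 2)) ^ 2 = algebraMap F K (u + v ^ 2 / 4) := by
    simp only [map_add, map_div₀, map_pow, map_ofNat]
    have h4 : (4 : K) ≠ 0 := by
      have : (4 : K) = 2 * 2 := by norm_num
      rw [this]
      exact mul_ne_zero h2 h2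
    field_simp
    linear_combination 16 * huv
  refine ⟨u + v ^ 2 / 4, x - algebraMap F K (v / 2), hs, ?_, fun y => ?_⟩
  · rintro ⟨c, hc⟩
    have h3 : (x - algebraMap F K (v / 2) - algebraMap F K c) *
        (x - algebraMap F K (v / 2) + algebraMap F K c) = 0 := by
      have : algebraMap F K (u + v ^ 2 / 4) = algebraMap F K c ^ 2 := by
        rw [hc, map_mul, sq]
      linear_combination hs + this
    rcases mul_eq_zero.1 h3 with h4 | h4
    · apply hx (v / 2 + c)
      rw [map_add]
      linear_combination h4
    · apply hx (v / 2 - c)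
      rw [map_sub]
      linear_combination h4
  · obtain ⟨p, q, hy⟩ := hgen y
    refine ⟨p + q * (v / 2), q, ?_⟩
    rw [hy, map_add, map_mul]
    ring

/-- the square root generates -/
theorem Root.adjoin {D : F} {s : K} (h : Root D s) : Algebra.adjoin F {s} = ⊤ := by
  refine eq_top_iff.2 fun x _ => ?_
  obtain ⟨p, q, rfl⟩ := h.gen x
  exact add_mem (Subalgebra.algebraMap_mem _ _) (mul_mem (Subalgebra.algebraMap_mem _ _)
    (Algebra.subset_adjoin rfl))

/-- `K` is the splitting field of `X² - D` -/
theorem Root.split {D : F} {s : K} (h : Root D s) : IsSplittingField F K (X ^ 2 - C D) := by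
  have hroots : (X ^ 2 - C D : F[X]).map (algebraMap F K) = (X - C s) * (X - C (-s)) := by
    simp only [Polynomial.map_sub, Polynomial.map_pow, Polynomial.map_X, Polynomial.map_C,
      ← h.sq, C_neg, C_pow]
    ring
  refine ⟨?_, ?_⟩
  · rw [hroots]
    exact (Splits.X_sub_C _).mul (Splits.X_sub_C _)
  · refine eq_top_iff.2 ?_
    rw [← h.adjoin]
    refine Algebra.adjoin_mono ?_
    rintro x rfl
    rw [mem_rootSet]
    refine ⟨?_, ?_⟩
    · intro h0
      have := congrArg natDegree h0
      rw [natDegree_X_pow_sub_C, natDegree_zero] at this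
      exact two_ne_zero this
    · simp [h.sq]

/-- two quadratic extensions whose `D` agree up to squares are isomorphic -/
theorem Root.equiv {K' : Type} [Field K'] [Algebra F K'] {D D' : F} {s : K} {s' : K'}
    (h : Root D s) (h' : Root D' s') (hsq : IsSquare (D * D')) : Nonempty (K ≃ₐ[F] K') := by
  obtain ⟨q, hq⟩ := hsq
  have hD' := h'.D0
  have h1 : Root D (algebraMap F K' (q / D') * s') := by
    refine ⟨?_, h.nsq, fun x => ?_⟩
    · rw [mul_pow, h'.sq, ← map_pow, ← map_mul]
      congr 1
      field_simp
      linear_combination -hq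
    · obtain ⟨p, r, rfl⟩ := h'.gen x
      have hq0 : q ≠ 0 := by
        rintro rfl
        rw [mul_zero] at hq
        exact (mul_ne_zero h.D0 hD') hq
      refine ⟨p, r * (D' / q), ?_⟩
      rw [← mul_assoc, ← map_mul]
      congr 3
      field_simp
  haveI := h.split
  haveI := h1.split
  exact ⟨(IsSplittingField.algEquiv K (X ^ 2 - C D)).trans
    (IsSplittingField.algEquiv K' (X ^ 2 - C D)).symm⟩

/-- and conversely -/
theorem Root.sq_of_equiv {K' : Type} [Field K'] [Algebra F K'] {D D' : F} {s : K} {s' : K'}
    (h : Root D s) (h' : Root D' s') (e : K' ≃ₐ[F] K) : IsSquare (D * D') := by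
  have h1 : e s' ^ 2 = algebraMap F K D' := by
    rw [← map_pow, h'.sq, AlgEquiv.commutes]
  rcases h.cases h1 with ⟨r, hr⟩ | ⟨r, hr⟩
  · exact absurd ⟨r, by rw [hr, pow_two]⟩ h'.nsq
  · exact ⟨D * r, by rw [hr]; ring⟩

theorem Root.finrank {D : F} {s : K} (h : Root D s) : Module.finrank F K = 2 := by
  have hli : LinearIndependent F ![1, s] := by
    rw [LinearIndependent.pair_iff]
    intro p q hpq
    apply h.uniq
    simpa [Algebra.smul_def] using hpq
  have hspan : ⊤ ≤ Submodule.span F (Set.range ![1, s]) := by
    intro y _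
    obtain ⟨p, q, rfl⟩ := h.gen y
    rw [Matrix.range_cons, Matrix.range_cons, Matrix.range_empty, Set.union_empty,
      Set.singleton_union, Submodule.mem_span_pair]
    exact ⟨p, q, by rw [Algebra.smul_def, Algebra.smul_def, mul_one]⟩
  have := Module.finrank_eq_card_basis (Module.Basis.mk hli hspan)
  simpa using this

/-- the automorphisms have order at most two -/
theorem Root.invol {D : F} {s : K} (h : Root D s) (σ : K ≃ₐ[F] K) : σ * σ = 1 := by
  have h1 : σ s = s ∨ σ s = -s := by
    have h2 : (σ s - s) * (σ s + s) = 0 := by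
      have h3 : σ s ^ 2 = s ^ 2 := by rw [← map_pow, h.sq, AlgEquiv.commutes]
      linear_combination h3
    rcases mul_eq_zero.1 h2 with h4 | h4
    · left
      linear_combination h4
    · right
      linear_combination h4
  have h5 : σ (σ s) = s := by
    rcases h1 with h2 | h2
    · rw [h2, h2]
    · rw [h2, map_neg, h2, neg_neg]
  ext x
  obtain ⟨p, q, rfl⟩ := h.gen x
  simp only [AlgEquiv.mul_apply, map_add, map_mul, AlgEquiv.commutes, h5, AlgEquiv.one_apply]

/-- existence of the quadratic extension -/
theorem root_splittingField {D : F} (hD : ¬ IsSquare D) :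
    ∃ s : (X ^ 2 - C D : F[X]).SplittingField, Root D s := by
  set f : F[X] := X ^ 2 - C D with hf
  have hdeg : f.natDegree = 2 := natDegree_X_pow_sub_C
  have hsp : (f.map (algebraMap F f.SplittingField)).Splits := SplittingField.splits f
  have hne : (f.map (algebraMap F f.SplittingField)).degree ≠ 0 := by
    rw [degree_map]
    rw [hf, degree_X_pow_sub_C (by norm_num)]
    norm_num
  obtain ⟨s, hs⟩ := hsp.exists_eval_eq_zero hne
  have hmap : f.map (algebraMap F f.SplittingField) =
      X ^ 2 - C (algebraMap F f.SplittingField D) := by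
    simp only [f, Polynomial.map_sub, Polynomial.map_pow, Polynomial.map_X, Polynomial.map_C]
  have hs2 : s ^ 2 = algebraMap F f.SplittingField D := by
    rw [hmap] at hs
    simp only [eval_sub, eval_pow, eval_X, eval_C] at hs
    linear_combination hs
  refine ⟨s, hs2, hD, ?_⟩
  -- the subalgebra of the `p + q s`
  let S : Subalgebra F f.SplittingField :=
    { carrier := {x | ∃ p q : F, x = algebraMap F _ p + algebraMap F _ q * s}
      mul_mem' := by
        rintro x y ⟨p, q, rfl⟩ ⟨p', q', rfl⟩
        refine ⟨p * p' + q * q' * D, p * q' + q * p', ?_⟩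
        simp only [map_add, map_mul]
        linear_combination (algebraMap F f.SplittingField q) * (algebraMap F f.SplittingField q') * hs2
      add_mem' := by
        rintro x y ⟨p, q, rfl⟩ ⟨p', q', rfl⟩
        exact ⟨p + p', q + q', by simp only [map_add]; ring⟩
      algebraMap_mem' := fun r => ⟨r, 0, by simp⟩ }
  have hS : S = ⊤ := by
    rw [eq_top_iff, ← IsSplittingField.adjoin_rootSet f.SplittingField f]
    refine Algebra.adjoin_le fun x hx => ?_
    rw [mem_rootSet] at hx
    have hx2 : x ^ 2 = algebraMap F f.SplittingField D := by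
      have := hx.2
      rw [aeval_def, ← eval_map, hmap] at this
      simp only [eval_sub, eval_pow, eval_X, eval_C] at this
      linear_combination this
    have h3 : (x - s) * (x + s) = 0 := by linear_combination hx2 - hs2
    rcases mul_eq_zero.1 h3 with h4 | h4
    · exact ⟨0, 1, by rw [map_zero, map_one]; linear_combination h4⟩
    · exact ⟨0, -1, by rw [map_zero, map_neg, map_one]; linear_combination h4⟩
  intro x
  have hx : x ∈ S := by rw [hS]; trivial
  exact hx

end alg

end Pool.Agent.Q161.ESN.Quad
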