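import Pool.Agent.Q161.ESN.Fin
import Pool.Agent.Q161.ESN.QuadA

/-! # Quadratic extensions of number fields: the discriminant -/

set_option autoImplicit false

namespace Pool.Agent.Q161.ESN.Quad

open NumberField IsDedekindDomain Finset Polynomial

open scoped Classical

variable {F K : Type} [Field F] [NumberField F] [Field K] [NumberField K] [Algebra F K]

/-- a prime at which the valuation of `D` is odd is ramified -/
theorem exists_prime {D : F} {s : K} (h : Root D s) (v : HeightOneSpectrum (𝓞 F)) (hv : OddAt v D) :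
    ∃ P : Ideal (𝓞 K), P.IsMaximal ∧ P.LiesOver v.asIdeal ∧ P ∣ differentIdeal (𝓞 F) (𝓞 K) ∧
      Ideal.absNorm v.asIdeal ≤ Ideal.absNorm P := by
  have hvm : v.asIdeal.IsMaximal := v.isMaximal
  obtain ⟨P, hPm, hPl⟩ := Ideal.exists_maximal_ideal_liesOver_of_isIntegral v.asIdeal (S := 𝓞 K)
  have hP0 : P ≠ ⊥ := by
    rintro rfl
    apply v.ne_bot
    rw [hPl.over]
    exact Ideal.under_bot _ _
  let w : HeightOneSpectrum (𝓞 K) := ⟨P, hPm.isPrime, hP0⟩
  haveI : w.asIdeal.LiesOver v.asIdeal := hPl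
  have h1 := HeightOneSpectrum.valuation_liesOver K v w D
  obtain ⟨k, hk⟩ := hv
  set e := v.asIdeal.ramificationIdx' w.asIdeal with he
  have he0 : e ≠ 0 := Ideal.IsDedekindDomain.ramificationIdx'_ne_zero_of_liesOver w.asIdeal v.ne_bot
  have hs0 : w.valuation K s ≠ 0 := (Valuation.ne_zero_iff _).2 h.s0
  obtain ⟨m, hm⟩ : ∃ m : ℤ, w.valuation K s = WithZero.exp m :=
    ⟨WithZero.log (w.valuation K s), (WithZero.exp_log hs0).symm⟩
  rw [hk, ← h.sq, map_pow, hm, ← WithZero.exp_nsmul, ← WithZero.exp_nsmul, WithZero.exp_inj] at h1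
  simp only [nsmul_eq_mul] at h1
  have he2 : 2 ≤ e := by
    rcases Nat.lt_or_ge e 2 with h2 | h2
    · interval_cases e
      · exact absurd rfl he0
      · push_cast at h1
        omega
    · exact h2
  refine ⟨P, hPm, hPl, ?_, ?_⟩
  · have h2 : P ^ e ∣ v.asIdeal.map (algebraMap (𝓞 F) (𝓞 K)) :=
      Ideal.dvd_iff_le.2 Ideal.le_pow_ramificationIdx'
    have h3 := pow_sub_one_dvd_differentIdeal (𝓞 F) P e v.ne_bot h2
    exact (dvd_pow_self P (by omega)).trans h3
  · rw [Ideal.absNorm_apply, Ideal.absNorm_apply, Submodule.cardQuot_apply, Submodule.cardQuot_apply]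
    haveI : Finite (𝓞 K ⧸ P) := Ideal.finiteQuotientOfFreeOfNeBot P hP0
    exact Nat.card_le_card_of_injective (algebraMap (𝓞 F ⧸ v.asIdeal) (𝓞 K ⧸ P))
      (FaithfulSMul.algebraMap_injective _ _)

/-- the norm of the primes with odd valuation is at most the discriminant -/
theorem oddNorm_le {D : F} {s : K} (h : Root D s) : oddNorm D ≤ (discr K).natAbs := by
  have hfin := Pool.Agent.Q237.ESN.oddAt_finite D h.D0
  choose P hPm hPl hPd hPn using fun v : {v : HeightOneSpectrum (𝓞 F) // OddAt v D} =>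
    exists_prime h v.1 v.2
  haveI : Fintype {v : HeightOneSpectrum (𝓞 F) // OddAt v D} := hfin.fintype
  have h1 : oddNorm D = ∏ v : {v : HeightOneSpectrum (𝓞 F) // OddAt v D}, Ideal.absNorm v.1.asIdeal := by
    unfold oddNorm
    rw [← finprod_eq_prod_of_fintype]
    exact finprod_mem_eq_of_bijOn
      (fun v : HeightOneSpectrum (𝓞 F) => v) (s := {v | OddAt v D}) (t := {v | OddAt v D}) (Set.bijOn_id _) (fun _ _ => rfl) |>.trans (finprod_set_coe_eq_finprod_mem _).symm
  have h2 : (∏ v, P v) ∣ differentIdeal (𝓞 F) (𝓞 K) := by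
    refine Finset.prod_dvd_of_coprime (fun u _ v _ huv => ?_) fun v _ => hPd v
    rw [Function.onFun, Ideal.isCoprime_iff_sup_eq]
    refine (hPm u).coprime_of_ne (hPm v) fun hPP => huv ?_
    apply Subtype.ext
    apply HeightOneSpectrum.ext
    rw [(hPl u).over, (hPl v).over, hPP]
  have h3 : ∏ v, Ideal.absNorm (P v) ∣ Ideal.absNorm (differentIdeal (𝓞 F) (𝓞 K)) := by
    rw [← map_prod]
    exact Ideal.absNorm_dvd_absNorm_of_le (Ideal.dvd_iff_le.1 h2)
  have h4 : Ideal.absNorm (differentIdeal (𝓞 F) (𝓞 K)) ≠ 0 := by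
    rw [Ne, Ideal.absNorm_eq_zero_iff]
    exact differentIdeal_ne_bot
  have h5 := natAbs_discr_eq_absNorm_differentIdeal_mul_natAbs_discr_pow F (𝓞 F) K (𝓞 K)
  have h6 : (discr F).natAbs ≠ 0 := Int.natAbs_ne_zero.2 (discr_ne_zero F)
  rw [h1, h5]
  refine (Finset.prod_le_prod' fun v _ => hPn v).trans ((Nat.le_of_dvd (Nat.pos_of_ne_zero h4) h3).trans ?_)
  exact Nat.le_mul_of_pos_right _ (pow_pos (Nat.pos_of_ne_zero h6) _)

theorem Root.mul {D : F} {s : K} (h : Root D s) {t : F} (ht : t ≠ 0) :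
    Root (D * t ^ 2) (s * algebraMap F K t) := by
  have ht' : algebraMap F K t ≠ 0 := fun h0 => ht ((FaithfulSMul.algebraMap_eq_zero_iff F K).1 h0)
  refine ⟨by rw [mul_pow, h.sq, map_mul, map_pow], ?_, fun x => ?_⟩
  · rintro ⟨c, hc⟩
    refine h.nsq ⟨c / t, ?_⟩
    field_simp
    linear_combination hc
  · obtain ⟨p, q, rfl⟩ := h.gen x
    refine ⟨p, q / t, ?_⟩
    rw [map_div₀]
    field_simp

/-- the discriminant is at most a constant times the norm of the primes with odd valuation -/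
theorem discr_le_norm {D : 𝓞 F} {s : K} (h : Root (D : F) s) :
    (discr K).natAbs ≤ 4 ^ Module.finrank ℚ F * Ideal.absNorm (Ideal.span {D}) *
      (discr F).natAbs ^ 2 := by
  have hD0 : D ≠ 0 := by
    rintro rfl
    exact h.D0 (by simp)
  have hint : IsIntegral ℤ s := by
    refine IsIntegral.of_pow (n := 2) (by norm_num) ?_
    rw [h.sq]
    exact (RingOfIntegers.isIntegral_coe D).map (algebraMap F K).toIntAlgHom
  let α : 𝓞 K := ⟨s, hint⟩
  have hα : algebraMap (𝓞 K) K α = s := rfl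
  have hα2 : α ^ 2 = algebraMap (𝓞 F) (𝓞 K) D := by
    apply RingOfIntegers.ext
    change s ^ 2 = _
    rw [h.sq]
    rfl
  have hαint : IsIntegral (𝓞 F) α := Algebra.IsIntegral.isIntegral α
  -- the minimal polynomial
  have hmin : minpoly (𝓞 F) α = X ^ 2 - C D := by
    refine (minpoly.unique' (𝓞 F) α (monic_X_pow_sub_C D (by norm_num)) ?_ fun q hq => ?_).symm
    · simp only [map_sub, map_pow, aeval_X, aeval_C, hα2, sub_self]
    · rcases eq_or_ne q 0 with hq0 | hq0
      · exact Or.inl hq0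
      · right
        intro hqa
        have hlt : q.degree < 2 := by
          rwa [degree_X_pow_sub_C (by norm_num : 0 < 2) D] at hq
        have hq1 : q.natDegree ≤ 1 := by
          rw [degree_eq_natDegree hq0] at hlt
          have : q.natDegree < 2 := by exact_mod_cast hlt
          omega
        rw [eq_X_add_C_of_natDegree_le_one hq1] at hqa
        simp only [map_add, map_mul, aeval_X, aeval_C] at hqa
        have h1 : algebraMap F K (q.coeff 0 : F) + algebraMap F K (q.coeff 1 : F) * s = 0 := by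
          have h2 := congrArg (algebraMap (𝓞 K) K) hqa
          rw [map_add, map_mul, hα, map_zero] at h2
          rw [add_comm]
          exact h2
        obtain ⟨h2, h3⟩ := h.uniq h1
        apply hq0
        rw [eq_X_add_C_of_natDegree_le_one hq1]
        have h4 : q.coeff 0 = 0 := RingOfIntegers.ext h2
        have h5 : q.coeff 1 = 0 := RingOfIntegers.ext h3
        rw [h4, h5, C_0, zero_mul, zero_add]
  have hmem : 2 * α ∈ differentIdeal (𝓞 F) (𝓞 K) := by
    have h1 := aeval_derivative_mem_differentIdeal (𝓞 F) F K α h.adjoin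
    rwa [hmin, derivative_sub, derivative_C, sub_zero, derivative_X_sq, map_mul, aeval_X, aeval_C,
      map_ofNat] at h1
  have h1 : Ideal.absNorm (differentIdeal (𝓞 F) (𝓞 K)) ∣ Ideal.absNorm (Ideal.span {2 * α}) :=
    Ideal.absNorm_dvd_absNorm_of_le ((Ideal.span_singleton_le_iff_mem _).2 hmem)
  have hα0 : α ≠ 0 := by
    rintro h0
    exact h.s0 (by rw [← hα, h0, map_zero])
  have h2 : Ideal.absNorm (Ideal.span {2 * α}) ^ 2 =
      (4 ^ Module.finrank ℚ F * Ideal.absNorm (Ideal.span {D})) ^ 2 := by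
    have e1 : Ideal.span {2 * α} ^ 2 =
        (Ideal.span {4 * D} : Ideal (𝓞 F)).map (algebraMap (𝓞 F) (𝓞 K)) := by
      rw [Ideal.span_singleton_pow, Ideal.map_span, Set.image_singleton, map_mul, mul_pow, hα2,
        map_ofNat]
      norm_num
    rw [← map_pow, e1, Ideal.absNorm_algebraMap]
    have e2 : Module.finrank (𝓞 F) (𝓞 K) = 2 := by
      rw [← h.finrank]
      exact (IsFractionRing.finrank_eq (𝓞 F) F (𝓞 K) K).symm
    rw [e2]
    congr 1
    rw [← Ideal.span_singleton_mul_span_singleton, map_mul]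
    congr 1
    have e3 : (4 : 𝓞 F) = algebraMap ℤ (𝓞 F) 4 := by simp
    rw [Ideal.absNorm_span_singleton, e3, Algebra.norm_algebraMap, RingOfIntegers.rank]
    simp [Int.natAbs_pow]
  have h3 : Ideal.absNorm (Ideal.span {2 * α}) =
      4 ^ Module.finrank ℚ F * Ideal.absNorm (Ideal.span {D}) :=
    Nat.pow_left_injective (by norm_num : (2 : ℕ) ≠ 0) h2
  have h5 := natAbs_discr_eq_absNorm_differentIdeal_mul_natAbs_discr_pow F (𝓞 F) K (𝓞 K)
  rw [h5, h.finrank]
  have h6 : 0 < Ideal.absNorm (Ideal.span {2 * α}) := by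
    rw [Nat.pos_iff_ne_zero, Ne, Ideal.absNorm_eq_zero_iff, Ideal.span_singleton_eq_bot]
    exact mul_ne_zero two_ne_zero hα0
  have h7 := Nat.le_of_dvd h6 h1
  rw [h3] at h7
  exact Nat.mul_le_mul_right _ h7

/-- the discriminant is at most a constant times the norm of the primes with odd valuation -/
theorem discr_le (F : Type) [Field F] [NumberField F] : ∃ C : ℝ, 0 < C ∧
    ∀ (K : Type) [Field K] [NumberField K] [Algebra F K] (D : F) (s : K), Root D s →
      ((discr K).natAbs : ℝ) ≤ C * (oddNorm D : ℝ) := by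
  obtain ⟨B0, C, -, hC, hrep⟩ := t_rep F
  refine ⟨4 ^ Module.finrank ℚ F * C * ((discr F).natAbs ^ 2 : ℕ) + 1, by positivity,
    fun K _ _ _ D s h => ?_⟩
  obtain ⟨D0, t, ht, hD0, -, hN⟩ := hrep D h.D0
  have h1 := h.mul ht
  rw [← hD0] at h1
  have h2 := discr_le_norm h1
  have h3 : ((discr K).natAbs : ℝ) ≤ 4 ^ Module.finrank ℚ F *
      (Ideal.absNorm (Ideal.span {D0}) : ℝ) * ((discr F).natAbs ^ 2 : ℕ) := by exact_mod_cast h2
  refine h3.trans ?_
  have h4 : 4 ^ Module.finrank ℚ F * (Ideal.absNorm (Ideal.span {D0}) : ℝ) *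
      ((discr F).natAbs ^ 2 : ℕ) ≤ 4 ^ Module.finrank ℚ F * (C * oddNorm D) *
      ((discr F).natAbs ^ 2 : ℕ) := by gcongr
  refine h4.trans ?_
  have h5 : (0 : ℝ) ≤ oddNorm D := Nat.cast_nonneg _
  nlinarith

end Pool.Agent.Q161.ESN.Quad
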