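import Pool.Agent.Q161.ESM.Stm1

/-!
# Project ESN (helper161), part 1: all quadratic twists over a number field; the sieve

GOAL OF THE PROJECT.  `F` ANY number field, `E_1, .., E_r` elliptic curves over `F` without `F`-rational points of order
two.  For every `k` there is a `C` such that for all `X ≥ 1` and every set `𝒟` of representatives `D ∈ F^*` of different
classes of `F^*/F^*²` with `∏_{v(D) odd} N v ≤ X`: `∑_{D ∈ 𝒟} ∏_i #Sel_2(E_{i,D}/F)^k ≤ C X`.  (Projects ESM, ESG, ESF: twists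
by rational integers `D`.)

METHOD.  As in project ESM, with `Gal(K/F)` instead of `Gal(K/ℚ)`; the variables `z_O` of project ESM are now algebraic
integers of fields `F_O ⊇ F`, and modulo a rational prime `l` there is a local condition for every prime `v` of `F` of
degree one above `l`.  So if the variables with index `i ∈ S` are free modulo `l` the proportion of the allowed classes
is `≤ 1 - (∑_{i ∈ S} N1 i l - N0 l)/l`, `N0 l` = the number of the primes of degree one of `F` above `l` (before: `N0 l = 1`),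
and `∑_{l ≤ Y} N0 l / l = log log Y + O(1)`.

THIS FILE: the abstract sieve.  It differs from `Pool/Agent/Q161/ESM/Stm1.lean` only in `N0` (`Sy.N0`; `Ok.nle0`, `Ok.mer0`;
`Ok.dens`, `Ok.good`, `Ok.bad` with `N0 l` instead of `1`); the definitions which do not depend on it are exported
from the namespace `Pool.Agent.Q161.ESM` (so `open Pool.Agent.Q161.ESN` is enough), `S_GS`, `S_FR`, `S_SM` are proved
there.  The proofs of project ESM can be copied: replace `import Pool.Agent.Q161.ESM.Stm1` by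
`import Pool.Agent.Q161.ESN.Stm1` and `open Pool.Agent.Q161.ESM` by `open Pool.Agent.Q161.ESN`, and choose a new namespace.
-/

set_option autoImplicit false

namespace Pool.Agent.Q161.ESN

open Finset
open Pool.Agent.Q51.EL (pr)

export Pool.Agent.Q161.ESM (Vc Vm rd frac InB S_GS S_FR vv PP Phi vs S_SM)



/-- the data of the sieve: `Om l`: the allowed classes; `U l i`: the units; `Nm`: norms; `Nc`: the nice
values of a variable; `N1 i l`: the number of the primes of degree one above `l`; `sp`: the primes which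
split completely; `N0 l`: the number of the primes of degree one of `F` above `l`; `Bad`: the bad sets of free variables; `Inc S l x`: the values of the variables
outside `S` are incompatible with `l` -/
structure Sy {ι : Type} (n : ι → ℕ) where
  B : ℕ
  Om : (l : ℕ) → Set (Vm n l)
  U : (l : ℕ) → (i : ι) → Set (Fin (n i) → ZMod l)
  Nm : (i : ι) → (Fin (n i) → ℤ) → ℕ
  Nc : (i : ι) → Set (Fin (n i) → ℤ)
  N1 : ι → ℕ → ℕ
  N0 : ℕ → ℕ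
  sp : Set ℕ
  Bad : Finset ι → Prop
  Inc : Finset ι → ℕ → Vc n → Prop

section sys

variable {ι : Type} [Fintype ι] [DecidableEq ι] {n : ι → ℕ}

open Classical in
/-- the properties of the data -/
structure Ok (s : Sy n) (A c κ : ℝ) : Prop where
  A1 : 1 ≤ A
  c0 : 0 < c
  κ0 : 0 < κ
  B0 : s.B ≠ 0
  n1 : ∀ i, 1 ≤ n i
  unit : ∀ l : ℕ, l.Prime → ¬ l ∣ s.B → ∀ y : Vm n l, (∀ i, y i ∈ s.U l i) → y ∈ s.Om l
  cU : ∀ l : ℕ, l.Prime → ¬ l ∣ s.B → ∀ i, (((s.U l i)ᶜ.ncard : ℕ) : ℝ) * l ≤ A * (l : ℝ) ^ n i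
  nm : ∀ l : ℕ, l.Prime → ¬ l ∣ s.B → ∀ (i : ι) (x : Fin (n i) → ℤ),
    (fun j => (x j : ZMod l)) ∉ s.U l i → l ∣ s.Nm i x
  nb : ∀ (i : ι) (x : Fin (n i) → ℤ) (H : ℝ), 1 ≤ H → (∀ j, |(x j : ℝ)| ≤ H) →
    (s.Nm i x : ℝ) ≤ A * H ^ n i
  n0 : ∀ (i : ι) (x : Fin (n i) → ℤ), x ∈ s.Nc i → s.Nm i x ≠ 0
  nle : ∀ i l, l.Prime → (s.N1 i l : ℝ) ≤ A
  nle0 : ∀ l, l.Prime → (s.N0 l : ℝ) ≤ A
  dens : ∀ l : ℕ, l.Prime → ¬ l ∣ s.B → ∀ S : Finset ι, S.Nonempty → ∀ z : Vc n,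
    (∀ i, i ∉ S → rd n l z i ∈ s.U l i) →
    frac n s.Om S l z ≤ 1 - ((∑ i ∈ S, (s.N1 i l : ℝ)) - s.N0 l) / l + A / (l : ℝ) ^ 2
  good : ∀ l : ℕ, l.Prime → ¬ l ∣ s.B → l ∈ s.sp → ∀ S : Finset ι, S.Nonempty → S ≠ univ →
    ¬ s.Bad S → ∀ z : Vc n, (∀ i, i ∉ S → rd n l z i ∈ s.U l i) →
    frac n s.Om S l z ≤ 1 - ((∑ i ∈ S, (s.N1 i l : ℝ)) - s.N0 l + κ) / l + A / (l : ℝ) ^ 2
  bad : ∀ l : ℕ, l.Prime → ¬ l ∣ s.B → l ∈ s.sp → ∀ S : Finset ι, S.Nonempty → S ≠ univ → s.Bad S →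
    ∀ z : Vc n, (∀ i, i ∉ S → rd n l z i ∈ s.U l i) → s.Inc S l z →
    frac n s.Om S l z ≤ 1 - ((∑ i ∈ S, (s.N1 i l : ℝ)) - s.N0 l + κ) / l + A / (l : ℝ) ^ 2
  mer : ∀ (i : ι) (Y : ℝ), 3 ≤ Y →
    |∑ l ∈ pr Y, (s.N1 i l : ℝ) / l - Real.log (Real.log Y)| ≤ A
  mer0 : ∀ Y : ℝ, 3 ≤ Y → |∑ l ∈ pr Y, (s.N0 l : ℝ) / l - Real.log (Real.log Y)| ≤ A
  mes : ∀ Y : ℝ, 3 ≤ Y →
    |∑ l ∈ (pr Y).filter (fun l => l ∈ s.sp), (1 : ℝ) / l - c * Real.log (Real.log Y)| ≤ A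

open Classical in
/-- `x` is not exceptional: many primes are incompatible with the variables outside `S` -/
def Nx (s : Sy n) (S : Finset ι) (b C Y : ℝ) (x : Vc n) : Prop :=
  ∀ Z : ℝ, Real.sqrt Y ≤ Z → Real.log Z ≤ Real.log Y ^ (1 + b) →
    b * Real.log (Real.log Z / Real.log Y) - C ≤
      ∑ l ∈ (pr Z).filter (fun l : ℕ => Real.sqrt Y < (l : ℝ) ∧ l ∈ s.sp ∧ ¬ l ∣ s.B ∧
        (s.Inc S l x ∨ ∃ i, i ∉ S ∧ rd n l x i ∉ s.U l i)), (1 : ℝ) / l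

/-- few values of one variable are exceptional -/
def Ex (s : Sy n) : Prop := ∀ S : Finset ι, S.Nonempty → S ≠ univ → s.Bad S → ∀ i0, i0 ∉ S → ∀ A0 : ℝ,
  ∃ b C Y0 : ℝ, 0 < b ∧ 16 ≤ Y0 ∧ ∀ (Y : ℝ) (z : Vc n) (E : Finset (Fin (n i0) → ℤ)), Y0 ≤ Y →
    (∀ y ∈ E, y ∈ s.Nc i0 ∧ (∀ j, |(y j : ℝ)| ≤ Y) ∧ ¬ Nx s S b C Y (Function.update z i0 y)) →
    (E.card : ℝ) * Real.log Y ^ A0 ≤ Y ^ n i0

/-- the product of the densities over the primes up to `Y^(1/4)` -/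
noncomputable def Wt (s : Sy n) (S : Finset ι) (Y : ℝ) (x : Vc n) : ℝ :=
  ∏ l ∈ PP s.B Y, frac n s.Om S l x

end sys

/-- JOB RB. The product of the densities over the primes between `Y1^(1/4)` and `Y2^(1/4)`.
Proof (adapt `Pool/Agent/Q14/ESM/RB.lean`).  `0 ≤ frac ≤ 1` always.  For `l` in the range, `l` not dividing `∏_{i ∉ S} Nm i (z i)` (so the `z i` are
units at `l`, `Ok.nm`): `frac ≤ 1 - s/l + A/l² ≤ exp (- s/l + A/l²)`, `s = ∑_{i ∈ S} N1 i l - N0 l`.  If `l` divides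
some `Nm i (z i) ≤ A Y1^(n i)`, `i ∉ S`: `frac ≤ 1 ≤ exp (- s/l) exp (A k / l)`; the number of these `l > Y1^(1/4)`
is at most `k * (4 n + C)` (their product is at most `A Y1^n`; use `l ≥ 2` if `Y1` is small), so the sum of
`1/l` over them is bounded.  `∑ s/l` over the range is `≥ (#S - 1)(log log Y2 - log log Y1) - C` (`Ok.mer` and
Mertens' theorem: `∑_{l ≤ Y} 1/l = log log Y + O(1)`, compare `Pool/Agent/Q182/EA/Mer.lean`, `Q91/EL/Sums.lean`;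
the primes dividing `B` contribute `O(1)`; for small `Y1`, `Y2` compare with `v(Y) = 1 + log Y ≥ 1`).
Good `S`: in addition `κ ∑_{l ∈ sp} 1/l ≥ κ c (log log Y2 - log log Y1) - C`. -/
def S_RB : Prop := ∀ (ι : Type) [Fintype ι] [DecidableEq ι] (n : ι → ℕ) (s : Sy n) (A c κ : ℝ),
  Ok s A c κ → ∃ C : ℝ, 0 < C ∧ ∀ (S : Finset ι) (z : Vc n) (Y1 Y2 : ℝ), S.Nonempty → 1 ≤ Y1 → Y1 ≤ Y2 →
    (∀ i, i ∉ S → (∀ j, |(z i j : ℝ)| ≤ Y1) ∧ s.Nm i (z i) ≠ 0) →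
    ∏ l ∈ PP s.B Y2 \ PP s.B Y1, frac n s.Om S l z ≤ C * (vv Y1 / vv Y2) ^ (S.card - 1) ∧
    (S ≠ univ → ¬ s.Bad S → ∏ l ∈ PP s.B Y2 \ PP s.B Y1, frac n s.Om S l z ≤
      C * (vv Y1 / vv Y2) ^ (S.card - 1) * (vv Y1 / vv Y2) ^ (c * κ))

/-- JOB RBX. The same for bad `S` and values which are not exceptional.
Proof (adapt `Pool/Agent/Q195/ESM/RBX.lean`): as `S_RB`; in addition the primes `l ∈ sp`, `√Y1 < l ≤ Z`, with `Inc S l x` and all `x i`, `i ∉ S`, units at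
`l` give a factor `exp (- κ ∑ 1/l)`, `Z = min (Y2^(1/4), exp ((log Y1)^(1+b)))`.  The primes for which some `x i`
is not a unit contribute `O(1)` to the sum in `Nx` (see `S_RB`).  So the factor is at most
`C (log Z / log Y1)^(- κ b)`, which is `≤ C (4 log Y1 / log Y2)^(κ b)` or `= C (log Y1)^(- κ b²)`.  (If
`Y2^(1/4) < √Y1` or `(log Y1)^(1+b) < ..`, the ratio `v(Y1)/v(Y2)` is bounded below and `S_RB` suffices.)
`b' = min(1, κ b, κ b²)`. -/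
def S_RBX : Prop := ∀ (ι : Type) [Fintype ι] [DecidableEq ι] (n : ι → ℕ) (s : Sy n) (A c κ : ℝ),
  Ok s A c κ → ∀ b C0 : ℝ, 0 < b → ∃ b' C : ℝ, 0 < b' ∧ b' ≤ 1 ∧ 0 < C ∧
  ∀ (S : Finset ι) (x : Vc n) (Y1 Y2 : ℝ), S.Nonempty → S ≠ univ → s.Bad S → 16 ≤ Y1 → Y1 ≤ Y2 →
    (∀ i, i ∉ S → (∀ j, |(x i j : ℝ)| ≤ Y1) ∧ s.Nm i (x i) ≠ 0) → Nx s S b C0 Y1 x →
    ∏ l ∈ PP s.B Y2 \ PP s.B Y1, frac n s.Om S l x ≤
      C * (vv Y1 / vv Y2) ^ (S.card - 1) * ((vv Y1 / vv Y2) ^ b' + vv Y1 ^ (-b'))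

/-- JOB ST. One step of the recursion (copy `Pool/Agent/Q223/ESM/{STA, ST}.lean`).
Proof (from `S_FR`, `S_RB`, `S_RBX`, `Ex`).  `Wt s S' Y2 x ≤ Wt s S' Y x * ∏_{PP Y2 \ PP Y1} frac n Om S' l x`
(`frac ≤ 1`).  For the `x` which are not exceptional (good `S'`: for all `x`) the last product is
`≤ C (v1/v2)^(#S' - 1) ((v1/v2)^b + v1^(-b))`, `v1 = v(Y1) ∈ [v(Y), A1 v(Y)]`.  And by `S_FR` with `S1 = S \ S'`, `S2 = S'`
(boxes with the corner `- ⌊H_i⌋` and side `2 ⌊H_i⌋ + 1 ≤ 3 H_i`), `Pb` = the primes of `PP s.B Y` dividing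
`∏_{i ∉ S} Nm i (z i)`, `P` = the others (for these the `z i` are units, and `frac ≥ 1 - C/l` by `Ok.unit`,
`Ok.cU`): `∑_x Wt s S' Y x ≤ C ∏ H_i^(n_i) Wt s S Y z`.  The exceptional `x` (bad `S'`, `Y1 ≥ Y0`): let `i0 ∈ S \ S'`
with `H_(i0) = Y1`; for given values of the other variables there are at most `Y1^(n i0) (log Y1)^(-A0')` of
them (`Ex`), and the product over `PP Y2 \ PP Y1` is `≤ C (v1/v2)^(#S' - 1)`, the rest of `Wt` is `≤ 1`.  If `Y1 < Y0`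
then `v(Y)^(-A0)` is bounded below: trivial bound.  (`b`: the minimum over the finitely many `S'`, `i0`; note
that `(v1/v2)^b + v1^(-b)` increases if `b` decreases.) -/
def S_ST : Prop := ∀ (ι : Type) [Fintype ι] [DecidableEq ι] (n : ι → ℕ) (s : Sy n) (A c κ : ℝ),
  Ok s A c κ → Ex s → ∀ A1 A0 : ℝ, ∃ b C : ℝ, 0 < b ∧ b ≤ 1 ∧ 0 < C ∧
  ∀ (S S' : Finset ι) (H : ι → ℝ) (Y Y1 Y2 : ℝ) (z : Vc n) (X : Finset (Vc n)), S' ⊆ S → S'.Nonempty →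
    1 ≤ Y → Y ≤ Y1 → Y1 ≤ Y2 → vv Y1 ≤ A1 * vv Y → (∀ i ∈ S \ S', Y ≤ H i ∧ H i ≤ Y1) →
    (∃ i ∈ S \ S', H i = Y1) →
    ((∏ i ∈ univ \ S, s.Nm i (z i) : ℕ) : ℝ) ^ 2 ≤ Y →
    (∀ i, i ∉ S → (∀ j, |(z i j : ℝ)| ≤ Y) ∧ s.Nm i (z i) ≠ 0) →
    (∀ x ∈ X, (∀ i ∈ S \ S', x i ∈ s.Nc i ∧ ∀ j, |(x i j : ℝ)| ≤ H i) ∧ ∀ i, i ∉ S \ S' → x i = z i) →
    ∑ x ∈ X, Wt s S' Y2 x ≤ C * (∏ i ∈ S \ S', H i ^ n i) * (vv Y / vv Y2) ^ (S'.card - 1) *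
      (((vv Y / vv Y2) ^ b + vv Y ^ (-b)) * Wt s S Y z + vv Y ^ (-A0))

/-- JOB CH. The chain of the steps (copy `Pool/Agent/Q182/ESM/{ChA, Ch}.lean`).
Proof (from `S_ST`, `S_RB`).  Let `S_j = {i | j ≤ e i}`, `H_j` the size of the variable `j`, `v_j = v(H_j)`,
`N = ∑ n i`.  Choose `A1` so large that `A1 v_(j-1) ≤ v_j` implies `(∏_{e i < j} A H_i^(n i))² ≤ A^(2k) H_(j-1)^(2N) ≤ H_j`.
Strong induction on `j`.  `j = 0`: `S_0 = univ`, `X` has at most one element (`x = 0`), and `S_RB` with `Y1 = 1`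
(`PP s.B 1 = ∅`) gives `Wt ≤ C v_0^(-(k-1))`.  `j > 0`: let `j' < j` be the largest index which is `0` or satisfies
`A1 v_(j'-1) ≤ v_j'`; so `v_i ≤ A1^k v_(j')` for `j' ≤ i < j`.  For every value `z` of the variables `< j'` apply `S_ST`
with `S = S_(j')`, `S' = S_j`, `Y = H_(j')`, `Y1 = H_(j-1)`, `Y2 = H_j`, `A0 = 3 k`; `∑_z Wt s S_(j') H_(j') z` is bounded
by induction, and the number of the `z` by `∏ (3 H_i)^(n i)`.  Finally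
`Phi j ≥ c Phi j' (v_(j')/v_j)^(k-j-1) ((v_(j')/v_j)^b + v_(j')^(-b))` (the factors with index `j' ≤ i < j - 1` are bounded
below as `v_i/v_(i+1) ≥ 1/A1`), and `v_(j')^(-A0) (v_(j')/v_j)^(k-j-1) ≤ C Phi j`, since
`Phi j = ∏_{i < j} v_i^(-1) * v_j^(-(k-1-j)) ∏_{i < j} ((v_i/v_(i+1))^b + v_i^(-b)) ≥ v_(j-1)^(-j) v_j^(-(k-1-j)) v_(j-1)^(-j)`. -/
def S_CH : Prop := ∀ (ι : Type) [Fintype ι] [DecidableEq ι] (n : ι → ℕ) (s : Sy n) (A c κ : ℝ),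
  Ok s A c κ → Ex s → ∃ A1 b C : ℝ, 1 ≤ A1 ∧ 0 < b ∧ b ≤ 1 ∧ 0 < C ∧
  ∀ (k : ℕ) (e : ι ≃ Fin k) (H : ι → ℝ), (∀ i, 1 ≤ H i) → (∀ i i', e i ≤ e i' → H i ≤ H i') →
  ∀ (j : ℕ) (hj : j < k), (j = 0 ∨ A1 * vs e H (j - 1) ≤ vs e H j) → ∀ X : Finset (Vc n),
    (∀ x ∈ X, (∀ i, (e i : ℕ) < j → x i ∈ s.Nc i ∧ ∀ j', |(x i j' : ℝ)| ≤ H i) ∧
      ∀ i, j ≤ (e i : ℕ) → x i = 0) →
    ∑ x ∈ X, Wt s (univ.filter (fun i => j ≤ (e i : ℕ))) (H (e.symm ⟨j, hj⟩)) x ≤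
      C * (∏ i ∈ univ.filter (fun i => (e i : ℕ) < j), H i ^ n i) * Phi k b (vs e H) j

/-- the set `T` satisfies the local conditions and consists of nice vectors -/
def InT {ι : Type} {n : ι → ℕ} (s : Sy n) (T : Set (Vc n)) : Prop :=
  ∀ x ∈ T, (∀ l : ℕ, l.Prime → ¬ l ∣ s.B → rd n l x ∈ s.Om l) ∧ ∀ i, x i ∈ s.Nc i

/-- JOB BX. The number of the vectors in a box (copy `Pool/Agent/Q24/ESM/BX.lean`).
Proof (from `S_CH`, `S_GS`).  Let `j` be the largest index `< k` which is `0` or satisfies `A1 v_(j-1) ≤ v_j`.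
For given values of the variables `< j` the number of the vectors of `T` in the box is by `S_GS`
(`S = S_j`, `Y = H_j`, `Pb` = the primes dividing the norms of the variables `< j`, see `S_ST`) at most
`C ∏_{S_j} H_i^(n_i) Wt s S_j H_j z`; then `S_CH`.  `Phi (k-1) ≥ c Phi j`, as `v_i / v_(i+1) ≥ 1/A1` for `j ≤ i`. -/
def S_BX : Prop := ∀ (ι : Type) [Fintype ι] [DecidableEq ι] [Nonempty ι] (n : ι → ℕ) (s : Sy n)
  (A c κ : ℝ), Ok s A c κ → Ex s → ∃ b C : ℝ, 0 < b ∧ b ≤ 1 ∧ 0 < C ∧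
  ∀ (T : Set (Vc n)), InT s T → ∀ (k : ℕ) (e : ι ≃ Fin k) (H : ι → ℝ), (∀ i, 1 ≤ H i) →
    (∀ i i', e i ≤ e i' → H i ≤ H i') →
    {x ∈ T | ∀ i j, |(x i j : ℝ)| ≤ H i}.Finite ∧
    (({x ∈ T | ∀ i j, |(x i j : ℝ)| ≤ H i}.ncard : ℕ) : ℝ) ≤
      C * (∏ i, H i ^ n i) * Phi k b (vs e H) (k - 1)

/-- JOB AN. The number of all vectors of `T` of bounded norm (copy `Pool/Agent/Q177/ESM/AN.lean`).
Proof (from `S_BX`, `S_SM`).  For `x` in the set choose `H` and `u_i` with `2^(u_i) ≤ H_i < 2^(u_i + 1)`; so `x` lies in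
the box with the sides `2^(u_i + 1)`, and `∏ 2^(u_i n_i) ≤ X`.  For `u` with `∑ n_i u_i = r` choose a bijection `e` of `ι`
with `Fin k` for which `u ∘ e⁻¹` is monotone; by `S_BX` at most `C 2^r Phi` vectors; the sum over the `u` with
given `e` and `r` is `≤ C 2^r` by `S_SM` (`v(2^(u+1))` and `1 + u log 2` differ by a bounded factor, and so do the
`Phi`), there are `k!` bijections, and `∑_{2^r ≤ X} 2^r ≤ 2 X`. -/
def S_AN : Prop := ∀ (ι : Type) [Fintype ι] [DecidableEq ι] [Nonempty ι] (n : ι → ℕ) (s : Sy n)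
  (A c κ : ℝ), Ok s A c κ → Ex s → ∃ C : ℝ, 0 < C ∧ ∀ (T : Set (Vc n)), InT s T → ∀ X : ℝ, 1 ≤ X →
    {x ∈ T | ∃ H : ι → ℕ, (∀ i, 1 ≤ H i) ∧ (∀ i j, |x i j| ≤ H i) ∧
      ((∏ i, H i ^ n i : ℕ) : ℝ) ≤ X}.Finite ∧
    (({x ∈ T | ∃ H : ι → ℕ, (∀ i, 1 ≤ H i) ∧ (∀ i j, |x i j| ≤ H i) ∧
      ((∏ i, H i ^ n i : ℕ) : ℝ) ≤ X}.ncard : ℕ) : ℝ) ≤ C * X

end Pool.Agent.Q161.ESN
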